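import Mathlib

/-! Project H418-EF (MP_98674e_lc): the isomorphism relation of torsion-free abelian groups of
rank 2 is essentially free; for every n the restriction to groups with scalar automorphisms only
is essentially free. All statements of the tasks. -/

namespace Pool.Agent.H418R3.EF

open scoped Pointwise

/-- `F` is a free countable Borel equivalence relation on `Y`. -/
def FreeCBER {Y : Type} [MeasurableSpace Y] (F : Y → Y → Prop) : Prop :=
  ∃ (Γ : Type) (_ : Group Γ) (_ : Countable Γ) (_ : MulAction Γ Y),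
    (∀ γ : Γ, Measurable (fun y : Y => γ • y)) ∧
    (∀ (γ : Γ) (y : Y), γ • y = y → γ = 1) ∧
    ∀ x y : Y, F x y ↔ ∃ γ : Γ, γ • x = y

/-- `E` is Borel reducible to `F`. -/
def BorelRed {X Y : Type} [MeasurableSpace X] [MeasurableSpace Y]
    (E : X → X → Prop) (F : Y → Y → Prop) : Prop :=
  ∃ f : X → Y, Measurable f ∧ ∀ x y, E x y ↔ F (f x) (f y)

/-- `E` is essentially free: Borel bireducible with a free countable Borel equivalence relation
on a standard Borel space. -/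
def EssFree {X : Type} [MeasurableSpace X] (E : X → X → Prop) : Prop :=
  ∃ (Y : Type) (_ : MeasurableSpace Y) (_ : StandardBorelSpace Y) (F : Y → Y → Prop),
    FreeCBER F ∧ BorelRed E F ∧ BorelRed F E

/-- Cocycle data on a set `P` for the orbit relation of `G`: a cocycle `β` to a countable group
and a label `ℓ` which separates points with trivial cocycle. -/
def HasCoc (G : Type) [Group G] {X : Type} [MeasurableSpace X] [MulAction G X]
    (P : Set X) : Prop :=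
  ∃ (Γ : Type) (_ : Group Γ) (_ : Countable Γ) (β : X → X → Γ) (ℓ : X → ℕ),
    (∀ x ∈ P, ∀ y ∈ P, ∀ z ∈ P, (∃ g : G, g • x = y) → (∃ g : G, g • y = z) →
      β z x = β z y * β y x) ∧
    (∀ x ∈ P, ∀ y ∈ P, (∃ g : G, g • x = y) → β y x = 1 → ℓ x = ℓ y → x = y) ∧
    (∀ (g : G) (γ : Γ), MeasurableSet {x | x ∈ P ∧ g • x ∈ P ∧ β (g • x) x = γ}) ∧
    (∀ k : ℕ, MeasurableSet {x | x ∈ P ∧ ℓ x = k})

/-! ### General tasks -/

/-- TaskFrame. `Y = {(x,γ) ∈ P × Γ : (idx γ, ℓ x) is lexicographically least in the class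
{(g x, β(gx,x) γ) : g, gx ∈ P}}` (idx = an injection Γ → ℕ); class elements with the same pair
coincide. Γ acts by γ'·(x,γ) = least element of the class of (x, γ γ'⁻¹). Free since
β(x,x) = 1. Reductions: x ↦ least element of the class of (x,1), and (x,γ) ↦ x. -/
def TaskFrame : Prop :=
  ∀ (G : Type) [Group G] [Countable G] (X : Type) [MeasurableSpace X] [StandardBorelSpace X]
    [MulAction G X], (∀ g : G, Measurable (fun x : X => g • x)) →
    ∀ P : Set X, MeasurableSet P → HasCoc G P →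
      EssFree (fun x y : P => ∃ g : G, g • (x : X) = (y : X))

/-- TaskGlue. i(x) = least (in an enumeration of ι) index such that some g x ∈ P i (invariant),
j(x) = least g (in an enumeration of G) with g x ∈ P (i x), r(x) = g x. Group: the finitely
supported functions ι → Γ i (or a free product, or iterated products); β(y,x) = β_i(r y, r x)
in the i-th factor; ℓ(x) = Nat.pair (index of g) (ℓ_i (r x)). -/
def TaskGlue : Prop :=
  ∀ (G : Type) [Group G] [Countable G] (X : Type) [MeasurableSpace X]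
    [MulAction G X], (∀ g : G, Measurable (fun x : X => g • x)) →
    ∀ (ι : Type) [Countable ι] (P : ι → Set X), (∀ i, MeasurableSet (P i)) →
      (∀ i, HasCoc G (P i)) → (∀ x : X, ∃ i, ∃ g : G, g • x ∈ P i) →
      HasCoc G (Set.univ : Set X)

/-- TaskAb. For a commutative countable group. Γ = D = finitely supported functions
ℕ → ℚ × (ℚ/ℤ). For a subgroup H ≤ G choose a homomorphism φ_H : G → D with kernel H by greedy
extension along an enumeration g_0, g_1, ... of G: d_k = least d ∈ D with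
∀ integers m_0..m_k : (∏ g_i^{m_i} ∈ H ↔ Σ_{i<k} m_i d_i + m_k d = 0). (Existence of d: fresh
coordinate and divisibility of D.) β(gx,x) = φ_{Stab x}(g), ℓ = 0; Stab (gx) = Stab x. -/
def TaskAb : Prop :=
  ∀ (G : Type) [Group G] [Countable G], (∀ a b : G, a * b = b * a) →
    ∀ (X : Type) [MeasurableSpace X] [MulAction G X],
    (∀ g : G, Measurable (fun x : X => g • x)) →
    (∀ g : G, MeasurableSet {x : X | g • x = x}) → HasCoc G (Set.univ : Set X)

/-- TaskIdx (index two). Wreath product (Γ × Γ) ⋊ Z/2 cocycle on the invariant set where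
σx ∉ Hx (with s_0 x = x, s_1 x = σ x), the given cocycle where σx ∈ Hx. -/
def TaskIdx : Prop :=
  ∀ (G : Type) [Group G] [Countable G] (X : Type) [MeasurableSpace X]
    [MulAction G X], (∀ g : G, Measurable (fun x : X => g • x)) →
    (∀ g : G, MeasurableSet {x : X | g • x = x}) →
    ∀ (H : Subgroup G) (σ : G) (P : Set X), MeasurableSet P →
      (∀ h ∈ H, σ * h * σ⁻¹ ∈ H) → (∀ h ∈ H, σ⁻¹ * h * σ ∈ H) → σ * σ ∈ H →
      (∀ h ∈ H, ∀ x ∈ P, h • x ∈ P) → (∀ x ∈ P, σ • x ∈ P) → (∀ x ∈ P, σ⁻¹ • x ∈ P) →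
      (∀ x ∈ P, ∀ g : G, g • x ∈ P → g ∈ H ∨ σ⁻¹ * g ∈ H) →
      HasCoc H P → HasCoc G P

/-! ### The space of torsion-free abelian groups of rank n -/

abbrev V (n : ℕ) : Type := Fin n → ℚ

abbrev GQ (n : ℕ) : Type := V n ≃ₗ[ℚ] V n

/-- Subgroups of ℚ^n which contain a basis of ℚ^n. -/
def Sn (n : ℕ) : Type :=
  {A : AddSubgroup (V n) // Submodule.span ℚ (A : Set (V n)) = ⊤}

/-- The Borel structure: generated by the sets {A | v ∈ A}. -/
instance (n : ℕ) : MeasurableSpace (Sn n) :=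
  MeasurableSpace.comap (fun A : Sn n => fun v : V n => v ∈ A.1) MeasurableSpace.pi

theorem span_smul {n : ℕ} (g : GQ n) (A : AddSubgroup (V n))
    (h : Submodule.span ℚ (A : Set (V n)) = ⊤) :
    Submodule.span ℚ ((g • A : AddSubgroup (V n)) : Set (V n)) = ⊤ := by
  have h1 : ((g • A : AddSubgroup (V n)) : Set (V n)) = (g : V n →ₗ[ℚ] V n) '' (A : Set (V n)) := by
    ext v
    constructor
    · intro hv
      obtain ⟨w, hw, rfl⟩ := AddSubgroup.mem_smul_pointwise_iff_exists _ _ _ |>.1 hv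
      exact ⟨w, hw, rfl⟩
    · rintro ⟨w, hw, rfl⟩
      exact (AddSubgroup.mem_smul_pointwise_iff_exists _ _ _).2 ⟨w, hw, rfl⟩
  rw [h1, Submodule.span_image, h, Submodule.map_top]
  exact LinearMap.range_eq_top.2 g.surjective

instance (n : ℕ) : MulAction (GQ n) (Sn n) where
  smul g A := ⟨g • A.1, span_smul g A.1 A.2⟩
  one_smul A := Subtype.ext (one_smul (GQ n) A.1)
  mul_smul g h A := Subtype.ext (mul_smul g h A.1)

theorem coe_smul {n : ℕ} (g : GQ n) (A : Sn n) : (g • A).1 = g • A.1 := rfl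

theorem mem_smul {n : ℕ} (g : GQ n) (A : Sn n) (v : V n) :
    v ∈ (g • A).1 ↔ g⁻¹ v ∈ A.1 := by
  rw [coe_smul]
  exact AddSubgroup.mem_pointwise_smul_iff_inv_smul_mem

/-- The linear bijection `g` is a scalar. -/
def IsScal {n : ℕ} (g : GQ n) : Prop := ∃ c : ℚ, ∀ v, g v = c • v

/-- Isomorphism of torsion-free abelian groups of rank `n`. -/
def IsoRel (n : ℕ) (A B : Sn n) : Prop := Nonempty (A.1 ≃+ B.1)

/-- TaskIso. An isomorphism A ≃+ B extends uniquely to a ℚ-linear bijection of ℚ^n. -/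
def TaskIso : Prop := ∀ (n : ℕ) (A B : Sn n), IsoRel n A B ↔ ∃ g : GQ n, g • A = B

/-- TaskStd. -/
def TaskStd : Prop := ∀ n : ℕ, Countable (GQ n) ∧ StandardBorelSpace (Sn n) ∧
  (∀ g : GQ n, Measurable (fun A : Sn n => g • A)) ∧
  (∀ g : GQ n, MeasurableSet {A : Sn n | g • A = A}) ∧
  (∀ v : V n, MeasurableSet {A : Sn n | v ∈ A.1})

/-- Groups all of whose automorphisms are scalars. -/
def PS (n : ℕ) : Set (Sn n) := {A | ∀ g : GQ n, g • A = A → IsScal g}

/-- Rank two, all automorphisms commute with `g`, and there is a non-scalar one. -/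
def PC (g : GQ 2) : Set (Sn 2) :=
  {A | (∀ h : GQ 2, h • A = A → h * g = g * h) ∧ ∃ h : GQ 2, h • A = A ∧ ¬ IsScal h}

/-- `g` is semisimple and not a scalar: no rational `c` with `(g - c)^2 = 0`. -/
def Semi (g : GQ 2) : Prop := ¬ ∃ c : ℚ, ∀ v, g (g v) - (2 * c) • g v + (c ^ 2) • v = 0

/-- Rank two, all automorphisms have the form `a + b N`, `N (x,y) = (0,x)`, and there is one
with `b ≠ 0`. -/
def PD : Set (Sn 2) :=
  {A | (∀ h : GQ 2, h • A = A → ∃ a b : ℚ, ∀ v : V 2, h v = ![a * v 0, b * v 0 + a * v 1]) ∧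
    ∃ h : GQ 2, h • A = A ∧ ¬ IsScal h}

/-- Rank two, multiples of the matrix units E11, E22, E21 are endomorphisms. -/
def PT : Set (Sn 2) :=
  {A | ∃ m : ℤ, m ≠ 0 ∧ ∀ v ∈ A.1, ![(m : ℚ) * v 0, 0] ∈ A.1 ∧ ![0, (m : ℚ) * v 1] ∈ A.1 ∧
    ![0, (m : ℚ) * v 0] ∈ A.1}

/-- TaskMeas. (Use TaskStd; everything is a countable combination of {A | v ∈ A}.) -/
def TaskMeas : Prop := (∀ n, MeasurableSet (PS n)) ∧ (∀ g, MeasurableSet (PC g)) ∧
  MeasurableSet PD ∧ MeasurableSet PT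

/-- TaskE. e p A = least k with p^k ℤ^n ⊆ A_(p) = {v | ∃ m prime to p, m v ∈ A} if p is a prime
and A is not p-divisible (that least k exists: A_(p) contains a multiple of ℤ^n, and if
p^k ℤ^n ⊆ A_(p) for all k then A_(p) = ℚ^n, A is p-divisible); e p A = 0 otherwise. If g and g⁻¹
have p-integral matrices then e p (g A) = e p A. e p (c A) = e p A + v_p(c) if A is not
p-divisible; if v_p(c) = 0 for every prime p for which A is not p-divisible, then c A = A. -/
def TaskE : Prop := ∀ n : ℕ, 0 < n → ∃ e : ℕ → Sn n → ℤ,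
  (∀ p k, MeasurableSet {A : Sn n | e p A = k}) ∧
  (∀ (g : GQ n) (A : Sn n), {p | e p (g • A) ≠ e p A}.Finite) ∧
  (∀ (g : GQ n) (A : Sn n), IsScal g → (∀ p, e p (g • A) = e p A) → g • A = A)

/-- TaskS. Γ = (GQ n ⧸ center (or scalars)) × (finitely supported functions ℕ → ℤ),
β(gA, A) = (class of g, e(gA) - e(A)), ℓ = 0. -/
def TaskS : Prop := TaskE → TaskStd → TaskMeas → ∀ n : ℕ, 0 < n → HasCoc (GQ n) (PS n)

/-- TaskC. H = centralizer of g (commutative: TaskAb, restrict to P); σ with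
σ g σ⁻¹ = tr g - g; for A, hA ∈ PC g: k ∈ Aut A non-scalar, k and h k h⁻¹ lie in ℚ[g], so h
normalises ℚ[g], h g h⁻¹ ∈ {g, tr g - g}. TaskIdx. -/
def TaskC : Prop := TaskAb → TaskIdx → TaskStd → TaskMeas →
  ∀ g : GQ 2, Semi g → HasCoc (GQ 2) (PC g)

/-- The Borel structure on the subgroups of ℚ. -/
instance : MeasurableSpace (AddSubgroup ℚ) :=
  MeasurableSpace.comap (fun A : AddSubgroup ℚ => fun v : ℚ => v ∈ A) MeasurableSpace.pi

/-- TaskD1. Γ = M ⋊ ℚˣ, M = ⊕_p ℚ/ℤ_(p), r ∈ ℚˣ acts on ℚ/ℤ_(p) by multiplication with the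
unit r p^(-v_p r) of ℤ_(p). T_(p) = {q | ∃ m prime to p, m q ∈ T} is ℚ or p^t ℤ_(p), t = t_p(T);
c T q r = ((class of p^(-t_p(r T)) q)_p, r), where the p-component is 0 if T_(p) = ℚ. -/
def TaskD1 : Prop := ∃ (Γ : Type) (_ : Group Γ) (_ : Countable Γ)
    (c : AddSubgroup ℚ → ℚ → ℚˣ → Γ),
  (∀ T : AddSubgroup ℚ, T ≠ ⊥ → ∀ (q q' : ℚ) (r r' : ℚˣ),
    c (r • T) q' r' * c T q r = c T (q' + r' * q) (r' * r)) ∧
  (∀ T : AddSubgroup ℚ, T ≠ ⊥ → ∀ (q : ℚ) (r : ℚˣ), c T q r = 1 ↔ (r = 1 ∧ q ∈ T)) ∧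
  (∀ (q : ℚ) (r : ℚˣ) (γ : Γ), MeasurableSet {T : AddSubgroup ℚ | T ≠ ⊥ ∧ c T q r = γ})

/-- TaskD2. For A ∈ PD, T_A = {q | q N A ⊆ A} ≠ 0 (N (x,y) = (0,x)). If A, gA ∈ PD then
g (x,y) = (a x, b x + d y); T_{gA} = (d/a) T_A. β(gA,A) = (c (T_A) (b/a) (d/a), e(gA) - e(A)).
An automorphism of A has a = d, b/a ∈ T_A (check p-locally: if v_p(a) = 0 then a ∈ R_(p), else
a T_A = T_A gives (T_A)_(p) = ℚ). If β = 1 then gA = aA, and aA = A by TaskE. ℓ = 0. -/
def TaskD2 : Prop := TaskD1 → TaskE → TaskStd → TaskMeas → HasCoc (GQ 2) PD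

/-- The two rank one groups of A. -/
def B1 (A : Sn 2) : AddSubgroup ℚ where
  carrier := {q | ![q, 0] ∈ A.1}
  zero_mem' := by
    have : (![0, 0] : V 2) = 0 := by ext i; fin_cases i <;> rfl
    show ![0, 0] ∈ A.1
    rw [this]; exact A.1.zero_mem
  add_mem' := by
    intro a b ha hb
    have : (![a + b, 0] : V 2) = ![a, 0] + ![b, 0] := by ext i; fin_cases i <;> simp
    show ![a + b, 0] ∈ A.1
    rw [this]; exact A.1.add_mem ha hb
  neg_mem' := by
    intro a ha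
    have : (![-a, 0] : V 2) = -![a, 0] := by ext i; fin_cases i <;> simp
    show ![-a, 0] ∈ A.1
    rw [this]; exact A.1.neg_mem ha

def B2 (A : Sn 2) : AddSubgroup ℚ where
  carrier := {q | ![0, q] ∈ A.1}
  zero_mem' := by
    have : (![0, 0] : V 2) = 0 := by ext i; fin_cases i <;> rfl
    show ![0, 0] ∈ A.1
    rw [this]; exact A.1.zero_mem
  add_mem' := by
    intro a b ha hb
    have : (![0, a + b] : V 2) = ![0, a] + ![0, b] := by ext i; fin_cases i <;> simp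
    show ![0, a + b] ∈ A.1
    rw [this]; exact A.1.add_mem ha hb
  neg_mem' := by
    intro a ha
    have : (![0, -a] : V 2) = -![0, a] := by ext i; fin_cases i <;> simp
    show ![0, -a] ∈ A.1
    rw [this]; exact A.1.neg_mem ha

/-- TaskT1. B ⊆ C ⊆ ℚ with m C ⊆ B: C/mC is finite cyclic (locally cyclic), k = [C:B],
kC ⊆ B and [C:kC] ≤ k, so B = k C. -/
def TaskT1 : Prop := ∀ (B C : AddSubgroup ℚ) (m : ℤ), m ≠ 0 → B ≤ C →
  (∀ x ∈ C, (m : ℚ) * x ∈ B) → ∃ q : ℚˣ, q • C = B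

/-- TaskT2. For v ≠ 0 let A_v = {q | q v ∈ A}. If v 0 ≠ 0 then A_v ≅ B1 A (quasi-equal up to a
rational factor, since m B1 ⊆ B2; TaskT1), if v 0 = 0 then A_v ≅ B2 A. A_v = (hA)_{hv}. Cases:
h e2 ∈ ℚ e2: clear. Otherwise B2 A ≅ B1 (hA), B2 (hA) ≅ B1 A, and with v = e1 or v = e1 + e2
(v 0 ≠ 0, (h v) 0 ≠ 0) B1 A ≅ B1 (hA). -/
def TaskT2 : Prop := TaskT1 → ∀ (A : Sn 2) (h : GQ 2), A ∈ PT → h • A ∈ PT →
  ∃ q1 q2 : ℚˣ, q1 • B1 A = B1 (h • A) ∧ q2 • B2 A = B2 (h • A)

/-- TaskT3. A/(B1 ⊕ B2) is finite (it embeds in (1/m)B1/B1 ⊕ (1/m)B2/B2, and C/mC is finite for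
a subgroup C of ℚ), so A = B1 ⊕ B2 + ⟨F⟩ for a finite set F. -/
def TaskT3 : Prop := ∀ A ∈ PT, ∃ F : Finset (V 2), ∀ v : V 2, v ∈ A.1 ↔
  ∃ (x y : ℚ) (w : V 2), x ∈ B1 A ∧ y ∈ B2 A ∧ w ∈ AddSubgroup.closure (F : Set (V 2)) ∧
    v = ![x, y] + w

/-- TaskT4. TaskAb for the group ℚˣ × ℚˣ acting on pairs of subgroups of ℚ gives β', ℓ';
β(A', A) = β'(f A', f A), f A = (B1 A, B2 A) (TaskT2); ℓ A = Nat.pair (ℓ' (f A)) (least code of a
finite set F as in TaskT3); A is determined by f A and F. -/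
def TaskT4 : Prop := TaskAb → TaskT1 → TaskT2 → TaskT3 → TaskStd → TaskMeas → HasCoc (GQ 2) PT

/-- TaskCov. Linear algebra in dimension two. Let K = {φ | some non-zero multiple of φ maps A
into A}, a ℚ-algebra containing Aut A. If k ∈ Aut A is non-scalar and commutes with Aut A: k
semisimple: A ∈ PC k; k = c + nilpotent: conjugate into PD. If k, k' ∈ Aut A do not commute:
c = kk' - k'k ∈ K. If det c ≠ 0 then 1, k, k', kk' span M_2(ℚ). If c² = 0: conjugate c to E21;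
some z ∈ K does not commute with E21; if z_12 ≠ 0 then zN/z_12 is idempotent with first row
(1,0) ; if z_12 = 0, z_11 ≠ z_22, subtract z_21 N: diagonal. In all cases a conjugate of A is in
PT. -/
def TaskCov : Prop := ∀ A : Sn 2, A ∈ PS 2 ∨ (∃ g : GQ 2, Semi g ∧ A ∈ PC g) ∨
  (∃ h : GQ 2, h • A ∈ PD) ∨ (∃ h : GQ 2, h • A ∈ PT)

end Pool.Agent.H418R3.EF
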