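import Pool.Agent.H418R3.EF.Stmts

namespace Pool.Agent.H418R3.EF

open scoped Pointwise

theorem hasCoc_mono {G : Type} [Group G] {X : Type} [MeasurableSpace X] [MulAction G X]
    (hact : ∀ g : G, Measurable (fun x : X => g • x))
    {P Q : Set X} (hQP : Q ⊆ P) (hQ : MeasurableSet Q) (h : HasCoc G P) : HasCoc G Q := by
  obtain ⟨Γ, i1, i2, β, ℓ, h1, h2, h3, h4⟩ := h
  refine ⟨Γ, i1, i2, β, ℓ, ?_, ?_, ?_, ?_⟩
  · intro x hx y hy z hz
    exact h1 x (hQP hx) y (hQP hy) z (hQP hz)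
  · intro x hx y hy
    exact h2 x (hQP hx) y (hQP hy)
  · intro g γ
    have : {x | x ∈ Q ∧ g • x ∈ Q ∧ β (g • x) x = γ} =
        {x | x ∈ P ∧ g • x ∈ P ∧ β (g • x) x = γ} ∩ (Q ∩ (fun x => g • x) ⁻¹' Q) := by
      ext x
      constructor
      · rintro ⟨a, b, c⟩
        exact ⟨⟨hQP a, hQP b, c⟩, a, b⟩
      · rintro ⟨⟨a, b, c⟩, d, e⟩
        exact ⟨d, e, c⟩
    rw [this]
    exact (h3 g γ).inter (hQ.inter (hact g hQ))
  · intro k
    have : {x | x ∈ Q ∧ ℓ x = k} = {x | x ∈ P ∧ ℓ x = k} ∩ Q := by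
      ext x
      constructor
      · rintro ⟨a, b⟩
        exact ⟨⟨hQP a, b⟩, a⟩
      · rintro ⟨⟨a, b⟩, c⟩
        exact ⟨c, b⟩
    rw [this]
    exact (h4 k).inter hQ

theorem hasCoc_empty {G : Type} [Group G] {X : Type} [MeasurableSpace X] [MulAction G X] :
    HasCoc G (∅ : Set X) := by
  refine ⟨Unit, inferInstance, inferInstance, fun _ _ => (), fun _ => 0, ?_, ?_, ?_, ?_⟩
  · intro x hx
    exact absurd hx (Set.notMem_empty x)
  · intro x hx
    exact absurd hx (Set.notMem_empty x)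
  · intro g γ
    have : {x : X | x ∈ (∅ : Set X) ∧ g • x ∈ (∅ : Set X) ∧ () = γ} = ∅ := by
      ext x; simp
    rw [this]; exact MeasurableSet.empty
  · intro k
    have : {x : X | x ∈ (∅ : Set X) ∧ 0 = k} = ∅ := by
      ext x; simp
    rw [this]; exact MeasurableSet.empty

/-- Transfer of essential freeness along a measurable bijection. -/
theorem essFree_transfer {X X' : Type} [MeasurableSpace X] [MeasurableSpace X']
    (e : X ≃ᵐ X') (E : X → X → Prop) (E' : X' → X' → Prop)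
    (h : ∀ x y, E x y ↔ E' (e x) (e y)) (hE : EssFree E) : EssFree E' := by
  obtain ⟨Y, m, s, F, hF, ⟨f, hf, hf'⟩, ⟨g, hg, hg'⟩⟩ := hE
  refine ⟨Y, m, s, F, hF, ⟨fun x => f (e.symm x), hf.comp e.symm.measurable, ?_⟩,
    ⟨fun y => e (g y), e.measurable.comp hg, ?_⟩⟩
  · intro x y
    rw [← hf', h, e.apply_symm_apply, e.apply_symm_apply]
  · intro x y
    rw [hg', h]

/-- The statement of the result. -/
def Final : Prop :=
  (∀ n : ℕ, 0 < n → EssFree (fun A B : PS n => IsoRel n (A : Sn n) (B : Sn n))) ∧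
    EssFree (IsoRel 2)

theorem fin_PS (hFrame : TaskFrame) (hIso : TaskIso) (hStd : TaskStd) (hMeas : TaskMeas)
    (hE : TaskE) (hS : TaskS) (n : ℕ) (hn : 0 < n) :
    EssFree (fun A B : PS n => IsoRel n (A : Sn n) (B : Sn n)) := by
  obtain ⟨c1, c2, c3, c4, c5⟩ := hStd n
  have h := hFrame (GQ n) (Sn n) c3 (PS n) (hMeas.1 n) (hS hE hStd hMeas n hn)
  have he : (fun A B : PS n => IsoRel n (A : Sn n) (B : Sn n)) =
      (fun x y : PS n => ∃ g : GQ n, g • (x : Sn n) = (y : Sn n)) := by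
    funext A B
    exact propext (hIso n A B)
  rw [he]
  exact h

theorem fin_two (hFrame : TaskFrame) (hGlue : TaskGlue) (hAb : TaskAb) (hIdx : TaskIdx)
    (hIso : TaskIso) (hStd : TaskStd) (hMeas : TaskMeas)
    (hE : TaskE) (hS : TaskS) (hC : TaskC) (hD1 : TaskD1) (hD2 : TaskD2) (hT1 : TaskT1)
    (hT2 : TaskT2) (hT3 : TaskT3) (hT4 : TaskT4) (hCov : TaskCov) :
    EssFree (IsoRel 2) := by
  classical
  obtain ⟨c1, c2, c3, c4, c5⟩ := hStd 2
  obtain ⟨m1, m2, m3, m4⟩ := hMeas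
  let P : (Fin 3 ⊕ GQ 2) → Set (Sn 2) := fun i =>
    match i with
    | Sum.inl 0 => PS 2
    | Sum.inl 1 => PD
    | Sum.inl 2 => PT
    | Sum.inr g => if Semi g then PC g else ∅
  have hPm : ∀ i, MeasurableSet (P i) := by
    intro i
    match i with
    | Sum.inl 0 => exact m1 2
    | Sum.inl 1 => exact m3
    | Sum.inl 2 => exact m4
    | Sum.inr g =>
      show MeasurableSet (if Semi g then PC g else ∅)
      split_ifs
      · exact m2 g
      · exact MeasurableSet.empty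
  have hPc : ∀ i, HasCoc (GQ 2) (P i) := by
    intro i
    match i with
    | Sum.inl 0 => exact hS hE hStd ⟨m1, m2, m3, m4⟩ 2 (by norm_num)
    | Sum.inl 1 => exact hD2 hD1 hE hStd ⟨m1, m2, m3, m4⟩
    | Sum.inl 2 => exact hT4 hAb hT1 hT2 hT3 hStd ⟨m1, m2, m3, m4⟩
    | Sum.inr g =>
      show HasCoc (GQ 2) (if Semi g then PC g else ∅)
      split_ifs with hg
      · exact hC hAb hIdx hStd ⟨m1, m2, m3, m4⟩ g hg
      · exact hasCoc_empty
  have hcov : ∀ A : Sn 2, ∃ i, ∃ g : GQ 2, g • A ∈ P i := by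
    intro A
    rcases hCov A with h | ⟨g, hg, h⟩ | ⟨h, hh⟩ | ⟨h, hh⟩
    · exact ⟨Sum.inl 0, 1, by rw [one_smul]; exact h⟩
    · refine ⟨Sum.inr g, 1, ?_⟩
      rw [one_smul]
      show A ∈ (if Semi g then PC g else ∅)
      rw [if_pos hg]
      exact h
    · exact ⟨Sum.inl 1, h, hh⟩
    · exact ⟨Sum.inl 2, h, hh⟩
  have hcoc : HasCoc (GQ 2) (Set.univ : Set (Sn 2)) :=
    hGlue (GQ 2) (Sn 2) c3 (Fin 3 ⊕ GQ 2) P hPm hPc hcov
  have h := hFrame (GQ 2) (Sn 2) c3 Set.univ MeasurableSet.univ hcoc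
  refine essFree_transfer (MeasurableEquiv.Set.univ (Sn 2)) _ _ ?_ h
  intro x y
  rw [hIso 2]
  exact Iff.rfl

end Pool.Agent.H418R3.EF
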