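import Mathlib
import Pool.Agent.H418R3.EF.Stmts

/-! Task Ab of project H418-EF (helper811). -/

set_option autoImplicit false

namespace Pool.Agent.H418R3.EF.Ab811

open Pool.Agent.H418R3.EF

abbrev CC : Type := ℚ × AddCircle (1 : ℚ)
abbrev DD : Type := ℕ →₀ CC

instance : Countable (AddCircle (1 : ℚ)) := by
  have h : Function.Surjective (fun q : ℚ => (q : AddCircle (1 : ℚ))) := QuotientAddGroup.mk_surjective
  exact h.countable

theorem cdiv (n : ℕ) (hn : 0 < n) (c : CC) : ∃ c' : CC, (n : ℤ) • c' = c ∧ (c = 0 → c' = 0) := by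
  by_cases hc : c = 0
  · exact ⟨0, by rw [hc, smul_zero], fun _ => rfl⟩
  · obtain ⟨r, θ⟩ := c
    obtain ⟨t, rfl⟩ : ∃ t : ℚ, (t : AddCircle (1 : ℚ)) = θ := QuotientAddGroup.mk_surjective θ
    refine ⟨(r / n, ((t / n : ℚ) : AddCircle (1 : ℚ))), ?_, fun h => absurd h hc⟩
    have hn' : (n : ℚ) ≠ 0 := by positivity
    ext
    · simp
      field_simp
    · show (n : ℤ) • ((t / n : ℚ) : AddCircle (1 : ℚ)) = (t : AddCircle (1 : ℚ))
      rw [← AddCircle.coe_zsmul]
      congr 1
      simp
      field_simp

theorem ddiv (n : ℕ) (hn : 0 < n) (y : DD) : ∃ z : DD, (n : ℤ) • z = y ∧ ∀ j, y j = 0 → z j = 0 := by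
  choose h h1 h2 using cdiv n hn
  refine ⟨Finsupp.mapRange h (h2 0 rfl) y, ?_, ?_⟩
  · ext1 j
    rw [Finsupp.smul_apply, Finsupp.mapRange_apply, h1]
  · intro j hj
    rw [Finsupp.mapRange_apply]
    exact h2 _ hj

theorem tors (n : ℕ) (hn : 0 < n) (m : ℤ) :
    m • (((1 / n : ℚ) : AddCircle (1 : ℚ))) = 0 ↔ (n : ℤ) ∣ m := by
  have hn' : (n : ℚ) ≠ 0 := by positivity
  rw [← AddCircle.coe_zsmul, AddCircle.coe_eq_zero_iff]
  constructor
  · rintro ⟨k, hk⟩
    refine ⟨k, ?_⟩
    simp at hk
    field_simp at hk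
    have : (m : ℚ) = ((n : ℤ) * k : ℤ) := by push_cast; linarith
    exact_mod_cast this
  · rintro ⟨k, hk⟩
    refine ⟨k, ?_⟩
    rw [hk]
    simp
    field_simp

section
variable {A : Type} [AddCommGroup A]

/-- the values `d i`, `i < k`, define an embedding of the group generated by the `g i` modulo `N` -/
def R (N : AddSubgroup A) (g : ℕ → A) (k : ℕ) (d : ℕ → DD) : Prop :=
  ∀ m : ℕ →₀ ℤ, (∀ i, k ≤ i → m i = 0) →
    (Finsupp.linearCombination ℤ g m ∈ N ↔ Finsupp.linearCombination ℤ d m = 0)

theorem lc_congr (d d' : ℕ → DD) (m : ℕ →₀ ℤ) (h : ∀ i, m i ≠ 0 → d i = d' i) :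
    Finsupp.linearCombination ℤ d m = Finsupp.linearCombination ℤ d' m := by
  rw [Finsupp.linearCombination_apply, Finsupp.linearCombination_apply]
  apply Finsupp.sum_congr
  intro i hi
  rw [h i (Finsupp.mem_support_iff.mp hi)]

theorem lc_update (d : ℕ → DD) (k : ℕ) (e : DD) (m : ℕ →₀ ℤ) :
    Finsupp.linearCombination ℤ (Function.update d k e) m =
      m k • e + Finsupp.linearCombination ℤ d (m.erase k) := by
  conv_lhs => rw [← Finsupp.single_add_erase k m, map_add, Finsupp.linearCombination_single,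
    Function.update_self]
  congr 1
  apply lc_congr
  intro i hi
  have : i ≠ k := by
    rintro rfl
    exact hi Finsupp.erase_same
  rw [Function.update_of_ne this]

theorem lc_g (g : ℕ → A) (k : ℕ) (m : ℕ →₀ ℤ) :
    Finsupp.linearCombination ℤ g m =
      m k • g k + Finsupp.linearCombination ℤ g (m.erase k) := by
  conv_lhs => rw [← Finsupp.single_add_erase k m, map_add, Finsupp.linearCombination_single]

theorem ext_lemma (N : AddSubgroup A) (g : ℕ → A) (k : ℕ) (d : ℕ → DD) (hR : R N g k d) :
    ∃ e : DD, R N g (k + 1) (Function.update d k e) := by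
  classical
  obtain ⟨J, hJ⟩ := ((Finset.range k).biUnion fun i => (d i).support).exists_nat_subset_range
  have hdJ : ∀ i < k, (d i) J = 0 := by
    intro i hi
    by_contra hc
    have := hJ (Finset.mem_biUnion.mpr ⟨i, Finset.mem_range.mpr hi, Finsupp.mem_support_iff.mpr hc⟩)
    rw [Finset.mem_range] at this
    omega
  have hmJ : ∀ m : ℕ →₀ ℤ, (∀ i, k ≤ i → m i = 0) → (Finsupp.linearCombination ℤ d m) J = 0 := by
    intro m hm
    rw [Finsupp.linearCombination_apply, Finsupp.sum, Finsupp.finsetSum_apply]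
    apply Finset.sum_eq_zero
    intro i hi
    have : i < k := by
      by_contra hc
      exact Finsupp.mem_support_iff.mp hi (hm i (not_lt.mp hc))
    rw [Finsupp.smul_apply, hdJ i this, smul_zero]
  have her : ∀ m : ℕ →₀ ℤ, (∀ i, k + 1 ≤ i → m i = 0) → ∀ i, k ≤ i → (m.erase k) i = 0 := by
    intro m hm i hi
    rcases eq_or_lt_of_le hi with rfl | h
    · exact Finsupp.erase_same
    · rw [Finsupp.erase_ne h.ne']
      exact hm i h
  by_cases h : ∃ n : ℕ, 0 < n ∧ ∃ m : ℕ →₀ ℤ, (∀ i, k ≤ i → m i = 0) ∧
      (n : ℤ) • g k + Finsupp.linearCombination ℤ g m ∈ N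
  · obtain ⟨n₀, hn₀⟩ : ∃ n₀, n₀ = Nat.find h := ⟨_, rfl⟩
    obtain ⟨hn0, m₀, hm₀, hN₀⟩ := Nat.find_spec h
    rw [← hn₀] at hn0 hN₀
    obtain ⟨z, hz1, hz2⟩ := ddiv n₀ hn0 (-(Finsupp.linearCombination ℤ d m₀))
    have hzJ : z J = 0 := hz2 J (by rw [Finsupp.neg_apply, hmJ m₀ hm₀, neg_zero])
    let w : CC := (0, ((1 / n₀ : ℚ) : AddCircle (1 : ℚ)))
    have hw : ∀ q : ℤ, q • w = 0 ↔ (n₀ : ℤ) ∣ q := by
      intro q
      rw [← tors n₀ hn0 q]
      constructor
      · intro h; exact congrArg Prod.snd h
      · intro h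
        ext
        · simp [w]
        · exact h
    refine ⟨z + Finsupp.single J w, ?_⟩
    intro m hm
    have he := her m hm
    rw [lc_update, lc_g g k]
    -- general facts
    have hsub : ∀ q : ℤ, (∀ i, k ≤ i → (m.erase k - q • m₀) i = 0) := by
      intro q i hi
      rw [Finsupp.sub_apply, Finsupp.smul_apply, he i hi, hm₀ i hi, smul_zero, sub_zero]
    have hne : (n₀ : ℤ) • (z + Finsupp.single J w) = -(Finsupp.linearCombination ℤ d m₀) := by
      rw [smul_add, hz1, Finsupp.smul_single, (hw n₀).mpr dvd_rfl, Finsupp.single_zero, add_zero]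
    constructor
    · intro hin
      have hdv : (n₀ : ℤ) ∣ m k := by
        have h0 : (0 : ℤ) < n₀ := by exact_mod_cast hn0
        rw [Int.dvd_iff_emod_eq_zero]
        by_contra hc
        have h1 := Int.emod_nonneg (m k) h0.ne'
        have h2 := Int.emod_lt_of_pos (m k) h0
        have h3 : ((m k % n₀).toNat : ℤ) = m k % n₀ := Int.toNat_of_nonneg h1
        refine Nat.find_min h (m := (m k % n₀).toNat) (by omega) ⟨by omega, m.erase k - (m k / n₀) • m₀, hsub _, ?_⟩
        rw [h3, map_sub, map_smul]
        have h4 : (m k % n₀) • g k + (Finsupp.linearCombination ℤ g (m.erase k) -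
            (m k / n₀) • Finsupp.linearCombination ℤ g m₀) =
            (m k • g k + Finsupp.linearCombination ℤ g (m.erase k)) -
              (m k / n₀) • ((n₀ : ℤ) • g k + Finsupp.linearCombination ℤ g m₀) := by
          have h5 : m k = (n₀ : ℤ) * (m k / n₀) + m k % n₀ := (Int.mul_ediv_add_emod _ _).symm
          generalize m k / (n₀ : ℤ) = q at h5 ⊢
          generalize m k % (n₀ : ℤ) = r at h5 ⊢
          rw [h5]
          module
        rw [h4]
        exact N.sub_mem hin (N.zsmul_mem hN₀ _)
      obtain ⟨q, hq⟩ := hdv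
      have h6 : Finsupp.linearCombination ℤ g (m.erase k - q • m₀) ∈ N := by
        rw [map_sub, map_smul]
        have : Finsupp.linearCombination ℤ g (m.erase k) - q • Finsupp.linearCombination ℤ g m₀ =
            (m k • g k + Finsupp.linearCombination ℤ g (m.erase k)) -
              q • ((n₀ : ℤ) • g k + Finsupp.linearCombination ℤ g m₀) := by
          rw [hq]; module
        rw [this]
        exact N.sub_mem hin (N.zsmul_mem hN₀ _)
      have h7 := (hR _ (hsub q)).mp h6
      rw [map_sub, map_smul, sub_eq_zero] at h7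
      rw [h7, hq, mul_comm, mul_smul, hne]
      module
    · intro hin
      have h8 : (m k • (z + Finsupp.single J w) + Finsupp.linearCombination ℤ d (m.erase k)) J = 0 := by
        rw [hin]; rfl
      rw [Finsupp.add_apply, Finsupp.smul_apply, Finsupp.add_apply, hzJ, zero_add, Finsupp.single_eq_same,
        hmJ _ he, add_zero, hw] at h8
      obtain ⟨q, hq⟩ := h8
      rw [hq, mul_comm, mul_smul, hne] at hin
      have h9 : Finsupp.linearCombination ℤ d (m.erase k - q • m₀) = 0 := by
        rw [map_sub, map_smul]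
        rw [← hin]
        module
      have h10 := (hR _ (hsub q)).mpr h9
      rw [map_sub, map_smul] at h10
      have : m k • g k + Finsupp.linearCombination ℤ g (m.erase k) =
          (Finsupp.linearCombination ℤ g (m.erase k) - q • Finsupp.linearCombination ℤ g m₀) +
            q • ((n₀ : ℤ) • g k + Finsupp.linearCombination ℤ g m₀) := by
        rw [hq]; module
      rw [this]
      exact N.add_mem h10 (N.zsmul_mem hN₀ _)
  · have hno : ∀ (n : ℤ) (m : ℕ →₀ ℤ), (∀ i, k ≤ i → m i = 0) →
        n • g k + Finsupp.linearCombination ℤ g m ∈ N → n = 0 := by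
      intro n m hm hin
      by_contra hc
      apply h
      rcases lt_or_gt_of_ne hc with hneg | hpos
      · refine ⟨(-n).toNat, by omega, -m, fun i hi => by rw [Finsupp.neg_apply, hm i hi, neg_zero], ?_⟩
        rw [Int.toNat_of_nonneg (by omega), map_neg]
        have : (-n) • g k + -(Finsupp.linearCombination ℤ g m) =
            -(n • g k + Finsupp.linearCombination ℤ g m) := by module
        rw [this]
        exact N.neg_mem hin
      · refine ⟨n.toNat, by omega, m, hm, ?_⟩
        rw [Int.toNat_of_nonneg (by omega)]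
        exact hin
    refine ⟨Finsupp.single J (1, 0), ?_⟩
    intro m hm
    have he := her m hm
    rw [lc_update, lc_g g k]
    constructor
    · intro hin
      have h0 := hno _ _ he hin
      rw [h0, zero_smul, zero_add] at hin ⊢
      exact (hR _ he).mp hin
    · intro hin
      have h8 : (m k • (Finsupp.single J ((1, 0) : CC)) + Finsupp.linearCombination ℤ d (m.erase k)) J = 0 := by
        rw [hin]; rfl
      rw [Finsupp.add_apply, Finsupp.smul_apply, Finsupp.single_eq_same, hmJ _ he, add_zero] at h8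
      have h9 := congrArg Prod.fst h8
      have h0 : m k = 0 := by simpa using h9
      rw [h0, zero_smul, zero_add] at hin ⊢
      exact (hR _ he).mpr hin

/-- the greedy choice -/
theorem exP (dec : ℕ → DD) (N : AddSubgroup A) (g : ℕ → A) (k : ℕ) (u : ℕ →₀ DD) :
    ∃ c : ℕ, R N g (k + 1) (Function.update u k (dec c)) ∨
      ∀ c', ¬ R N g (k + 1) (Function.update u k (dec c')) := by
  by_cases h : ∃ c : ℕ, R N g (k + 1) (Function.update u k (dec c))
  · obtain ⟨c, hc⟩ := h
    exact ⟨c, Or.inl hc⟩
  · push Not at h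
    exact ⟨0, Or.inr h⟩

open Classical in
noncomputable def fnd (dec : ℕ → DD) (N : AddSubgroup A) (g : ℕ → A) (k : ℕ) (u : ℕ →₀ DD) : ℕ :=
  Nat.find (exP dec N g k u)

noncomputable def sq (dec : ℕ → DD) (N : AddSubgroup A) (g : ℕ → A) : ℕ → (ℕ →₀ DD)
  | 0 => 0
  | k + 1 => (sq dec N g k).update k (dec (fnd dec N g k (sq dec N g k)))

theorem sq_R (dec : ℕ → DD) (hdec : Function.Surjective dec) (N : AddSubgroup A) (g : ℕ → A) (k : ℕ) :
    R N g k (sq dec N g k) := by
  classical
  induction k with
  | zero =>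
    intro m hm
    have : m = 0 := by ext i; exact hm i (Nat.zero_le _)
    rw [this, map_zero, map_zero]
    simp [N.zero_mem]
  | succ k ih =>
    obtain ⟨e, he⟩ := ext_lemma N g k _ ih
    obtain ⟨c, rfl⟩ := hdec e
    have h1 := Nat.find_spec (exP dec N g k (sq dec N g k))
    rcases h1 with h1 | h1
    · show R N g (k + 1) ((sq dec N g k).update k (dec (fnd dec N g k (sq dec N g k))))
      rw [Finsupp.coe_update]
      exact h1
    · exact absurd he (h1 c)

noncomputable def dd (dec : ℕ → DD) (N : AddSubgroup A) (g : ℕ → A) (i : ℕ) : DD := sq dec N g (i + 1) i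

theorem sq_eq (dec : ℕ → DD) (N : AddSubgroup A) (g : ℕ → A) (k i : ℕ) (h : i < k) :
    sq dec N g k i = dd dec N g i := by
  induction k with
  | zero => omega
  | succ k ih =>
    rcases eq_or_lt_of_le (Nat.lt_succ_iff.mp h) with rfl | h1
    · rfl
    · rw [← ih h1]
      show ((sq dec N g k).update k (dec (fnd dec N g k (sq dec N g k)))) i = _
      rw [Finsupp.coe_update, Function.update_of_ne h1.ne]

theorem dd_R (dec : ℕ → DD) (hdec : Function.Surjective dec) (N : AddSubgroup A) (g : ℕ → A) (m : ℕ →₀ ℤ) :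
    Finsupp.linearCombination ℤ g m ∈ N ↔ Finsupp.linearCombination ℤ (dd dec N g) m = 0 := by
  obtain ⟨k, hk⟩ := m.support.exists_nat_subset_range
  have hm : ∀ i, k ≤ i → m i = 0 := by
    intro i hi
    by_contra hc
    have := hk (Finsupp.mem_support_iff.mpr hc)
    rw [Finset.mem_range] at this
    omega
  rw [sq_R dec hdec N g k m hm, lc_congr (sq dec N g k) (dd dec N g) m]
  intro i hi
  apply sq_eq
  by_contra hc
  exact hi (hm i (not_lt.mp hc))

theorem meas_R {X : Type} [MeasurableSpace X] (st : X → AddSubgroup A)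
    (hst : ∀ a : A, MeasurableSet {x | a ∈ st x}) (g : ℕ → A) (k : ℕ) (d : ℕ → DD) :
    MeasurableSet {x | R (st x) g k d} := by
  have : {x | R (st x) g k d} = ⋂ m : ℕ →₀ ℤ, {x | (∀ i, k ≤ i → m i = 0) →
    (Finsupp.linearCombination ℤ g m ∈ st x ↔ Finsupp.linearCombination ℤ d m = 0)} := by
    ext x
    simp only [R, Set.mem_ofPred_eq, Set.mem_iInter]
  rw [this]
  apply MeasurableSet.iInter
  intro m
  by_cases h1 : ∀ i, k ≤ i → m i = 0
  · by_cases h2 : Finsupp.linearCombination ℤ d m = 0
    · have : {x | (∀ i, k ≤ i → m i = 0) → (Finsupp.linearCombination ℤ g m ∈ st x ↔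
          Finsupp.linearCombination ℤ d m = 0)} = {x | Finsupp.linearCombination ℤ g m ∈ st x} := by
        ext x
        simp only [Set.mem_ofPred_eq, h2, iff_true]
        exact ⟨fun h => h h1, fun h _ => h⟩
      rw [this]
      exact hst _
    · have : {x | (∀ i, k ≤ i → m i = 0) → (Finsupp.linearCombination ℤ g m ∈ st x ↔
          Finsupp.linearCombination ℤ d m = 0)} = {x | Finsupp.linearCombination ℤ g m ∈ st x}ᶜ := by
        ext x
        simp only [Set.mem_ofPred_eq, h2, iff_false, Set.mem_compl_iff]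
        exact ⟨fun h => h h1, fun h _ => h⟩
      rw [this]
      exact (hst _).compl
  · have : {x | (∀ i, k ≤ i → m i = 0) → (Finsupp.linearCombination ℤ g m ∈ st x ↔
          Finsupp.linearCombination ℤ d m = 0)} = Set.univ := by
      ext x
      simp only [Set.mem_ofPred_eq, Set.mem_univ, iff_true]
      intro h
      exact absurd h h1
    rw [this]
    exact MeasurableSet.univ

theorem meas_fnd {X : Type} [MeasurableSpace X] (dec : ℕ → DD) (st : X → AddSubgroup A)
    (hst : ∀ a : A, MeasurableSet {x | a ∈ st x}) (g : ℕ → A) (k : ℕ) (u : ℕ →₀ DD) (c : ℕ) :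
    MeasurableSet {x | fnd dec (st x) g k u = c} := by
  classical
  have hm : Measurable fun x => Nat.find (exP dec (st x) g k u) := by
    apply measurable_find
    intro c'
    apply MeasurableSet.union
    · exact meas_R st hst g (k + 1) _
    · have : {x | ∀ c', ¬ R (st x) g (k + 1) (Function.update u k (dec c'))} =
          ⋂ c', {x | R (st x) g (k + 1) (Function.update u k (dec c'))}ᶜ := by
        ext x
        simp only [Set.mem_ofPred_eq, Set.mem_iInter, Set.mem_compl_iff]
      show MeasurableSet {x | ∀ c', ¬ R (st x) g (k + 1) (Function.update u k (dec c'))}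
      rw [this]
      exact MeasurableSet.iInter fun c' => (meas_R st hst g (k + 1) _).compl
  have h1 := hm (measurableSet_singleton c)
  have e : {x | fnd dec (st x) g k u = c} = (fun x => Nat.find (exP dec (st x) g k u)) ⁻¹' {c} := by
    ext x
    simp only [fnd, Set.mem_ofPred_eq, Set.mem_preimage, Set.mem_singleton_iff]
  rw [e]
  exact h1

theorem meas_sq {X : Type} [MeasurableSpace X] (dec : ℕ → DD) (st : X → AddSubgroup A)
    (hst : ∀ a : A, MeasurableSet {x | a ∈ st x}) (g : ℕ → A) (k : ℕ) :
    ∀ t : ℕ →₀ DD, MeasurableSet {x | sq dec (st x) g k = t} := by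
  induction k with
  | zero =>
    intro t
    have e : {x | sq dec (st x) g 0 = t} = {_x : X | (0 : ℕ →₀ DD) = t} := by
      ext x
      rw [Set.mem_ofPred_eq, Set.mem_ofPred_eq, sq]
    rw [e]
    exact MeasurableSet.const _
  | succ k ih =>
    intro t
    have e : {x | sq dec (st x) g (k + 1) = t} = ⋃ u : ℕ →₀ DD, ⋃ c : ℕ,
        ({x | sq dec (st x) g k = u} ∩ {x | fnd dec (st x) g k u = c}) ∩ {_x | u.update k (dec c) = t} := by
      ext x
      simp only [Set.mem_iUnion, Set.mem_inter_iff, Set.mem_ofPred_eq]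
      constructor
      · intro h
        exact ⟨_, _, ⟨rfl, rfl⟩, h⟩
      · rintro ⟨u, c, ⟨rfl, rfl⟩, h⟩
        exact h
    rw [e]
    exact MeasurableSet.iUnion fun u => MeasurableSet.iUnion fun c =>
      ((ih u).inter (meas_fnd dec st hst g k u c)).inter (MeasurableSet.const _)

theorem meas_dd {X : Type} [MeasurableSpace X] (dec : ℕ → DD) (st : X → AddSubgroup A)
    (hst : ∀ a : A, MeasurableSet {x | a ∈ st x}) (g : ℕ → A) (i : ℕ) (e : DD) :
    MeasurableSet {x | dd dec (st x) g i = e} := by
  have h : {x | dd dec (st x) g i = e} = ⋃ t : ℕ →₀ DD, {x | sq dec (st x) g (i + 1) = t} ∩ {_x | t i = e} := by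
    ext x
    simp only [dd, Set.mem_iUnion, Set.mem_inter_iff, Set.mem_ofPred_eq]
    constructor
    · intro h; exact ⟨_, rfl, h⟩
    · rintro ⟨t, rfl, h⟩; exact h
  rw [h]
  exact MeasurableSet.iUnion fun t => (meas_sq dec st hst g (i + 1) t).inter (MeasurableSet.const _)

end

theorem main {G : Type} [CommGroup G] [Countable G] (X : Type) [MeasurableSpace X] [MulAction G X]
    (_hsm : ∀ g : G, Measurable (fun x : X => g • x))
    (hfix : ∀ g : G, MeasurableSet {x : X | g • x = x}) : HasCoc G (Set.univ : Set X) := by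
  classical
  have hcA : Countable (Additive G) := Countable.of_equiv G Additive.ofMul
  obtain ⟨dec, hdec⟩ := exists_surjective_nat DD
  obtain ⟨g, hg⟩ := exists_surjective_nat (Additive G)
  choose idx hidx using hg
  let st : X → AddSubgroup (Additive G) := fun x => Subgroup.toAddSubgroup (MulAction.stabilizer G x)
  have hmem : ∀ (x : X) (a : G), Additive.ofMul a ∈ st x ↔ a • x = x := fun x a => Iff.rfl
  have hst : ∀ a : Additive G, MeasurableSet {x | a ∈ st x} := fun a => hfix (Additive.toMul a)
  let φ : X → Additive G → DD := fun x a => dd dec (st x) g (idx a)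
  have hadd : ∀ x a b, φ x (a + b) = φ x a + φ x b := by
    intro x a b
    have h1 := (dd_R dec hdec (st x) g (Finsupp.single (idx (a + b)) 1 - Finsupp.single (idx a) 1 -
      Finsupp.single (idx b) 1)).mp (by
        rw [map_sub, map_sub, Finsupp.linearCombination_single, Finsupp.linearCombination_single,
          Finsupp.linearCombination_single, hidx, hidx, hidx]
        have : (1 : ℤ) • (a + b) - (1 : ℤ) • a - (1 : ℤ) • b = 0 := by module
        rw [this]
        exact (st x).zero_mem)
    rw [map_sub, map_sub, Finsupp.linearCombination_single, Finsupp.linearCombination_single,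
          Finsupp.linearCombination_single, one_smul, one_smul, one_smul, sub_sub, sub_eq_zero] at h1
    exact h1
  have hker : ∀ x a, φ x a = 0 ↔ a ∈ st x := by
    intro x a
    have h1 := dd_R dec hdec (st x) g (Finsupp.single (idx a) 1)
    rw [Finsupp.linearCombination_single, Finsupp.linearCombination_single, one_smul, one_smul, hidx] at h1
    exact h1.symm
  have hstab : ∀ (a : G) (x : X), st (a • x) = st x := by
    intro a x
    ext b
    obtain ⟨b, rfl⟩ : ∃ b' : G, Additive.ofMul b' = b := ⟨Additive.toMul b, rfl⟩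
    rw [hmem, hmem, smul_smul, mul_comm, ← smul_smul]
    exact ⟨fun h => MulAction.injective a h, fun h => by rw [h]⟩
  have hφst : ∀ x y : X, st x = st y → φ x = φ y := by
    intro x y h
    show (fun a => dd dec (st x) g (idx a)) = fun a => dd dec (st y) g (idx a)
    rw [h]
  let β : X → X → Multiplicative DD := fun y x =>
    if h : ∃ a : G, a • x = y then Multiplicative.ofAdd (φ x (Additive.ofMul h.choose)) else 1
  have hβ : ∀ (x : X) (a : G), β (a • x) x = Multiplicative.ofAdd (φ x (Additive.ofMul a)) := by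
    intro x a
    have h : ∃ b : G, b • x = a • x := ⟨a, rfl⟩
    show (if h : ∃ b : G, b • x = a • x then Multiplicative.ofAdd (φ x (Additive.ofMul h.choose)) else 1) = _
    rw [dif_pos h]
    congr 1
    have h1 := h.choose_spec
    have h2 : Additive.ofMul h.choose - Additive.ofMul a ∈ st x := by
      show (h.choose / a) • x = x
      rw [div_eq_mul_inv, mul_comm, ← smul_smul, h1, inv_smul_smul]
    have h3 := hadd x (Additive.ofMul h.choose - Additive.ofMul a) (Additive.ofMul a)
    rw [sub_add_cancel, (hker x _).mpr h2, zero_add] at h3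
    exact h3
  refine ⟨Multiplicative DD, inferInstance, inferInstanceAs (Countable DD), β, fun _ => 0, ?_, ?_, ?_, ?_⟩
  · rintro x - y - z - ⟨a, rfl⟩ ⟨b, rfl⟩
    have h1 := hβ x (b * a)
    rw [← smul_smul] at h1
    rw [h1, hβ (a • x) b, hβ x a, hφst (a • x) x (hstab a x), ← ofAdd_add, ← hadd]
    rfl
  · rintro x - y - ⟨a, rfl⟩ h1 -
    rw [hβ] at h1
    have h2 : φ x (Additive.ofMul a) = 0 := Multiplicative.ofAdd.injective h1
    exact ((hmem x a).mp ((hker x _).mp h2)).symm
  · intro a γ
    have e : {x | x ∈ (Set.univ : Set X) ∧ a • x ∈ (Set.univ : Set X) ∧ β (a • x) x = γ} =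
        {x | dd dec (st x) g (idx (Additive.ofMul a)) = Multiplicative.toAdd γ} := by
      ext x
      simp only [Set.mem_univ, true_and, Set.mem_ofPred_eq, hβ]
      rfl
    rw [e]
    exact meas_dd dec st hst g _ _
  · intro k
    have e : {x | x ∈ (Set.univ : Set X) ∧ (0 : ℕ) = k} = {_x | (0 : ℕ) = k} := by
      ext x; simp
    show MeasurableSet {x | x ∈ (Set.univ : Set X) ∧ (0 : ℕ) = k}
    rw [e]
    exact MeasurableSet.const _

theorem t : TaskAb := by
  intro G _ _ hc X _ _ hsm hfix
  let _ : CommGroup G := { (inferInstance : Group G) with mul_comm := hc }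
  exact main X hsm hfix

end Pool.Agent.H418R3.EF.Ab811
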