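import Pool.Agent.H418R3.EF.Stmts

set_option autoImplicit false

/-!
# The covering (helper504 for helper418)
-/

namespace Pool.Agent.H418R3.EF.Cov504

open scoped Pointwise
open Pool.Agent.H418R3.EF

/-- determinant of two vectors -/
def det2 (x y : V 2) : ℚ := x 0 * y 1 - x 1 * y 0

/-- the coordinate map of the basis `v, w` -/
noncomputable def frm (v w : V 2) (h : det2 v w ≠ 0) : GQ 2 where
  toFun x := ![det2 x w / det2 v w, det2 v x / det2 v w]
  invFun y := y 0 • v + y 1 • w
  map_add' x y := by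
    ext i
    fin_cases i
    · simp [det2]
      ring
    · simp [det2]
      ring
  map_smul' c x := by
    ext i
    fin_cases i
    · simp [det2]
      ring
    · simp [det2]
      ring
  left_inv x := by
    unfold det2 at h
    ext i
    fin_cases i
    · simp [det2]
      rw [div_mul_eq_mul_div, div_mul_eq_mul_div, ← add_div, div_eq_iff h]
      ring
    · simp [det2]
      rw [div_mul_eq_mul_div, div_mul_eq_mul_div, ← add_div, div_eq_iff h]
      ring
  right_inv y := by
    unfold det2 at h
    ext i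
    fin_cases i
    · simp [det2]
      rw [div_eq_iff h]
      ring
    · simp [det2]
      rw [div_eq_iff h]
      ring

theorem frm_inv (v w : V 2) (h : det2 v w ≠ 0) (y : V 2) :
    (frm v w h)⁻¹ y = y 0 • v + y 1 • w := rfl

theorem frm_decomp (v w : V 2) (h : det2 v w ≠ 0) (x : V 2) :
    x = (det2 x w / det2 v w) • v + (det2 v x / det2 v w) • w :=
  ((frm v w h).left_inv x).symm

theorem aut_mem {A : Sn 2} {g : GQ 2} (hg : g • A = A) {v : V 2} (hv : v ∈ A.1) : g v ∈ A.1 := by
  have h1 : g v ∈ (g • A).1 := by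
    rw [mem_smul]
    have h2 : g⁻¹ (g v) = v := g.symm_apply_apply v
    rw [h2]
    exact hv
  rwa [hg] at h1

/-- quasi-endomorphisms -/
def KK (A : Sn 2) (f : V 2 →ₗ[ℚ] V 2) : Prop := ∃ m : ℤ, m ≠ 0 ∧ ∀ v ∈ A.1, m • f v ∈ A.1

theorem KK_aut {A : Sn 2} {g : GQ 2} (hg : g • A = A) : KK A (g : V 2 →ₗ[ℚ] V 2) :=
  ⟨1, one_ne_zero, fun v hv => by
    rw [one_smul]
    exact aut_mem hg hv⟩

theorem KK_id {A : Sn 2} : KK A LinearMap.id :=
  ⟨1, one_ne_zero, fun v hv => by
    rw [one_smul]
    exact hv⟩

theorem KK_add {A : Sn 2} {f g : V 2 →ₗ[ℚ] V 2} (hf : KK A f) (hg : KK A g) : KK A (f + g) := by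
  obtain ⟨m, hm, h1⟩ := hf
  obtain ⟨m', hm', h2⟩ := hg
  refine ⟨m * m', mul_ne_zero hm hm', fun v hv => ?_⟩
  have h3 : (m * m') • (f + g) v = m' • (m • f v) + m • (m' • g v) := by
    rw [LinearMap.add_apply, smul_add, smul_smul, smul_smul, mul_comm m' m]
  rw [h3]
  exact A.1.add_mem (A.1.zsmul_mem (h1 v hv) m') (A.1.zsmul_mem (h2 v hv) m)

theorem KK_smul {A : Sn 2} {f : V 2 →ₗ[ℚ] V 2} (hf : KK A f) (q : ℚ) : KK A (q • f) := by
  obtain ⟨m, hm, h1⟩ := hf
  refine ⟨m * q.den, mul_ne_zero hm (by exact_mod_cast q.den_nz), fun v hv => ?_⟩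
  have h3 : (m * (q.den : ℤ)) • (q • f) v = q.num • (m • f v) := by
    rw [LinearMap.smul_apply, ← Int.cast_smul_eq_zsmul ℚ, ← Int.cast_smul_eq_zsmul ℚ,
      ← Int.cast_smul_eq_zsmul ℚ, smul_smul, smul_smul]
    congr 1
    push_cast
    have := Rat.mul_den_eq_num q
    linear_combination (m : ℚ) * this
  rw [h3]
  exact A.1.zsmul_mem (h1 v hv) q.num

theorem KK_comp {A : Sn 2} {f g : V 2 →ₗ[ℚ] V 2} (hf : KK A f) (hg : KK A g) :
    KK A (f ∘ₗ g) := by
  obtain ⟨m, hm, h1⟩ := hf
  obtain ⟨m', hm', h2⟩ := hg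
  refine ⟨m * m', mul_ne_zero hm hm', fun v hv => ?_⟩
  have h3 : (m * m') • (f ∘ₗ g) v = m • f (m' • g v) := by
    rw [LinearMap.comp_apply, map_zsmul, smul_smul]
  rw [h3]
  exact h1 _ (h2 v hv)

/-- rank one maps -/
noncomputable def tens (z : V 2) (p q : ℚ) : V 2 →ₗ[ℚ] V 2 :=
  (p • (LinearMap.proj 0 : V 2 →ₗ[ℚ] ℚ) + q • (LinearMap.proj 1 : V 2 →ₗ[ℚ] ℚ)).smulRight z

theorem tens_apply (z : V 2) (p q : ℚ) (x : V 2) : tens z p q x = (p * x 0 + q * x 1) • z := by
  simp [tens]

theorem lin_apply (f : V 2 →ₗ[ℚ] V 2) (x : V 2) (j : Fin 2) :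
    f x j = x 0 * f ![1, 0] j + x 1 * f ![0, 1] j := by
  have h : x = x 0 • ![1, 0] + x 1 • ![0, 1] := by
    ext i
    fin_cases i <;> simp
  conv_lhs => rw [h]
  rw [map_add, map_smul, map_smul]
  simp

theorem exists_cyclic {k : GQ 2} (hk : ¬ IsScal k) : ∃ u : V 2, det2 u (k u) ≠ 0 := by
  by_contra hcon
  push Not at hcon
  apply hk
  have h1 := hcon ![1, 0]
  have h2 := hcon ![0, 1]
  have h3 := hcon ![1, 1]
  have e : ∀ (x : V 2) (j : Fin 2), k x j = x 0 * k ![1, 0] j + x 1 * k ![0, 1] j :=
    lin_apply (k : V 2 →ₗ[ℚ] V 2)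
  unfold det2 at h1 h2 h3
  rw [e ![1, 1] 0, e ![1, 1] 1] at h3
  simp at h1 h2 h3
  refine ⟨k ![1, 0] 0, fun v => ?_⟩
  ext j
  rw [e v j]
  fin_cases j
  · simp
    rw [h2]
    ring
  · simp
    rw [h1]
    have h4 : k ![0, 1] 1 = k ![1, 0] 0 := by
      rw [h1, h2] at h3
      linarith
    rw [h4]
    ring

theorem t : TaskCov := by
  intro A
  by_cases hPS : A ∈ PS 2
  · exact Or.inl hPS
  right
  have hex : ∃ k : GQ 2, k • A = A ∧ ¬ IsScal k := by
    by_contra hcon
    push Not at hcon
    exact hPS fun g hg => hcon g hg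
  obtain ⟨k, hkA, hk⟩ := hex
  obtain ⟨u, hu⟩ := exists_cyclic hk
  by_cases hcomm : ∀ h : GQ 2, h • A = A → h * k = k * h
  · by_cases hsemi : Semi k
    · exact Or.inl ⟨k, hsemi, hcomm, k, hkA, hk⟩
    · right
      left
      unfold Semi at hsemi
      push Not at hsemi
      obtain ⟨c, hc⟩ := hsemi
      set w : V 2 := k u - c • u with hw
      have huw : det2 u w ≠ 0 := by
        have : det2 u w = det2 u (k u) := by
          rw [hw]
          simp [det2]
          ring
        rw [this]
        exact hu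
      have hkw : k w = c • w := by
        have h1 := hc u
        rw [hw, map_sub, map_smul, smul_sub, smul_smul]
        have h2 : k (k u) = (2 * c) • k u - c ^ 2 • u := by
          have : k (k u) - (2 * c) • k u + c ^ 2 • u = 0 := h1
          rw [sub_add_eq_add_sub, sub_eq_zero] at this
          rw [← this]
          abel
        rw [h2, two_mul, add_smul, pow_two]
        abel
      set h : GQ 2 := frm u w huw with hh
      refine ⟨h, ?_, ?_⟩
      · intro g hg
        have hg' : (h⁻¹ * g * h) • A = A := by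
          rw [mul_smul, mul_smul, hg, inv_smul_smul]
        have hcm := hcomm _ hg'
        set g' : GQ 2 := h⁻¹ * g * h with hg'def
        have hgg : g = h * g' * h⁻¹ := by
          rw [hg'def]
          group
        set a : ℚ := det2 (g' u) w / det2 u w with ha
        set b : ℚ := det2 u (g' u) / det2 u w with hb
        have hgu : g' u = a • u + b • w := frm_decomp u w huw (g' u)
        have hcm' : ∀ x, g' (k x) = k (g' x) := fun x => by
          have := congrArg (fun f : GQ 2 => f x) hcm
          exact this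
        have hgw : g' w = a • w := by
          have h1 : g' w = k (g' u) - c • g' u := by
            conv_lhs => rw [hw]
            rw [map_sub, map_smul, hcm']
          rw [h1, hgu, map_add, map_smul, map_smul, hkw]
          have h2 : k u = w + c • u := by rw [hw]; abel
          rw [h2]
          simp only [smul_add, smul_smul]
          rw [mul_comm c a, mul_comm c b]
          abel
        refine ⟨a, b, fun y => ?_⟩
        have h3 : g y = h (g' (h⁻¹ y)) := by
          conv_lhs => rw [hgg]
          rfl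
        have h4 : g' (h⁻¹ y) = h⁻¹ ![a * y 0, b * y 0 + a * y 1] := by
          rw [hh, frm_inv, frm_inv, map_add, map_smul, map_smul, hgu, hgw]
          simp only [Matrix.cons_val_zero, Matrix.cons_val_one, smul_add, smul_smul, add_smul]
          rw [mul_comm (y 0) a, mul_comm (y 0) b, mul_comm (y 1) a]
          abel
        rw [h3, h4]
        exact h.apply_symm_apply _
      · refine ⟨h * k * h⁻¹, ?_, ?_⟩
        · rw [mul_smul, inv_smul_smul, mul_smul, hkA]
        · rintro ⟨d, hd⟩
          apply hk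
          refine ⟨d, fun v => ?_⟩
          have h1 := hd (h v)
          have h2 : (h * k * h⁻¹) (h v) = h (k v) := by
            change h (k (h.symm (h v))) = h (k v)
            rw [h.symm_apply_apply]
          rw [h2, ← map_smul] at h1
          exact h.injective h1
  · right
    right
    push Not at hcomm
    obtain ⟨k', hk'A, hne⟩ := hcomm
    -- the rank one element
    set w : V 2 := k u with hw
    set p : ℚ := det2 (k' u) w / det2 u w with hp
    set q : ℚ := det2 u (k' u) / det2 u w with hq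
    have hku : k' u = p • u + q • w := frm_decomp u w hu (k' u)
    set M : V 2 →ₗ[ℚ] V 2 := (k' : V 2 →ₗ[ℚ] V 2) + ((-p) • LinearMap.id +
      (-q) • (k : V 2 →ₗ[ℚ] V 2)) with hM
    have hMK : KK A M := KK_add (KK_aut hk'A) (KK_add (KK_smul KK_id _) (KK_smul (KK_aut hkA) _))
    have hMa : ∀ x, M x = k' x + ((-p) • x + (-q) • k x) := fun x => rfl
    have hMu : M u = 0 := by
      rw [hMa, hku, ← hw, neg_smul, neg_smul]
      abel
    set z : V 2 := M w with hz
    have hz0 : z ≠ 0 := by
      intro h0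
      apply hne
      have hM0 : ∀ x, M x = 0 := by
        intro x
        rw [frm_decomp u w hu x, map_add, map_smul, map_smul, hMu, ← hz, h0]
        simp
      have h1 : ∀ x, k' x = p • x + q • k x := by
        intro x
        have := hM0 x
        rw [hMa, neg_smul, neg_smul, ← neg_add, ← sub_eq_add_neg, sub_eq_zero] at this
        exact this
      apply LinearEquiv.ext
      intro x
      change k' (k x) = k (k' x)
      rw [h1, h1, map_add, map_smul, map_smul]
    have hM1 : ∀ x, M x = (det2 u x / det2 u w) • z := by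
      intro x
      conv_lhs => rw [frm_decomp u w hu x]
      rw [map_add, map_smul, map_smul, hMu, smul_zero, zero_add]
    have hMt : M = tens z (-(u 1) / det2 u w) (u 0 / det2 u w) := by
      apply LinearMap.ext
      intro x
      rw [hM1, tens_apply]
      congr 1
      unfold det2
      ring
    set p2 : ℚ := det2 u (k ![1, 0]) / det2 u w with hp2
    set q2 : ℚ := det2 u (k ![0, 1]) / det2 u w with hq2
    have hN : M ∘ₗ (k : V 2 →ₗ[ℚ] V 2) = tens z p2 q2 := by
      apply LinearMap.ext
      intro x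
      rw [LinearMap.comp_apply, hM1, tens_apply]
      congr 1
      have e0 := lin_apply (k : V 2 →ₗ[ℚ] V 2) x 0
      have e1 := lin_apply (k : V 2 →ₗ[ℚ] V 2) x 1
      change k x 0 = x 0 * k ![1, 0] 0 + x 1 * k ![0, 1] 0 at e0
      change k x 1 = x 0 * k ![1, 0] 1 + x 1 * k ![0, 1] 1 at e1
      change det2 u (k x) / det2 u w = _
      have e2 : det2 u (k x) = det2 u (k ![1, 0]) * x 0 + det2 u (k ![0, 1]) * x 1 := by
        unfold det2
        rw [e0, e1]
        ring
      rw [e2, hp2, hq2]
      ring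
    have hNu : p2 * u 0 + q2 * u 1 = 1 := by
      have e0 := lin_apply (k : V 2 →ₗ[ℚ] V 2) u 0
      have e1 := lin_apply (k : V 2 →ₗ[ℚ] V 2) u 1
      change k u 0 = u 0 * k ![1, 0] 0 + u 1 * k ![0, 1] 0 at e0
      change k u 1 = u 0 * k ![1, 0] 1 + u 1 * k ![0, 1] 1 at e1
      have e2 : det2 u (k ![1, 0]) * u 0 + det2 u (k ![0, 1]) * u 1 = det2 u w := by
        rw [hw]
        unfold det2
        rw [e0, e1]
        ring
      rw [hp2, hq2, div_mul_eq_mul_div, div_mul_eq_mul_div, ← add_div, e2, div_self hu]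
    have hNK : KK A (tens z p2 q2) := by
      rw [← hN]
      exact KK_comp hMK (KK_aut hkA)
    have hMK' : KK A (tens z (-(u 1) / det2 u w) (u 0 / det2 u w)) := by
      rw [← hMt]
      exact hMK
    have hall : ∀ r s : ℚ, KK A (tens z r s) := by
      intro r s
      have h1 : tens z r s = (r * u 0 + s * u 1) • tens z p2 q2 +
          (det2 u w * (s * p2 - r * q2)) • tens z (-(u 1) / det2 u w) (u 0 / det2 u w) := by
        apply LinearMap.ext
        intro x
        simp only [LinearMap.add_apply, LinearMap.smul_apply, tens_apply, smul_smul, ← add_smul]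
        congr 1
        field_simp
        linear_combination (-(r * x 0 + s * x 1)) * hNu
      rw [h1]
      exact KK_add (KK_smul hNK _) (KK_smul hMK' _)
    have hD : det2 ![z 1, -z 0] z ≠ 0 := by
      unfold det2
      simp only [Matrix.cons_val_zero, Matrix.cons_val_one]
      intro h0
      apply hz0
      have h1 : z 1 = 0 := by nlinarith [sq_nonneg (z 0), sq_nonneg (z 1)]
      have h2 : z 0 = 0 := by nlinarith [sq_nonneg (z 0), sq_nonneg (z 1)]
      ext i
      fin_cases i
      · exact h2
      · exact h1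
    set v : V 2 := ![z 1, -z 0] with hv
    obtain ⟨m1, hm1, hK1⟩ := hall (-(v 1) / det2 v z) (v 0 / det2 v z)
    obtain ⟨m2, hm2, hK2⟩ := hall (z 1 / det2 v z) (-(z 0) / det2 v z)
    refine ⟨frm v z hD, m1 * m2, mul_ne_zero hm1 hm2, ?_⟩
    intro y hy
    rw [mem_smul] at hy
    set x : V 2 := (frm v z hD)⁻¹ y with hx
    have hxy : x = y 0 • v + y 1 • z := frm_inv v z hD y
    have hy0 : z 1 / det2 v z * x 0 + -(z 0) / det2 v z * x 1 = y 0 := by
      rw [hxy]
      have hD' := hD
      unfold det2 at hD' ⊢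
      simp only [Pi.add_apply, Pi.smul_apply, smul_eq_mul]
      rw [div_mul_eq_mul_div, div_mul_eq_mul_div, ← add_div, div_eq_iff hD']
      ring
    have hy1 : -(v 1) / det2 v z * x 0 + v 0 / det2 v z * x 1 = y 1 := by
      rw [hxy]
      have hD' := hD
      unfold det2 at hD' ⊢
      simp only [Pi.add_apply, Pi.smul_apply, smul_eq_mul]
      rw [div_mul_eq_mul_div, div_mul_eq_mul_div, ← add_div, div_eq_iff hD']
      ring
    have g1 := hK1 x hy
    have g2 := hK2 x hy
    rw [tens_apply, hy1] at g1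
    rw [tens_apply, hy0] at g2
    have hcast : ((m1 * m2 : ℤ) : ℚ) = (m1 : ℚ) * m2 := by push_cast; ring
    have r1 : (m1 * m2) • (y 1 • z) ∈ A.1 := by
      have : (m1 * m2) • (y 1 • z) = m2 • (m1 • (y 1 • z)) := by rw [smul_smul, mul_comm]
      rw [this]
      exact A.1.zsmul_mem g1 m2
    have r2 : (m1 * m2) • (y 0 • z) ∈ A.1 := by
      rw [mul_smul]
      exact A.1.zsmul_mem g2 m1
    have r0 : (m1 * m2) • (y 0 • v) ∈ A.1 := by
      have : (m1 * m2) • (y 0 • v) = (m1 * m2) • x - (m1 * m2) • (y 1 • z) := by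
        rw [hxy, smul_add]
        abel
      rw [this]
      exact A.1.sub_mem (A.1.zsmul_mem hy _) r1
    refine ⟨?_, ?_, ?_⟩
    · rw [mem_smul, frm_inv]
      simp only [Matrix.cons_val_zero, Matrix.cons_val_one, zero_smul, add_zero]
      rw [mul_smul, Int.cast_smul_eq_zsmul]
      exact r0
    · rw [mem_smul, frm_inv]
      simp only [Matrix.cons_val_zero, Matrix.cons_val_one, zero_smul, zero_add]
      rw [mul_smul, Int.cast_smul_eq_zsmul]
      exact r1
    · rw [mem_smul, frm_inv]
      simp only [Matrix.cons_val_zero, Matrix.cons_val_one, zero_smul, zero_add]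
      rw [mul_smul, Int.cast_smul_eq_zsmul]
      exact r2

end Pool.Agent.H418R3.EF.Cov504
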