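import Mathlib
import Pool.Agent.H418R3.EF.Stmts

/-! TaskCov of the project H418-EF. -/

set_option autoImplicit false

namespace Pool.Agent.H781R3.EFCov

open Pool.Agent.H418R3.EF
open scoped Pointwise

abbrev EE : Type := Module.End ℚ (V 2)

/-- the algebra of quasi-endomorphisms -/
def K (A : Sn 2) : Subalgebra ℚ EE where
  carrier := {φ | ∃ m : ℤ, m ≠ 0 ∧ ∀ v ∈ A.1, (m : ℚ) • φ v ∈ A.1}
  mul_mem' := by
    rintro φ ψ ⟨m, hm, h1⟩ ⟨l, hl, h2⟩
    refine ⟨m * l, mul_ne_zero hm hl, fun v hv => ?_⟩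
    have h3 := h1 _ (h2 v hv)
    rw [map_smul, smul_smul] at h3
    rw [Module.End.mul_apply]
    push_cast
    exact h3
  add_mem' := by
    rintro φ ψ ⟨m, hm, h1⟩ ⟨l, hl, h2⟩
    refine ⟨m * l, mul_ne_zero hm hl, fun v hv => ?_⟩
    have h3 := A.1.zsmul_mem (h1 v hv) l
    have h4 := A.1.zsmul_mem (h2 v hv) m
    have h5 := A.1.add_mem h3 h4
    rw [← Int.cast_smul_eq_zsmul ℚ, ← Int.cast_smul_eq_zsmul ℚ, smul_smul, smul_smul,
      mul_comm (l : ℚ), ← smul_add] at h5
    rw [LinearMap.add_apply]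
    push_cast
    exact h5
  algebraMap_mem' := by
    intro r
    refine ⟨r.den, by exact_mod_cast r.den_ne_zero, fun v hv => ?_⟩
    rw [Module.algebraMap_end_apply, smul_smul]
    have : ((r.den : ℤ) : ℚ) * r = (r.num : ℚ) := by
      push_cast
      rw [mul_comm]
      exact Rat.mul_den_eq_num r
    rw [this, Int.cast_smul_eq_zsmul]
    exact A.1.zsmul_mem hv _

theorem aut_mem {A : Sn 2} {g : GQ 2} (hg : g • A = A) : (g : V 2 →ₗ[ℚ] V 2) ∈ K A := by
  refine ⟨1, one_ne_zero, fun v hv => ?_⟩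
  have h1 : g v ∈ (g • A).1 := by
    rw [mem_smul]
    have : g⁻¹ (g v) = v := LinearEquiv.symm_apply_apply g v
    rw [this]
    exact hv
  rw [hg] at h1
  simpa using h1

/-- conjugation -/
def cj (h : GQ 2) (φ : EE) : EE :=
  (h : V 2 →ₗ[ℚ] V 2) ∘ₗ φ ∘ₗ ((h⁻¹ : GQ 2) : V 2 →ₗ[ℚ] V 2)

theorem cj_apply (h : GQ 2) (φ : EE) (v : V 2) : cj h φ v = h (φ (h⁻¹ v)) := rfl

theorem inv_app (h : GQ 2) (v : V 2) : h⁻¹ (h v) = v := LinearEquiv.symm_apply_apply h v

theorem app_inv (h : GQ 2) (v : V 2) : h (h⁻¹ v) = v := LinearEquiv.apply_symm_apply h v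

theorem cj_mem {A : Sn 2} (h : GQ 2) {φ : EE} (hφ : φ ∈ K A) : cj h φ ∈ K (h • A) := by
  obtain ⟨m, hm, h1⟩ := hφ
  refine ⟨m, hm, fun v hv => ?_⟩
  rw [mem_smul] at hv ⊢
  have h2 := h1 _ hv
  rw [cj_apply, map_smul, inv_app]
  exact h2

def E21 : EE where
  toFun v := ![0, v 0]
  map_add' v w := by ext i; fin_cases i <;> simp
  map_smul' c v := by ext i; fin_cases i <;> simp

def E11 : EE where
  toFun v := ![v 0, 0]
  map_add' v w := by ext i; fin_cases i <;> simp
  map_smul' c v := by ext i; fin_cases i <;> simp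

theorem E21_apply (v : V 2) : E21 v = ![0, v 0] := rfl
theorem E11_apply (v : V 2) : E11 v = ![v 0, 0] := rfl

theorem pt_of {A : Sn 2} (h1 : E11 ∈ K A) (h2 : E21 ∈ K A) : A ∈ PT := by
  obtain ⟨m, hm, h1⟩ := h1
  obtain ⟨l, hl, h2⟩ := h2
  refine ⟨m * l, mul_ne_zero hm hl, fun v hv => ?_⟩
  have a1 : ![((m * l : ℤ) : ℚ) * v 0, 0] ∈ A.1 := by
    have h3 := A.1.zsmul_mem (h1 v hv) l
    rw [← Int.cast_smul_eq_zsmul ℚ, smul_smul, E11_apply] at h3
    convert h3 using 1
    ext i
    fin_cases i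
    · simp [mul_comm]
    · simp
  have a2 : ![0, ((m * l : ℤ) : ℚ) * v 0] ∈ A.1 := by
    have h3 := A.1.zsmul_mem (h2 v hv) m
    rw [← Int.cast_smul_eq_zsmul ℚ, smul_smul, E21_apply] at h3
    convert h3 using 1
    ext i
    fin_cases i
    · simp
    · simp
  refine ⟨a1, ?_, a2⟩
  have h3 := A.1.sub_mem (A.1.zsmul_mem hv (m * l)) a1
  rw [← Int.cast_smul_eq_zsmul ℚ] at h3
  convert h3 using 1
  ext i
  fin_cases i
  · simp
  · simp

theorem coords (z : EE) : ∃ a b c d : ℚ, ∀ v : V 2, z v = ![a * v 0 + b * v 1, c * v 0 + d * v 1] := by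
  refine ⟨z ![1, 0] 0, z ![0, 1] 0, z ![1, 0] 1, z ![0, 1] 1, fun v => ?_⟩
  have h1 : v = v 0 • ![1, 0] + v 1 • ![0, 1] := by
    ext i; fin_cases i <;> simp
  conv_lhs => rw [h1]
  rw [map_add, map_smul, map_smul]
  ext i
  fin_cases i <;> simp [mul_comm]

/-- normal form of a nilpotent -/
theorem nf (N : EE) (h0 : N ≠ 0) (h2 : ∀ v, N (N v) = 0) :
    ∃ h : GQ 2, ∀ v, h (N v) = ![0, (h v) 0] := by
  obtain ⟨e, he⟩ : ∃ e, N e ≠ 0 := by
    by_contra hcon
    push Not at hcon
    exact h0 (LinearMap.ext hcon)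
  have hli : LinearIndependent ℚ ![e, N e] := by
    rw [LinearIndependent.pair_iff]
    intro s t hst
    have h3 : s • N e = 0 := by
      have := congrArg N hst
      rw [map_add, map_smul, map_smul, h2, smul_zero, add_zero, map_zero] at this
      exact this
    have hs : s = 0 := (smul_eq_zero.mp h3).resolve_right he
    rw [hs, zero_smul, zero_add] at hst
    exact ⟨hs, (smul_eq_zero.mp hst).resolve_right he⟩
  let b := basisOfLinearIndependentOfCardEqFinrank hli (by simp)
  have hb : ∀ i, b i = ![e, N e] i := fun i => by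
    simp [b]
  have hv : ∀ v : V 2, v = (b.equivFun v 0) • e + (b.equivFun v 1) • N e := by
    intro v
    have := b.sum_equivFun v
    rw [Fin.sum_univ_two, hb, hb] at this
    exact this.symm
  refine ⟨b.equivFun, fun v => ?_⟩
  have h4 : N v = (b.equivFun v 0) • N e := by
    conv_lhs => rw [hv v]
    rw [map_add, map_smul, map_smul, h2, smul_zero, add_zero]
  rw [h4, map_smul]
  have h5 : b.equivFun (N e) = ![0, 1] := by
    have h6 : N e = b 1 := by rw [hb]; rfl
    rw [h6]
    ext i
    rw [Module.Basis.equivFun_self]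
    fin_cases i <;> simp
  rw [h5]
  ext i
  fin_cases i <;> simp

theorem case_D {A : Sn 2} {k : GQ 2} (hk : k • A = A) (hns : ¬ IsScal k)
    (hcomm : ∀ g : GQ 2, g • A = A → g * k = k * g) (hsemi : ¬ Semi k) :
    ∃ h : GQ 2, h • A ∈ PD := by
  unfold Semi at hsemi
  rw [not_not] at hsemi
  obtain ⟨c, hc⟩ := hsemi
  let N : EE := (k : V 2 →ₗ[ℚ] V 2) - c • LinearMap.id
  have hN : ∀ v, N v = k v - c • v := fun v => rfl
  have hN0 : N ≠ 0 := by
    intro h0
    apply hns
    refine ⟨c, fun v => ?_⟩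
    have := LinearMap.congr_fun h0 v
    rw [hN, LinearMap.zero_apply] at this
    exact sub_eq_zero.mp this
  have hN2 : ∀ v, N (N v) = 0 := by
    intro v
    rw [hN, hN, map_sub, map_smul, ← hc v]
    module
  obtain ⟨h, hh⟩ := nf N hN0 hN2
  have hh' : ∀ v, h (N (h⁻¹ v)) = ![0, v 0] := by
    intro v
    rw [hh, app_inv]
  refine ⟨h, ?_, ?_⟩
  · intro g' hg'
    have hg : (h⁻¹ * g' * h) • A = A := by
      rw [mul_smul, mul_smul, hg', ← mul_smul, inv_mul_cancel, one_smul]
    have h1 := hcomm _ hg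
    have h2 : ∀ v, g' (![0, v 0]) = ![0, (g' v) 0] := by
      intro v
      rw [← hh', ← hh' (g' v)]
      have h3 : ∀ w, h⁻¹ (g' (h (k w))) = k (h⁻¹ (g' (h w))) := fun w =>
        LinearEquiv.congr_fun h1 w
      have h4 : ∀ w, h⁻¹ (g' (h (N w))) = N (h⁻¹ (g' (h w))) := by
        intro w
        rw [hN, hN, map_sub, map_sub, map_sub, h3, map_smul, map_smul, map_smul]
      have h5 := h4 (h⁻¹ v)
      rw [app_inv] at h5
      rw [← h5, app_inv]
    refine ⟨(g' ![1, 0]) 0, (g' ![1, 0]) 1, fun v => ?_⟩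
    have h1 : v = v 0 • ![1, 0] + v 1 • ![0, 1] := by
      ext i; fin_cases i <;> simp
    have h3 := h2 ![1, 0]
    simp only [Matrix.cons_val_zero] at h3
    conv_lhs => rw [h1]
    rw [map_add, map_smul, map_smul, h3]
    ext i
    fin_cases i <;> simp [mul_comm]
  · refine ⟨h * k * h⁻¹, ?_, ?_⟩
    · rw [mul_smul, mul_smul, ← mul_smul h⁻¹, inv_mul_cancel, one_smul, hk]
    · rintro ⟨d, hd⟩
      apply hns
      refine ⟨d, fun v => ?_⟩
      have h1 := hd (h v)
      have h2 : h (k (h⁻¹ (h v))) = d • h v := h1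
      rw [inv_app, ← map_smul] at h2
      exact h.injective h2

theorem E11_of {A : Sn 2} (z : EE) (hz : z ∈ K A) (hN : E21 ∈ K A) (hc : z * E21 ≠ E21 * z) :
    E11 ∈ K A := by
  obtain ⟨p, q, r, s, hzc⟩ := coords z
  by_cases hq : q = 0
  · have hps : p ≠ s := by
      intro h
      apply hc
      apply LinearMap.ext
      intro v
      rw [Module.End.mul_apply, Module.End.mul_apply, hzc, hzc, E21_apply, E21_apply]
      ext i
      fin_cases i
      · simp [hq]
      · simp [hq, h]
    have h1 : E11 = (p - s)⁻¹ • (z - r • E21 - s • (1 : EE)) := by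
      apply LinearMap.ext
      intro v
      have : p - s ≠ 0 := sub_ne_zero.mpr hps
      rw [LinearMap.smul_apply, LinearMap.sub_apply, LinearMap.sub_apply, LinearMap.smul_apply,
        LinearMap.smul_apply, hzc, E21_apply, E11_apply, Module.End.one_apply]
      ext i
      fin_cases i
      · simp [hq, Matrix.vecHead, Matrix.vecTail]
        field_simp
      · simp [Matrix.vecHead, Matrix.vecTail]
    rw [h1]
    exact (K A).smul_mem ((K A).sub_mem ((K A).sub_mem hz ((K A).smul_mem hN _))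
      ((K A).smul_mem (K A).one_mem _)) _
  · have h1 : E11 = q⁻¹ • (z * E21 - s • E21) := by
      apply LinearMap.ext
      intro v
      rw [LinearMap.smul_apply, LinearMap.sub_apply, Module.End.mul_apply,
        LinearMap.smul_apply, hzc, E21_apply, E11_apply]
      ext i
      fin_cases i
      · simp
        field_simp
      · simp
    rw [h1]
    exact (K A).smul_mem ((K A).sub_mem ((K A).mul_mem hz hN) ((K A).smul_mem hN _)) _

theorem comm_of {z z' : EE} (h : z * E21 = E21 * z) (h' : z' * E21 = E21 * z') :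
    z * z' = z' * z := by
  obtain ⟨p, q, r, s, hzc⟩ := coords z
  obtain ⟨p', q', r', s', hzc'⟩ := coords z'
  have h1 := LinearMap.congr_fun h ![1, 0]
  have h1' := LinearMap.congr_fun h' ![1, 0]
  rw [Module.End.mul_apply, Module.End.mul_apply, hzc, hzc, E21_apply, E21_apply] at h1
  rw [Module.End.mul_apply, Module.End.mul_apply, hzc', hzc', E21_apply, E21_apply] at h1'
  have a0 := congrFun h1 0
  have a1 := congrFun h1 1
  have b0 := congrFun h1' 0
  have b1 := congrFun h1' 1
  simp at a0 a1 b0 b1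
  apply LinearMap.ext
  intro v
  rw [Module.End.mul_apply, Module.End.mul_apply, hzc, hzc, hzc', hzc']
  ext i
  fin_cases i
  · simp [a0, b0]
    ring
  · simp [a0, b0, a1, b1]
    ring

theorem case_T {A : Sn 2} {k k' : GQ 2} (hk : k • A = A) (hk' : k' • A = A)
    (hne : k * k' ≠ k' * k) : ∃ h : GQ 2, h • A ∈ PT := by
  set κ : EE := (k : V 2 →ₗ[ℚ] V 2) with hκ
  set κ' : EE := (k' : V 2 →ₗ[ℚ] V 2) with hκ'
  have hκm : κ ∈ K A := aut_mem hk
  have hκm' : κ' ∈ K A := aut_mem hk'
  have hne' : κ * κ' ≠ κ' * κ := by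
    intro h
    apply hne
    apply LinearEquiv.ext
    intro v
    exact LinearMap.congr_fun h v
  obtain ⟨a, b, c, d, h1⟩ := coords κ
  obtain ⟨e, f, g, j, h2⟩ := coords κ'
  set C : EE := κ * κ' - κ' * κ with hC
  have hCm : C ∈ K A := (K A).sub_mem ((K A).mul_mem hκm hκm') ((K A).mul_mem hκm' hκm)
  have hCv : ∀ v, C v = ![(b * g - c * f) * v 0 + ((a - d) * f - (e - j) * b) * v 1,
      (c * (e - j) - g * (a - d)) * v 0 - (b * g - c * f) * v 1] := by
    intro v
    rw [hC, LinearMap.sub_apply, Module.End.mul_apply, Module.End.mul_apply, h1, h1, h2, h2]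
    ext i
    fin_cases i
    · simp
      ring
    · simp
      ring
  set Δ : ℚ := (b * g - c * f) ^ 2 + ((a - d) * f - (e - j) * b) * (c * (e - j) - g * (a - d)) with hΔ
  by_cases hD : Δ = 0
  · have hC0 : C ≠ 0 := sub_ne_zero.mpr hne'
    have hC2 : ∀ v, C (C v) = 0 := by
      intro v
      rw [hCv, hCv]
      ext i
      fin_cases i
      · simp
        linear_combination (v 0) * hD
      · simp
        linear_combination (v 1) * hD
    obtain ⟨h, hh⟩ := nf C hC0 hC2
    have hcj : cj h C = E21 := by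
      apply LinearMap.ext
      intro v
      rw [cj_apply, hh, app_inv, E21_apply]
    have hEm : E21 ∈ K (h • A) := by
      rw [← hcj]
      exact cj_mem h hCm
    refine ⟨h, ?_⟩
    by_cases hz : cj h κ * E21 = E21 * cj h κ
    · by_cases hz' : cj h κ' * E21 = E21 * cj h κ'
      · exfalso
        have h3 := comm_of hz hz'
        apply hne'
        apply LinearMap.ext
        intro v
        have h4 := LinearMap.congr_fun h3 (h v)
        rw [Module.End.mul_apply, Module.End.mul_apply, cj_apply, cj_apply, cj_apply, cj_apply,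
          inv_app, inv_app, inv_app] at h4
        exact h.injective h4
      · exact pt_of (E11_of _ (cj_mem h hκm') hEm hz') hEm
    · exact pt_of (E11_of _ (cj_mem h hκm) hEm hz) hEm
  · refine ⟨1, ?_⟩
    rw [one_smul]
    set E22 : EE := 1 - E11 with hE22
    have hE22v : ∀ v, E22 v = ![0, v 1] := by
      intro v
      rw [hE22, LinearMap.sub_apply, Module.End.one_apply, E11_apply]
      ext i
      fin_cases i <;> simp
    have hEm : E22 ∈ K A := by
      have h3 : E22 = Δ⁻¹ • ((Δ + (b * g - c * f) * c * f) • (1 : EE)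
          - (f * (c * (e - j) - (a - d) * g)) • (κ - d • (1 : EE))
          - (c * ((a - d) * f - b * (e - j))) • (κ' - j • (1 : EE))
          - (b * g - c * f) • ((κ - d • (1 : EE)) * (κ' - j • (1 : EE)))) := by
        apply LinearMap.ext
        intro v
        rw [LinearMap.smul_apply, hE22v, eq_inv_smul_iff₀ hD]
        simp only [LinearMap.sub_apply, LinearMap.smul_apply, Module.End.mul_apply,
          Module.End.one_apply, h1, h2]
        ext i
        fin_cases i
        · simp [Matrix.vecHead, Matrix.vecTail, hΔ]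
          ring
        · simp [Matrix.vecHead, Matrix.vecTail, hΔ]
          ring
      rw [h3]
      have m1 := (K A).one_mem
      have m2 := (K A).sub_mem hκm ((K A).smul_mem m1 d)
      have m3 := (K A).sub_mem hκm' ((K A).smul_mem m1 j)
      exact (K A).smul_mem ((K A).sub_mem ((K A).sub_mem ((K A).sub_mem ((K A).smul_mem m1 _)
        ((K A).smul_mem m2 _)) ((K A).smul_mem m3 _)) ((K A).smul_mem ((K A).mul_mem m2 m3) _)) _
    have hE11m : E11 ∈ K A := by
      have h3 : E11 = 1 - E22 := by rw [hE22]; abel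
      rw [h3]
      exact (K A).sub_mem (K A).one_mem hEm
    refine pt_of hE11m ?_
    by_cases hc0 : c = 0
    · have hg0 : g ≠ 0 := by
        intro hg0
        apply hD
        rw [hΔ, hc0, hg0]
        ring
      have h3 : E21 = g⁻¹ • (E22 * κ' * E11) := by
        apply LinearMap.ext
        intro v
        rw [LinearMap.smul_apply, eq_inv_smul_iff₀ hg0, Module.End.mul_apply,
          Module.End.mul_apply, hE22v, h2, E11_apply, E21_apply]
        ext i
        fin_cases i <;> simp
      rw [h3]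
      exact (K A).smul_mem ((K A).mul_mem ((K A).mul_mem hEm hκm') hE11m) _
    · have h3 : E21 = c⁻¹ • (E22 * κ * E11) := by
        apply LinearMap.ext
        intro v
        rw [LinearMap.smul_apply, eq_inv_smul_iff₀ hc0, Module.End.mul_apply,
          Module.End.mul_apply, hE22v, h1, E11_apply, E21_apply]
        ext i
        fin_cases i <;> simp
      rw [h3]
      exact (K A).smul_mem ((K A).mul_mem ((K A).mul_mem hEm hκm) hE11m) _

theorem t : TaskCov := by
  intro A
  by_cases h1 : A ∈ PS 2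
  · exact Or.inl h1
  · right
    have h2 : ∃ k : GQ 2, k • A = A ∧ ¬ IsScal k := by
      by_contra hcon
      push Not at hcon
      exact h1 hcon
    obtain ⟨k, hk, hns⟩ := h2
    by_cases h3 : ∀ g : GQ 2, g • A = A → g * k = k * g
    · by_cases h4 : Semi k
      · exact Or.inl ⟨k, h4, h3, k, hk, hns⟩
      · exact Or.inr (Or.inl (case_D hk hns h3 h4))
    · push Not at h3
      obtain ⟨g, hg, hgk⟩ := h3
      exact Or.inr (Or.inr (case_T hg hk hgk))

end Pool.Agent.H781R3.EFCov
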