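import Pool.Agent.H418R3.EF.Stmts

/-! Proof of TaskD1 of project H418-EF (helper318). -/

namespace Pool.Agent.H418R3.EF.D1H318

open scoped Pointwise
open Pool.Agent.H418R3.EF

/-- `x` lies in the localisation of `T` at `p`. -/
def InL (p : ℕ) (T : AddSubgroup ℚ) (x : ℚ) : Prop :=
  ∃ m : ℤ, ¬ (p : ℤ) ∣ m ∧ (m : ℚ) * x ∈ T

def IZ : AddSubgroup ℚ := (Int.castAddHom ℚ).range

theorem mem_IZ (x : ℚ) : x ∈ IZ ↔ ∃ k : ℤ, (k : ℚ) = x := by
  unfold IZ
  rw [AddMonoidHom.mem_range]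
  rfl

theorem int_mul_mem (T : AddSubgroup ℚ) {x : ℚ} (hx : x ∈ T) (m : ℤ) : (m : ℚ) * x ∈ T := by
  have := T.zsmul_mem hx m
  rwa [zsmul_eq_mul] at this

theorem not_dvd_mul {p : ℕ} (hp : p.Prime) {a b : ℤ} (ha : ¬ (p : ℤ) ∣ a) (hb : ¬ (p : ℤ) ∣ b) :
    ¬ (p : ℤ) ∣ a * b := by
  intro h
  rcases (Nat.prime_iff_prime_int.1 hp).dvd_or_dvd h with h | h
  · exact ha h
  · exact hb h

theorem not_dvd_one {p : ℕ} (hp : p.Prime) : ¬ (p : ℤ) ∣ 1 := by
  intro h
  exact (Nat.prime_iff_prime_int.1 hp).not_isUnit (isUnit_of_dvd_one h)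

theorem inL_of_mem {p : ℕ} (hp : p.Prime) {T : AddSubgroup ℚ} {x : ℚ} (h : x ∈ T) : InL p T x :=
  ⟨1, not_dvd_one hp, by simpa using h⟩

theorem inL_zero {p : ℕ} (hp : p.Prime) (T : AddSubgroup ℚ) : InL p T 0 :=
  inL_of_mem hp T.zero_mem

theorem inL_add {p : ℕ} (hp : p.Prime) {T : AddSubgroup ℚ} {x y : ℚ} (hx : InL p T x)
    (hy : InL p T y) : InL p T (x + y) := by
  obtain ⟨m, hm, hmx⟩ := hx
  obtain ⟨n, hn, hny⟩ := hy
  refine ⟨m * n, not_dvd_mul hp hm hn, ?_⟩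
  have : ((m * n : ℤ) : ℚ) * (x + y) = (n : ℚ) * ((m : ℚ) * x) + (m : ℚ) * ((n : ℚ) * y) := by
    push_cast; ring
  rw [this]
  exact T.add_mem (int_mul_mem T hmx n) (int_mul_mem T hny m)

theorem inL_neg {p : ℕ} {T : AddSubgroup ℚ} {x : ℚ} (hx : InL p T x) : InL p T (-x) := by
  obtain ⟨m, hm, hmx⟩ := hx
  refine ⟨m, hm, ?_⟩
  rw [mul_neg]
  exact T.neg_mem hmx

theorem inL_unit {p : ℕ} (hp : p.Prime) {T : AddSubgroup ℚ} {x y : ℚ} {a b : ℤ}
    (ha : ¬ (p : ℤ) ∣ a) (h : (b : ℚ) * x = a * y) (hx : InL p T x) :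
    InL p T y := by
  obtain ⟨m, hm, hmx⟩ := hx
  refine ⟨m * a, not_dvd_mul hp hm ha, ?_⟩
  have : ((m * a : ℤ) : ℚ) * y = (b : ℚ) * ((m : ℚ) * x) := by
    push_cast
    calc (m : ℚ) * a * y = m * (a * y) := by ring
      _ = m * (b * x) := by rw [h]
      _ = b * (m * x) := by ring
  rw [this]
  exact int_mul_mem T hmx b

/-- The unit part. -/
theorem unit_frac {p : ℕ} (hp : p.Prime) {x : ℚ} (hx : x ≠ 0) :
    ∃ a b : ℤ, ¬ (p : ℤ) ∣ a ∧ ¬ (p : ℤ) ∣ b ∧
      (b : ℚ) * (x * (p : ℚ) ^ (-padicValRat p x)) = a := by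
  have := Fact.mk hp
  have hp0 : (p : ℚ) ≠ 0 := by exact_mod_cast hp.ne_zero
  set y : ℚ := x * (p : ℚ) ^ (-padicValRat p x) with hy
  have hy0 : y ≠ 0 := mul_ne_zero hx (zpow_ne_zero _ hp0)
  have hv : padicValRat p y = 0 := by
    rw [hy, padicValRat.mul hx (zpow_ne_zero _ hp0), padicValRat.zpow,
      padicValRat.self hp.one_lt]
    ring
  have hv' : (padicValInt p y.num : ℤ) = padicValNat p y.den := by
    have : padicValRat p y = (padicValInt p y.num : ℤ) - padicValNat p y.den := rfl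
    rw [hv] at this
    linarith
  have hnum0 : y.num ≠ 0 := Rat.num_ne_zero.2 hy0
  have hcop : Nat.Coprime y.num.natAbs y.den := y.reduced
  have key : ¬ p ∣ y.num.natAbs ∧ ¬ p ∣ y.den := by
    constructor
    · intro h
      have h1 : 1 ≤ padicValNat p y.num.natAbs :=
        one_le_padicValNat_of_dvd (Int.natAbs_ne_zero.2 hnum0) h
      have h2 : padicValInt p y.num = padicValNat p y.num.natAbs := rfl
      have h3 : 1 ≤ padicValNat p y.den := by
        have : (padicValNat p y.num.natAbs : ℤ) = padicValNat p y.den := by rw [← h2]; exact hv'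
        omega
      have h4 : p ∣ y.den := dvd_of_one_le_padicValNat h3
      exact hp.one_lt.ne' (Nat.dvd_one.1 (hcop ▸ Nat.dvd_gcd h h4))
    · intro h
      have h1 : 1 ≤ padicValNat p y.den := one_le_padicValNat_of_dvd y.den_nz h
      have h2 : padicValInt p y.num = padicValNat p y.num.natAbs := rfl
      have h3 : 1 ≤ padicValNat p y.num.natAbs := by
        have : (padicValNat p y.num.natAbs : ℤ) = padicValNat p y.den := by rw [← h2]; exact hv'
        omega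
      have h4 : p ∣ y.num.natAbs := dvd_of_one_le_padicValNat h3
      exact hp.one_lt.ne' (Nat.dvd_one.1 (hcop ▸ Nat.dvd_gcd h4 h))
  refine ⟨y.num, y.den, ?_, ?_, ?_⟩
  · rw [Int.natCast_dvd]; exact key.1
  · intro h
    exact key.2 (by exact_mod_cast h)
  · have := Rat.mul_den_eq_num y
    rw [mul_comm]
    exact_mod_cast this

theorem inL_iff_pow {p : ℕ} (hp : p.Prime) (T : AddSubgroup ℚ) {x : ℚ} (hx : x ≠ 0) (k : ℤ) :
    InL p T (x * (p : ℚ) ^ k) ↔ InL p T ((p : ℚ) ^ (padicValRat p x + k)) := by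
  have hp0 : (p : ℚ) ≠ 0 := by exact_mod_cast hp.ne_zero
  obtain ⟨a, b, ha, hb, hab⟩ := unit_frac hp hx
  have e : (b : ℚ) * (x * (p : ℚ) ^ k) = a * (p : ℚ) ^ (padicValRat p x + k) := by
    rw [← hab, zpow_add₀ hp0, zpow_neg]
    have := zpow_ne_zero (padicValRat p x) hp0
    field_simp
  exact ⟨inL_unit hp ha e, inL_unit hp hb e.symm⟩

/-- The type of `T` at `p` is `t`. -/
def IsT (p : ℕ) (T : AddSubgroup ℚ) (t : ℤ) : Prop :=
  ∀ v : ℤ, InL p T ((p : ℚ) ^ v) ↔ t ≤ v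

theorem IsT_unique {p : ℕ} {T : AddSubgroup ℚ} {t s : ℤ} (h : IsT p T t) (h' : IsT p T s) :
    t = s := by
  apply le_antisymm
  · exact (h s).1 ((h' s).2 le_rfl)
  · exact (h' t).1 ((h t).2 le_rfl)

theorem mem_smul_T (T : AddSubgroup ℚ) (r : ℚˣ) (x : ℚ) :
    x ∈ r • T ↔ ((r⁻¹ : ℚˣ) : ℚ) * x ∈ T := by
  have e : x ∈ r • T ↔ ∃ s : ℚ, s ∈ T ∧ (r : ℚ) • s = x :=
    AddSubgroup.mem_smul_pointwise_iff_exists _ _ _
  rw [e]
  have hr : (r : ℚ) ≠ 0 := Units.ne_zero r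
  rw [Units.val_inv_eq_inv_val]
  constructor
  · rintro ⟨s, hs, rfl⟩
    rw [smul_eq_mul, inv_mul_cancel_left₀ hr]
    exact hs
  · intro h
    exact ⟨_, h, by rw [smul_eq_mul, mul_inv_cancel_left₀ hr]⟩

theorem inL_smul (p : ℕ) (T : AddSubgroup ℚ) (r : ℚˣ) (x : ℚ) :
    InL p (r • T) x ↔ InL p T ((r⁻¹ : ℚˣ) * x) := by
  unfold InL
  refine exists_congr fun m => and_congr Iff.rfl ?_
  rw [mem_smul_T]
  have : ((r⁻¹ : ℚˣ) : ℚ) * ((m : ℚ) * x) = m * (((r⁻¹ : ℚˣ) : ℚ) * x) := by ring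
  rw [this]

theorem IsT_smul {p : ℕ} (hp : p.Prime) (T : AddSubgroup ℚ) (r : ℚˣ) (t : ℤ) :
    IsT p (r • T) t ↔ IsT p T (t - padicValRat p (r : ℚ)) := by
  have := Fact.mk hp
  have h1 : ∀ v : ℤ, InL p (r • T) ((p : ℚ) ^ v) ↔
      InL p T ((p : ℚ) ^ (v - padicValRat p (r : ℚ))) := by
    intro v
    rw [inL_smul, inL_iff_pow hp T (Units.ne_zero _), Units.val_inv_eq_inv_val,
      padicValRat.inv]
    have : -padicValRat p (r : ℚ) + v = v - padicValRat p (r : ℚ) := by ring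
    rw [this]
  constructor
  · intro h v
    have := h (v + padicValRat p (r : ℚ))
    rw [h1] at this
    rw [add_sub_cancel_right] at this
    rw [this]
    constructor <;> intro h <;> linarith
  · intro h v
    rw [h1, h]
    constructor <;> intro h <;> linarith

theorem inL_pow_mono {p : ℕ} {T : AddSubgroup ℚ} {v w : ℤ} (hp : p.Prime) (hvw : v ≤ w)
    (h : InL p T ((p : ℚ) ^ v)) : InL p T ((p : ℚ) ^ w) := by
  have hp0 : (p : ℚ) ≠ 0 := by exact_mod_cast hp.ne_zero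
  obtain ⟨m, hm, hx⟩ := h
  refine ⟨m, hm, ?_⟩
  obtain ⟨k, hk⟩ := Int.eq_ofNat_of_zero_le (sub_nonneg.2 hvw)
  have : (m : ℚ) * (p : ℚ) ^ w = (((p : ℤ) ^ k : ℤ) : ℚ) * ((m : ℚ) * (p : ℚ) ^ v) := by
    have hw : w = k + v := by omega
    rw [hw, zpow_add₀ hp0]
    push_cast
    rw [zpow_natCast]
    ring
  rw [this]
  exact int_mul_mem T hx _

theorem exists_pow_mem {p : ℕ} (hp : p.Prime) {T : AddSubgroup ℚ} (hT : T ≠ ⊥) :
    ∃ v : ℤ, InL p T ((p : ℚ) ^ v) := by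
  obtain ⟨x, hx, hx0⟩ := (AddSubgroup.ne_bot_iff_exists_ne_zero.1 hT : ∃ a : T, a ≠ 0) |>.elim
    (fun a ha => (⟨(a : ℚ), a.2, fun h => ha (Subtype.ext h)⟩ : ∃ x : ℚ, x ∈ T ∧ x ≠ 0))
  have := (inL_iff_pow hp T hx0 0).1 (by simpa using inL_of_mem hp hx)
  exact ⟨_, this⟩

theorem all_of_not_IsT {p : ℕ} (hp : p.Prime) {T : AddSubgroup ℚ} (hT : T ≠ ⊥)
    (h : ¬ ∃ t, IsT p T t) (v : ℤ) : InL p T ((p : ℚ) ^ v) := by
  by_contra hv
  apply h
  obtain ⟨w, hw⟩ := exists_pow_mem hp hT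
  have hb : ∀ z : ℤ, InL p T ((p : ℚ) ^ z) → v ≤ z := by
    intro z hz
    by_contra hlt
    exact hv (inL_pow_mono hp (by omega) hz)
  obtain ⟨t, ht, ht'⟩ := Int.exists_least_of_bdd (P := fun z => InL p T ((p : ℚ) ^ z))
    ⟨v, hb⟩ ⟨w, hw⟩
  exact ⟨t, fun z => ⟨fun hz => ht' z hz, fun hz => inL_pow_mono hp hz ht⟩⟩

theorem IsT_IZ {p : ℕ} (hp : p.Prime) : IsT p IZ 0 := by
  intro v
  have hp0 : (p : ℚ) ≠ 0 := by exact_mod_cast hp.ne_zero
  constructor
  · rintro ⟨m, hm, hx⟩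
    by_contra hv
    obtain ⟨k, hk⟩ := (mem_IZ _).1 hx
    obtain ⟨j, hj⟩ := Int.eq_ofNat_of_zero_le (a := -v) (by omega)
    have hj1 : j ≠ 0 := by omega
    have : v = -(j : ℤ) := by omega
    rw [this, zpow_neg, zpow_natCast] at hk
    have h2 : (m : ℚ) = (k : ℚ) * (p : ℚ) ^ j := by
      rw [hk]; field_simp
    have h3 : m = k * (p : ℤ) ^ j := by exact_mod_cast h2
    apply hm
    rw [h3]
    exact Dvd.dvd.mul_left (dvd_pow_self _ hj1) _
  · intro hv
    apply inL_pow_mono hp hv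
    apply inL_of_mem hp
    rw [mem_IZ]
    exact ⟨1, by simp⟩

open Classical in
/-- The normalised local value. -/
noncomputable def h (p : ℕ) (T : AddSubgroup ℚ) (q : ℚ) : ℚ :=
  if H : ∃ t, IsT p T t then (p : ℚ) ^ (-H.choose) * q else 0

theorem h_of_IsT {p : ℕ} {T : AddSubgroup ℚ} {t : ℤ} (ht : IsT p T t) (q : ℚ) :
    h p T q = (p : ℚ) ^ (-t) * q := by
  have H : ∃ t, IsT p T t := ⟨t, ht⟩
  unfold h
  rw [dif_pos H, IsT_unique H.choose_spec ht]

theorem h_of_not {p : ℕ} {T : AddSubgroup ℚ} (ht : ¬ ∃ t, IsT p T t) (q : ℚ) :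
    h p T q = 0 := by
  unfold h
  rw [dif_neg ht]

theorem h_add (p : ℕ) (T : AddSubgroup ℚ) (q q' : ℚ) : h p T (q + q') = h p T q + h p T q' := by
  unfold h
  split_ifs
  · ring
  · ring

theorem h_mem_iff {p : ℕ} (hp : p.Prime) {T : AddSubgroup ℚ} (hT : T ≠ ⊥) (q : ℚ) :
    InL p IZ (h p T q) ↔ InL p T q := by
  by_cases hq : q = 0
  · subst hq
    have : h p T 0 = 0 := by unfold h; split_ifs <;> simp
    rw [this]
    exact ⟨fun _ => inL_zero hp _, fun _ => inL_zero hp _⟩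
  have h0 : InL p T q ↔ InL p T ((p : ℚ) ^ (padicValRat p q)) := by
    have := inL_iff_pow hp T hq 0
    simpa using this
  by_cases H : ∃ t, IsT p T t
  · obtain ⟨t, ht⟩ := H
    rw [h_of_IsT ht, mul_comm, inL_iff_pow hp IZ hq, IsT_IZ hp, h0, ht]
    constructor <;> intro h <;> linarith
  · rw [h_of_not H, h0]
    exact ⟨fun _ => all_of_not_IsT hp hT H _, fun _ => inL_zero hp _⟩

/-- The unit `r p^(-v(r))`. -/
noncomputable def u (p : ℕ) (r : ℚˣ) : ℚ :=
  if p.Prime then (r : ℚ) * (p : ℚ) ^ (-padicValRat p (r : ℚ)) else 1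

theorem u_one (p : ℕ) : u p 1 = 1 := by
  unfold u
  split_ifs <;> simp

theorem u_mul (p : ℕ) (r s : ℚˣ) : u p (r * s) = u p r * u p s := by
  unfold u
  split_ifs with hp
  · have := Fact.mk hp
    have hp0 : (p : ℚ) ≠ 0 := by exact_mod_cast hp.ne_zero
    rw [Units.val_mul, padicValRat.mul (Units.ne_zero r) (Units.ne_zero s), neg_add,
      zpow_add₀ hp0]
    ring
  · simp

theorem h_smul {p : ℕ} (hp : p.Prime) (T : AddSubgroup ℚ) (r : ℚˣ) (q : ℚ) :
    h p (r • T) (r * q) = u p r * h p T q := by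
  have hp0 : (p : ℚ) ≠ 0 := by exact_mod_cast hp.ne_zero
  by_cases H : ∃ t, IsT p T t
  · obtain ⟨t, ht⟩ := H
    have ht' : IsT p (r • T) (t + padicValRat p (r : ℚ)) := by
      rw [IsT_smul hp, add_sub_cancel_right]; exact ht
    rw [h_of_IsT ht, h_of_IsT ht', neg_add, zpow_add₀ hp0]
    unfold u
    rw [if_pos hp]
    ring
  · have H' : ¬ ∃ t, IsT p (r • T) t := by
      rintro ⟨t, ht⟩
      exact H ⟨_, (IsT_smul hp T r t).1 ht⟩
    rw [h_of_not H, h_of_not H', mul_zero]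

theorem inL_u {p : ℕ} (hp : p.Prime) (r : ℚˣ) {x : ℚ} (hx : InL p IZ x) :
    InL p IZ (u p r * x) := by
  obtain ⟨a, b, ha, hb, hab⟩ := unit_frac hp (Units.ne_zero r)
  refine inL_unit hp (a := b) (b := a) hb ?_ hx
  unfold u
  rw [if_pos hp, ← hab]
  ring

/-- The big group. -/
@[ext] structure G1 : Type where
  f : ℕ →₀ ℚ
  r : ℚˣ

/-- Action of a unit. -/
noncomputable def U (r : ℚˣ) (f : ℕ →₀ ℚ) : ℕ →₀ ℚ :=
  Finsupp.onFinset f.support (fun p => u p r * f p) (by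
    intro p hp
    rw [Finsupp.mem_support_iff]
    intro h0
    rw [h0, mul_zero] at hp
    exact hp rfl)

theorem U_apply (r : ℚˣ) (f : ℕ →₀ ℚ) (p : ℕ) : U r f p = u p r * f p := rfl

noncomputable instance : Group G1 :=
  letI : Mul G1 := ⟨fun a b => ⟨a.f + U a.r b.f, a.r * b.r⟩⟩
  letI : One G1 := ⟨⟨0, 1⟩⟩
  letI : Inv G1 := ⟨fun a => ⟨-U a.r⁻¹ a.f, a.r⁻¹⟩⟩
  Group.ofLeftAxioms
    (by
      intro a b c
      refine G1.ext (Finsupp.ext fun p => ?_) (mul_assoc a.r b.r c.r)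
      show a.f p + u p a.r * b.f p + u p (a.r * b.r) * c.f p =
        a.f p + u p a.r * (b.f p + u p b.r * c.f p)
      rw [u_mul]; ring)
    (by
      intro a
      refine G1.ext (Finsupp.ext fun p => ?_) (one_mul a.r)
      show (0 : ℚ) + u p 1 * a.f p = a.f p
      rw [u_one]; ring)
    (by
      intro a
      refine G1.ext (Finsupp.ext fun p => ?_) (inv_mul_cancel a.r)
      show -(u p a.r⁻¹ * a.f p) + u p a.r⁻¹ * a.f p = 0
      ring)

theorem mul_f (a b : G1) (p : ℕ) : (a * b).f p = a.f p + u p a.r * b.f p := rfl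
theorem mul_r (a b : G1) : (a * b).r = a.r * b.r := rfl
theorem one_f (p : ℕ) : (1 : G1).f p = 0 := rfl
theorem one_r : (1 : G1).r = 1 := rfl

instance : Countable G1 := by
  have : Countable ℚˣ := Units.val_injective.countable
  have hinj : Function.Injective (fun a : G1 => (a.f, a.r)) := by
    intro a b hab
    exact G1.ext (congrArg Prod.fst hab) (congrArg Prod.snd hab)
  exact hinj.countable

def cn : Con G1 where
  r a b := a.r = b.r ∧ ∀ p : ℕ, p.Prime → InL p IZ (a.f p - b.f p)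
  iseqv := by
    refine ⟨fun a => ⟨rfl, fun p hp => ?_⟩, fun {a b} hab => ⟨hab.1.symm, fun p hp => ?_⟩,
      fun {a b c} hab hbc => ⟨hab.1.trans hbc.1, fun p hp => ?_⟩⟩
    · rw [sub_self]; exact inL_zero hp _
    · have := inL_neg (hab.2 p hp)
      rwa [neg_sub] at this
    · have := inL_add hp (hab.2 p hp) (hbc.2 p hp)
      rwa [sub_add_sub_cancel] at this
  mul' := by
    intro a b c d hab hcd
    refine ⟨by rw [mul_r, mul_r, hab.1, hcd.1], fun p hp => ?_⟩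
    rw [mul_f, mul_f]
    have e : a.f p + u p a.r * c.f p - (b.f p + u p b.r * d.f p) =
        (a.f p - b.f p) + u p a.r * (c.f p - d.f p) := by
      rw [hab.1]; ring
    rw [e]
    exact inL_add hp (hab.2 p hp) (inL_u hp _ (hcd.2 p hp))

theorem cn_iff (a b : G1) : ((a : cn.Quotient) = b) ↔
    (a.r = b.r ∧ ∀ p : ℕ, p.Prime → InL p IZ (a.f p - b.f p)) := by
  rw [Con.eq]
  rfl

instance : Countable cn.Quotient :=
  Function.Surjective.countable (Con.mk'_surjective (c := cn))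

theorem smul_ne_bot {T : AddSubgroup ℚ} (hT : T ≠ ⊥) (r : ℚˣ) : r • T ≠ ⊥ := by
  intro h0
  apply hT
  rw [eq_bot_iff]
  intro x hx
  have : (r : ℚ) * x ∈ r • T := by
    rw [mem_smul_T, Units.val_inv_eq_inv_val, inv_mul_cancel_left₀ (Units.ne_zero r)]
    exact hx
  rw [h0, AddSubgroup.mem_bot] at this
  rw [AddSubgroup.mem_bot]
  exact (mul_eq_zero.1 this).resolve_left (Units.ne_zero r)

theorem fin_bad {T : AddSubgroup ℚ} (hT : T ≠ ⊥) (q : ℚ) :
    {p : ℕ | p.Prime ∧ ¬ InL p T q}.Finite := by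
  obtain ⟨x, hx, hx0⟩ := (AddSubgroup.ne_bot_iff_exists_ne_zero.1 hT : ∃ a : T, a ≠ 0) |>.elim
    (fun a ha => (⟨(a : ℚ), a.2, fun h => ha (Subtype.ext h)⟩ : ∃ x : ℚ, x ∈ T ∧ x ≠ 0))
  have hden : (((q / x).den : ℕ) : ℚ) * q = ((q / x).num : ℚ) * x := by
    have h1 : (q / x) * ((q / x).den : ℚ) = ((q / x).num : ℚ) := Rat.mul_den_eq_num _
    have h2 : q = (q / x) * x := by field_simp
    calc (((q / x).den : ℕ) : ℚ) * q = (((q / x).den : ℕ) : ℚ) * ((q / x) * x) := by rw [← h2]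
      _ = ((q / x) * ((q / x).den : ℚ)) * x := by ring
      _ = _ := by rw [h1]
  apply ((q / x).den.primeFactors.finite_toSet).subset
  rintro p ⟨hp, hn⟩
  rw [Finset.mem_coe, Nat.mem_primeFactors]
  refine ⟨hp, ?_, (q / x).den_nz⟩
  by_contra hd
  apply hn
  refine ⟨((q / x).den : ℤ), fun h => hd (by exact_mod_cast h), ?_⟩
  push_cast
  rw [hden]
  exact int_mul_mem T hx _

theorem mem_of_all {T : AddSubgroup ℚ} {q : ℚ} (h : ∀ p : ℕ, p.Prime → InL p T q) : q ∈ T := by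
  -- the subgroup of integers `m` with `m q ∈ T`
  let S : AddSubgroup ℤ := T.comap ((AddMonoidHom.mulRight q).comp (Int.castAddHom ℚ))
  have hS : ∀ m : ℤ, m ∈ S ↔ (m : ℚ) * q ∈ T := fun m => Iff.rfl
  obtain ⟨g, hg⟩ := Int.subgroup_cyclic S
  have hgS : ∀ m : ℤ, m ∈ S ↔ g ∣ m := by
    intro m
    rw [hg, AddSubgroup.mem_closure_singleton]
    constructor
    · rintro ⟨n, rfl⟩
      exact ⟨n, by rw [smul_eq_mul, mul_comm]⟩
    · rintro ⟨n, rfl⟩
      exact ⟨n, by rw [smul_eq_mul, mul_comm]⟩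
  have hg1 : g.natAbs = 1 := by
    by_contra hne
    obtain ⟨p, hp, hpg⟩ := Nat.exists_prime_and_dvd hne
    obtain ⟨m, hm, hmT⟩ := h p hp
    have h1 : g ∣ m := (hgS m).1 ((hS m).2 hmT)
    exact hm ((Int.natCast_dvd.2 hpg).trans h1)
  have : (1 : ℤ) ∈ S := by
    rw [hgS]
    exact Int.natAbs_dvd.1 (by rw [hg1]; simp)
  have := (hS 1).1 this
  simpa using this

open Classical in
/-- The cocycle value. -/
noncomputable def F {T : AddSubgroup ℚ} (hT : T ≠ ⊥) (q : ℚ) (r : ℚˣ) : ℕ →₀ ℚ :=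
  Finsupp.ofSupportFinite
    (fun p => if p.Prime ∧ ¬ InL p IZ (h p (r • T) q) then h p (r • T) q else 0) (by
      refine (fin_bad (smul_ne_bot hT r) q).subset ?_
      intro p hp
      rw [Function.mem_support] at hp
      have h1 : p.Prime ∧ ¬ InL p IZ (h p (r • T) q) := by
        by_contra hc
        rw [if_neg hc] at hp
        exact hp rfl
      exact ⟨h1.1, fun h2 => h1.2 ((h_mem_iff h1.1 (smul_ne_bot hT r) q).2 h2)⟩)

theorem F_sub {T : AddSubgroup ℚ} (hT : T ≠ ⊥) (q : ℚ) (r : ℚˣ) {p : ℕ} (hp : p.Prime) :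
    InL p IZ (F hT q r p - h p (r • T) q) := by
  classical
  have e : F hT q r p = if p.Prime ∧ ¬ InL p IZ (h p (r • T) q) then h p (r • T) q else 0 := by
    unfold F
    rw [Finsupp.ofSupportFinite_coe]
  rw [e]
  split_ifs with hc
  · rw [sub_self]; exact inL_zero hp _
  · rw [zero_sub]
    apply inL_neg
    by_contra hn
    exact hc ⟨hp, hn⟩

theorem F_iff {T : AddSubgroup ℚ} (hT : T ≠ ⊥) (q : ℚ) (r : ℚˣ) {p : ℕ} (hp : p.Prime) (z : ℚ) :
    InL p IZ (F hT q r p - z) ↔ InL p IZ (h p (r • T) q - z) := by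
  constructor
  · intro h1
    have := inL_add hp h1 (inL_neg (F_sub hT q r hp))
    have e : F hT q r p - z + -(F hT q r p - h p (r • T) q) = h p (r • T) q - z := by ring
    rwa [e] at this
  · intro h1
    have := inL_add hp h1 (F_sub hT q r hp)
    have e : h p (r • T) q - z + (F hT q r p - h p (r • T) q) = F hT q r p - z := by ring
    rwa [e] at this

open Classical in
noncomputable def c (T : AddSubgroup ℚ) (q : ℚ) (r : ℚˣ) : cn.Quotient :=
  if hT : T ≠ ⊥ then ((⟨F hT q r, r⟩ : G1) : cn.Quotient) else 1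

theorem c_of {T : AddSubgroup ℚ} (hT : T ≠ ⊥) (q : ℚ) (r : ℚˣ) :
    c T q r = ((⟨F hT q r, r⟩ : G1) : cn.Quotient) := by
  unfold c
  rw [dif_pos hT]

theorem meas_mem (x : ℚ) : MeasurableSet {T : AddSubgroup ℚ | x ∈ T} := by
  have h1 : Measurable (fun A : AddSubgroup ℚ => fun v : ℚ => v ∈ A) := comap_measurable _
  have h2 : Measurable (fun A : AddSubgroup ℚ => (x ∈ A : Prop)) :=
    (measurable_pi_apply x).comp h1
  exact measurableSet_setOf.2 h2

theorem meas_inL (p : ℕ) (x : ℚ) : MeasurableSet {T : AddSubgroup ℚ | InL p T x} := by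
  have : {T : AddSubgroup ℚ | InL p T x} =
      ⋃ m : ℤ, {T : AddSubgroup ℚ | ¬ (p : ℤ) ∣ m ∧ (m : ℚ) * x ∈ T} := by
    ext T
    simp only [Set.mem_setOf_eq, Set.mem_iUnion]
    rfl
  rw [this]
  refine MeasurableSet.iUnion fun m => ?_
  by_cases hm : (p : ℤ) ∣ m
  · simp only [hm, not_true_eq_false, false_and, Set.setOf_false]
    exact MeasurableSet.empty
  · simp only [hm, not_false_eq_true, true_and]
    exact meas_mem _

theorem meas_IsT (p : ℕ) (t : ℤ) : MeasurableSet {T : AddSubgroup ℚ | IsT p T t} := by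
  have : {T : AddSubgroup ℚ | IsT p T t} =
      ⋂ v : ℤ, {T : AddSubgroup ℚ | InL p T ((p : ℚ) ^ v) ↔ t ≤ v} := by
    ext T
    simp only [Set.mem_setOf_eq, Set.mem_iInter]
    rfl
  rw [this]
  refine MeasurableSet.iInter fun v => ?_
  by_cases hv : t ≤ v
  · simp only [hv, iff_true]
    exact meas_inL _ _
  · simp only [hv, iff_false]
    exact (meas_inL _ _).compl

theorem meas_h {p : ℕ} (hp : p.Prime) (r : ℚˣ) (q z : ℚ) :
    MeasurableSet {T : AddSubgroup ℚ | InL p IZ (h p (r • T) q - z)} := by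
  have hset : {T : AddSubgroup ℚ | InL p IZ (h p (r • T) q - z)} =
      (⋃ t : ℤ, {T : AddSubgroup ℚ | IsT p T t ∧
        InL p IZ ((p : ℚ) ^ (-(t + padicValRat p (r : ℚ))) * q - z)}) ∪
      ({T : AddSubgroup ℚ | (∀ t : ℤ, ¬ IsT p T t) ∧ InL p IZ (0 - z)}) := by
    ext T
    simp only [Set.mem_setOf_eq, Set.mem_iUnion, Set.mem_union]
    by_cases H : ∃ t, IsT p T t
    · obtain ⟨t, ht⟩ := H
      have ht' : IsT p (r • T) (t + padicValRat p (r : ℚ)) := by
        rw [IsT_smul hp, add_sub_cancel_right]; exact ht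
      rw [h_of_IsT ht']
      constructor
      · intro h1
        exact Or.inl ⟨t, ht, h1⟩
      · rintro (⟨s, hs, h1⟩ | ⟨h1, -⟩)
        · rwa [IsT_unique hs ht] at h1
        · exact absurd ht (h1 t)
    · have H' : ¬ ∃ t, IsT p (r • T) t := by
        rintro ⟨t, ht⟩
        exact H ⟨_, (IsT_smul hp T r t).1 ht⟩
      rw [h_of_not H']
      constructor
      · intro h1
        exact Or.inr ⟨fun t ht => H ⟨t, ht⟩, h1⟩
      · rintro (⟨s, hs, h1⟩ | ⟨-, h1⟩)
        · exact absurd ⟨s, hs⟩ H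
        · exact h1
  rw [hset]
  refine MeasurableSet.union (MeasurableSet.iUnion fun t => ?_) ?_
  · by_cases hc : InL p IZ ((p : ℚ) ^ (-(t + padicValRat p (r : ℚ))) * q - z)
    · simp only [hc, and_true]
      exact meas_IsT p t
    · simp only [hc, and_false, Set.setOf_false]
      exact MeasurableSet.empty
  · by_cases hc : InL p IZ (0 - z)
    · simp only [hc, and_true]
      have : {T : AddSubgroup ℚ | ∀ t : ℤ, ¬ IsT p T t} =
          ⋂ t : ℤ, {T : AddSubgroup ℚ | IsT p T t}ᶜ := by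
        ext T
        simp
      rw [this]
      exact MeasurableSet.iInter fun t => (meas_IsT p t).compl
    · simp only [hc, and_false, Set.setOf_false]
      exact MeasurableSet.empty

theorem meas_ne_bot : MeasurableSet {T : AddSubgroup ℚ | T ≠ ⊥} := by
  have : {T : AddSubgroup ℚ | T ≠ ⊥} = ⋃ x : {x : ℚ // x ≠ 0}, {T : AddSubgroup ℚ | x.1 ∈ T} := by
    ext T
    simp only [Set.mem_setOf_eq, Set.mem_iUnion]
    rw [AddSubgroup.ne_bot_iff_exists_ne_zero]
    constructor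
    · rintro ⟨a, ha⟩
      exact ⟨⟨(a : ℚ), fun h => ha (Subtype.ext h)⟩, a.2⟩
    · rintro ⟨x, hx⟩
      exact ⟨⟨x.1, hx⟩, fun h => x.2 (congrArg Subtype.val h)⟩
  rw [this]
  exact MeasurableSet.iUnion fun x => meas_mem _

theorem t : TaskD1 := by
  refine ⟨cn.Quotient, inferInstance, inferInstance, c, ?_, ?_, ?_⟩
  · intro T hT q q' r r'
    have hT' := smul_ne_bot hT r
    have hsm : r' • r • T = (r' * r) • T := (mul_smul r' r T).symm
    rw [c_of hT, c_of hT, c_of hT', ← Con.coe_mul, cn_iff]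
    refine ⟨rfl, fun p hp => ?_⟩
    rw [mul_f]
    show InL p IZ (F hT' q' r' p + u p r' * F hT q r p - F hT (q' + r' * q) (r' * r) p)
    have h1 := F_sub hT' q' r' hp
    have h2 := inL_u hp r' (F_sub hT q r hp)
    have h3 := inL_neg (F_sub hT (q' + r' * q) (r' * r) hp)
    have h4 := inL_add hp (inL_add hp h1 h2) h3
    have e : F hT' q' r' p - h p (r' • r • T) q' + u p r' * (F hT q r p - h p (r • T) q) +
        -(F hT (q' + r' * q) (r' * r) p - h p ((r' * r) • T) (q' + r' * q)) =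
        F hT' q' r' p + u p r' * F hT q r p - F hT (q' + r' * q) (r' * r) p := by
      rw [h_add, ← hsm, h_smul hp]
      ring
    rwa [e] at h4
  · intro T hT q r
    rw [c_of hT, ← Con.coe_one, cn_iff]
    constructor
    · rintro ⟨h1, h2⟩
      have hr : r = 1 := h1
      subst hr
      refine ⟨rfl, mem_of_all fun p hp => ?_⟩
      have h3 := h2 p hp
      rw [one_f] at h3
      have h4 := (F_iff hT q 1 hp 0).1 h3
      rw [sub_zero, one_smul, h_mem_iff hp hT] at h4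
      exact h4
    · rintro ⟨rfl, hq⟩
      refine ⟨rfl, fun p hp => ?_⟩
      rw [one_f]
      apply (F_iff hT q 1 hp 0).2
      rw [sub_zero, one_smul, h_mem_iff hp hT]
      exact inL_of_mem hp hq
  · intro q r γ
    obtain ⟨g, rfl⟩ := Con.mk'_surjective (c := cn) γ
    have hset : {T : AddSubgroup ℚ | T ≠ ⊥ ∧ c T q r = cn.mk' g} =
        {T : AddSubgroup ℚ | T ≠ ⊥} ∩ ({T : AddSubgroup ℚ | r = g.r} ∩
          ⋂ p : {p : ℕ // p.Prime}, {T : AddSubgroup ℚ | InL p.1 IZ (h p.1 (r • T) q - g.f p.1)}) := by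
      ext T
      simp only [Set.mem_setOf_eq, Set.mem_inter_iff, Set.mem_iInter]
      refine and_congr_right fun hT => ?_
      rw [c_of hT]
      show ((⟨F hT q r, r⟩ : G1) : cn.Quotient) = (g : cn.Quotient) ↔ _
      rw [cn_iff]
      refine and_congr Iff.rfl ?_
      constructor
      · intro h1 p
        exact (F_iff hT q r p.2 _).1 (h1 p.1 p.2)
      · intro h1 p hp
        exact (F_iff hT q r hp _).2 (h1 ⟨p, hp⟩)
    rw [hset]
    refine meas_ne_bot.inter (MeasurableSet.inter (MeasurableSet.const _)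
      (MeasurableSet.iInter fun p => meas_h p.2 r q _))

end Pool.Agent.H418R3.EF.D1H318
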