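import Pool.Agent.H418R3.EF.Stmts

set_option autoImplicit false

/-! Task D1 of project H418-EF. -/

namespace Pool.Agent.H573R3.D1

open Pool.Agent.H418R3.EF
open scoped Pointwise

noncomputable section

abbrev Pr := Nat.Primes

instance (p : Pr) : Fact (Nat.Prime (p : ℕ)) := ⟨p.2⟩

/-- the p-adic norm -/
def nm (p : Pr) (q : ℚ) : ℚ := padicNorm (p : ℕ) q

theorem nm_zero (p : Pr) : nm p 0 = 0 := padicNorm.zero
theorem nm_one (p : Pr) : nm p 1 = 1 := padicNorm.one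
theorem nm_mul (p : Pr) (a b : ℚ) : nm p (a * b) = nm p a * nm p b := padicNorm.mul a b
theorem nm_neg (p : Pr) (a : ℚ) : nm p (-a) = nm p a := padicNorm.neg a
theorem nm_nonneg (p : Pr) (a : ℚ) : 0 ≤ nm p a := padicNorm.nonneg a
theorem nm_ne (p : Pr) {a : ℚ} (h : a ≠ 0) : nm p a ≠ 0 := padicNorm.nonzero h
theorem nm_pos (p : Pr) {a : ℚ} (h : a ≠ 0) : 0 < nm p a :=
  lt_of_le_of_ne (nm_nonneg p a) (nm_ne p h).symm
theorem nm_add (p : Pr) {a b : ℚ} (ha : nm p a ≤ 1) (hb : nm p b ≤ 1) : nm p (a + b) ≤ 1 :=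
  (padicNorm.nonarchimedean (p := (p : ℕ))).trans (max_le ha hb)
theorem nm_sub (p : Pr) {a b : ℚ} (ha : nm p a ≤ 1) (hb : nm p b ≤ 1) : nm p (a - b) ≤ 1 :=
  (padicNorm.sub (p := (p : ℕ))).trans (max_le ha hb)

theorem nm_zpow (p : Pr) (z : ℤ) : nm p ((p : ℚ) ^ z) = (p : ℚ) ^ (-z) := by
  have hp : ((p : ℕ) : ℚ) ≠ 0 := Nat.cast_ne_zero.2 p.2.ne_zero
  unfold nm
  rw [padicNorm.eq_zpow_of_nonzero (zpow_ne_zero _ hp), padicValRat.zpow,
    padicValRat.self p.2.one_lt, mul_one]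

theorem nm_nm (p : Pr) {r : ℚ} (hr : r ≠ 0) : nm p (nm p r) = (nm p r)⁻¹ := by
  obtain ⟨z, hz⟩ := padicNorm.values_discrete (p := (p : ℕ)) hr
  have h1 : nm p r = (p : ℚ) ^ (-z) := hz
  rw [h1, nm_zpow, zpow_neg]

/-- unit part -/
def un (p : Pr) (r : ℚ) : ℚ := r * nm p r

theorem nm_un (p : Pr) {r : ℚ} (hr : r ≠ 0) : nm p (un p r) = 1 := by
  rw [un, nm_mul, nm_nm p hr, mul_inv_cancel₀ (nm_ne p hr)]

theorem un_mul (p : Pr) (r r' : ℚ) : un p (r * r') = un p r * un p r' := by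
  rw [un, un, un, nm_mul]; ring

theorem un_one (p : Pr) : un p 1 = 1 := by rw [un, nm_one, mul_one]

def LL : AddSubgroup (Pr →₀ ℚ) where
  carrier := {f | ∀ p, nm p (f p) ≤ 1}
  zero_mem' := by
    intro p
    rw [Finsupp.zero_apply, nm_zero]
    exact zero_le_one
  add_mem' := by
    intro a b ha hb p
    exact nm_add p (ha p) (hb p)
  neg_mem' := by
    intro a ha p
    rw [Finsupp.neg_apply, nm_neg]
    exact ha p

def scal (r : ℚ) : (Pr →₀ ℚ) →+ (Pr →₀ ℚ) where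
  toFun f := Finsupp.onFinset f.support (fun p => un p r * f p) (by
    intro p hp
    rw [Finsupp.mem_support_iff]
    exact right_ne_zero_of_mul hp)
  map_zero' := by ext p; simp
  map_add' f g := by ext p; simp [mul_add]

theorem scal_apply (r : ℚ) (f : Pr →₀ ℚ) (p : Pr) : scal r f p = un p r * f p := rfl

abbrev MM := (Pr →₀ ℚ) ⧸ LL

theorem scal_le (r : ℚˣ) : LL ≤ LL.comap (scal (r : ℚ)) := by
  intro f hf p
  rw [scal_apply, nm_mul, nm_un p r.ne_zero, one_mul]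
  exact hf p

def act (r : ℚˣ) : MM →+ MM := QuotientAddGroup.map LL LL (scal (r : ℚ)) (scal_le r)

theorem act_mk (r : ℚˣ) (f : Pr →₀ ℚ) : act r (f : MM) = ((scal (r : ℚ) f : Pr →₀ ℚ) : MM) := rfl

theorem act_one (m : MM) : act 1 m = m := by
  induction m using QuotientAddGroup.induction_on with
  | H f =>
    rw [act_mk]
    congr 1
    ext p
    rw [scal_apply, Units.val_one, un_one, one_mul]

theorem act_mul (r r' : ℚˣ) (m : MM) : act (r * r') m = act r (act r' m) := by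
  induction m using QuotientAddGroup.induction_on with
  | H f =>
    rw [act_mk, act_mk, act_mk]
    congr 1
    ext p
    rw [scal_apply, scal_apply, scal_apply, Units.val_mul, un_mul, mul_assoc]

/-- the semidirect product -/
@[ext] structure Gam where
  m : MM
  r : ℚˣ

instance : Mul Gam := ⟨fun a b => ⟨a.m + act a.r b.m, a.r * b.r⟩⟩
instance : One Gam := ⟨⟨0, 1⟩⟩
instance : Inv Gam := ⟨fun a => ⟨-act a.r⁻¹ a.m, a.r⁻¹⟩⟩

theorem mul_def (a b : Gam) : a * b = ⟨a.m + act a.r b.m, a.r * b.r⟩ := rfl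
theorem one_def : (1 : Gam) = ⟨0, 1⟩ := rfl
theorem inv_def (a : Gam) : a⁻¹ = ⟨-act a.r⁻¹ a.m, a.r⁻¹⟩ := rfl

instance : Group Gam := Group.ofLeftAxioms
  (by
    intro a b c
    simp only [mul_def, map_add, act_mul, add_assoc, mul_assoc])
  (by
    intro a
    simp only [mul_def, one_def, act_one, zero_add, one_mul])
  (by
    intro a
    simp only [mul_def, one_def, inv_def, neg_add_cancel, inv_mul_cancel])

instance : Countable MM := (QuotientAddGroup.mk_surjective (s := LL)).countable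

instance : Countable ℚˣ := Units.val_injective.countable

instance : Countable Gam :=
  Function.Injective.countable (f := fun a : Gam => (a.m, a.r)) (by
    intro a b h
    exact Gam.ext (congrArg Prod.fst h) (congrArg Prod.snd h))

/-- the scaling factor -/
def Cs (p : Pr) (T : AddSubgroup ℚ) (s : ℚ) : Prop :=
  s * nm p s = 1 ∧ (∀ x ∈ T, nm p (s * x) ≤ 1) ∧ ∃ x ∈ T, nm p (s * x) = 1

theorem Cs.ne {p : Pr} {T : AddSubgroup ℚ} {s : ℚ} (h : Cs p T s) : s ≠ 0 := by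
  rintro rfl
  have := h.1
  rw [zero_mul] at this
  exact zero_ne_one this

theorem Cs.le {p : Pr} {T : AddSubgroup ℚ} {s s' : ℚ} (h : Cs p T s) (h' : Cs p T s') :
    nm p s' ≤ nm p s := by
  obtain ⟨x, hx, hx1⟩ := h.2.2
  have h2 := h'.2.1 x hx
  rw [nm_mul] at hx1 h2
  have hx0 : x ≠ 0 := by
    rintro rfl
    rw [nm_zero, mul_zero] at hx1
    exact zero_ne_one hx1
  have hpos := nm_pos p hx0
  rw [← hx1] at h2
  exact le_of_mul_le_mul_right h2 hpos

theorem Cs.uniq {p : Pr} {T : AddSubgroup ℚ} {s s' : ℚ} (h : Cs p T s) (h' : Cs p T s') :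
    s = s' := by
  have h1 : nm p s = nm p s' := le_antisymm (h'.le h) (h.le h')
  have h2 := h.1
  have h3 := h'.1
  rw [← h1] at h3
  exact mul_right_cancel₀ (nm_ne p h.ne) (h2.trans h3.symm)

open Classical in
def sc (p : Pr) (T : AddSubgroup ℚ) : ℚ := if h : ∃ s, Cs p T s then h.choose else 0

theorem sc_eq {p : Pr} {T : AddSubgroup ℚ} {s : ℚ} (h : Cs p T s) : sc p T = s := by
  have h1 : ∃ s, Cs p T s := ⟨s, h⟩
  unfold sc
  rw [dif_pos h1]
  exact h1.choose_spec.uniq h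

theorem sc_zero {p : Pr} {T : AddSubgroup ℚ} (h : ¬ ∃ s, Cs p T s) : sc p T = 0 := by
  unfold sc
  rw [dif_neg h]

theorem sc_cases (p : Pr) (T : AddSubgroup ℚ) : Cs p T (sc p T) ∨ ((¬ ∃ s, Cs p T s) ∧ sc p T = 0) := by
  by_cases h : ∃ s, Cs p T s
  · left
    obtain ⟨s, hs⟩ := h
    rw [sc_eq hs]
    exact hs
  · exact Or.inr ⟨h, sc_zero h⟩

theorem nm_scale (p : Pr) (s y : ℚ) (r : ℚˣ) : nm p (s * nm p r * (r * y)) = nm p (s * y) := by
  have hr := nm_ne p r.ne_zero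
  rw [nm_mul, nm_mul, nm_mul, nm_nm p r.ne_zero, nm_mul]
  field_simp

theorem Cs.smul {p : Pr} {T : AddSubgroup ℚ} {s : ℚ} (h : Cs p T s) (r : ℚˣ) :
    Cs p (r • T) (s * nm p r) := by
  have hr := nm_ne p r.ne_zero
  refine ⟨?_, ?_, ?_⟩
  · rw [nm_mul, nm_nm p r.ne_zero]
    have := h.1
    field_simp
    exact this
  · intro x hx
    obtain ⟨y, hy, rfl⟩ := (AddSubgroup.mem_smul_pointwise_iff_exists _ _ _).1 hx
    rw [Units.smul_def, smul_eq_mul, nm_scale]
    exact h.2.1 y hy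
  · obtain ⟨y, hy, h1⟩ := h.2.2
    refine ⟨r • y, (AddSubgroup.mem_smul_pointwise_iff_exists _ _ _).2 ⟨y, hy, rfl⟩, ?_⟩
    rw [Units.smul_def, smul_eq_mul, nm_scale]
    exact h1

theorem sc_smul (p : Pr) (T : AddSubgroup ℚ) (r : ℚˣ) : sc p (r • T) = sc p T * nm p r := by
  rcases sc_cases p T with h | ⟨h, h0⟩
  · exact sc_eq (h.smul r)
  · rw [h0, zero_mul]
    apply sc_zero
    rintro ⟨s, hs⟩
    have := hs.smul r⁻¹
    rw [inv_smul_smul] at this
    exact h ⟨_, this⟩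

theorem sc_le (p : Pr) {T : AddSubgroup ℚ} {x : ℚ} (hx : x ∈ T) : nm p (sc p T * x) ≤ 1 := by
  rcases sc_cases p T with h | ⟨_, h0⟩
  · exact h.2.1 x hx
  · rw [h0, zero_mul, nm_zero]
    exact zero_le_one

theorem nm_le_of_not_dvd (p : Pr) (y : ℚ) (h : ¬ (p : ℕ) ∣ y.den) : nm p y ≤ 1 := by
  have h1 : nm p y = nm p y.num / nm p y.den := by
    conv_lhs => rw [← Rat.num_div_den y]
    exact padicNorm.div _ _
  have h2 : nm p (y.den : ℚ) = 1 := (padicNorm.nat_eq_one_iff (p := (p : ℕ)) y.den).2 h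
  have h3 : nm p (y.num : ℚ) ≤ 1 := padicNorm.of_int (p := (p : ℕ)) y.num
  rw [h1, h2, div_one]
  exact h3

theorem fin_bad {T : AddSubgroup ℚ} (hT : T ≠ ⊥) (q : ℚ) :
    {p : Pr | ¬ nm p (sc p T * q) ≤ 1}.Finite := by
  obtain ⟨x, hx, hx0⟩ := (AddSubgroup.ne_bot_iff_exists_ne_zero).1 hT |>.elim
    fun a ha => (⟨a.1, a.2, fun h => ha (Subtype.ext h)⟩ : ∃ x, x ∈ T ∧ x ≠ 0)
  have hfin : {p : Pr | (p : ℕ) ∣ (q / x).den}.Finite := by
    have : {p : Pr | (p : ℕ) ∣ (q / x).den} = (fun p : Pr => (p : ℕ)) ⁻¹' ((q / x).den.divisors : Set ℕ) := by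
      ext p
      simp [(q / x).den_nz]
    rw [this]
    exact (Finset.finite_toSet _).preimage (Nat.Primes.coe_nat_injective.injOn)
  refine hfin.subset ?_
  intro p hp
  by_contra hnd
  apply hp
  have h1 : sc p T * q = (sc p T * x) * (q / x) := by field_simp
  rw [h1, nm_mul]
  exact mul_le_one₀ (sc_le p hx) (nm_nonneg _ _) (nm_le_of_not_dvd p _ hnd)

open Classical in
/-- the truncated function -/
def tr (T : AddSubgroup ℚ) (q : ℚ) : Pr →₀ ℚ :=
  if hT : T ≠ ⊥ then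
    Finsupp.onFinset (fin_bad hT q).toFinset
      (fun p => if nm p (sc p T * q) ≤ 1 then 0 else sc p T * q) (by
        intro p hp
        rw [Set.Finite.mem_toFinset]
        intro h
        exact hp (if_pos h))
  else 0

theorem tr_spec {T : AddSubgroup ℚ} (hT : T ≠ ⊥) (q : ℚ) (p : Pr) :
    nm p (tr T q p - sc p T * q) ≤ 1 := by
  unfold tr
  rw [dif_pos hT, Finsupp.onFinset_apply]
  by_cases h : nm p (sc p T * q) ≤ 1
  · rw [if_pos h, zero_sub, nm_neg]
    exact h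
  · rw [if_neg h, sub_self, nm_zero]
    exact zero_le_one

theorem mk_eq_iff {T : AddSubgroup ℚ} (hT : T ≠ ⊥) (q : ℚ) (f : Pr →₀ ℚ) :
    ((tr T q : Pr →₀ ℚ) : MM) = (f : MM) ↔ ∀ p, nm p (sc p T * q - f p) ≤ 1 := by
  rw [QuotientAddGroup.eq]
  constructor
  · intro h p
    have h1 := h p
    rw [Finsupp.add_apply, Finsupp.neg_apply] at h1
    have h2 := nm_add p h1 (tr_spec hT q p)
    have h3 : -tr T q p + f p + (tr T q p - sc p T * q) = -(sc p T * q - f p) := by ring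
    rw [h3, nm_neg] at h2
    exact h2
  · intro h p
    show nm p ((-tr T q + f) p) ≤ 1
    rw [Finsupp.add_apply, Finsupp.neg_apply]
    have h2 := nm_add p (h p) (tr_spec hT q p)
    have h3 : -tr T q p + f p = -(sc p T * q - f p + (tr T q p - sc p T * q)) := by ring
    rw [h3, nm_neg]
    exact h2

/-- the cocycle -/
def c (T : AddSubgroup ℚ) (q : ℚ) (r : ℚˣ) : Gam := ⟨(tr (r • T) q : MM), r⟩

theorem smul_ne_bot {T : AddSubgroup ℚ} (hT : T ≠ ⊥) (r : ℚˣ) : r • T ≠ ⊥ := by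
  intro h
  apply hT
  rw [eq_bot_iff]
  intro x hx
  have h1 : r • x ∈ r • T := (AddSubgroup.mem_smul_pointwise_iff_exists _ _ _).2 ⟨x, hx, rfl⟩
  rw [h, AddSubgroup.mem_bot, Units.smul_def, smul_eq_mul] at h1
  rw [AddSubgroup.mem_bot]
  rcases mul_eq_zero.1 h1 with h2 | h2
  · exact absurd h2 r.ne_zero
  · exact h2

theorem coc {T : AddSubgroup ℚ} (hT : T ≠ ⊥) (q q' : ℚ) (r r' : ℚˣ) :
    c (r • T) q' r' * c T q r = c T (q' + r' * q) (r' * r) := by
  have hrT := smul_ne_bot hT r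
  have hT' := smul_ne_bot hrT r'
  unfold c
  rw [mul_def]
  simp only
  congr 1
  rw [act_mk, mul_smul, ← QuotientAddGroup.mk_add, eq_comm, mk_eq_iff hT']
  intro p
  rw [Finsupp.add_apply, scal_apply]
  have h1 := tr_spec hT' q' p
  have h2 := tr_spec hrT q p
  have h3 : nm p (un p r' * (tr (r • T) q p - sc p (r • T) * q)) ≤ 1 := by
    rw [nm_mul, nm_un p r'.ne_zero, one_mul]
    exact h2
  have h4 := nm_add p h1 h3
  have h5 := sc_smul p (r • T) r'
  rw [← nm_neg]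
  have h6 : -(sc p (r' • r • T) * (q' + r' * q) - (tr (r' • r • T) q' p + un p r' * tr (r • T) q p)) =
      (tr (r' • r • T) q' p - sc p (r' • r • T) * q') +
        un p r' * (tr (r • T) q p - sc p (r • T) * q) := by
    rw [h5]
    unfold un
    ring
  rw [h6]
  exact h4

/-- a local condition -/
theorem exists_big {T : AddSubgroup ℚ} (hT : T ≠ ⊥) {q : ℚ} (hq : q ≠ 0) (p : Pr)
    (h : nm p (sc p T * q) ≤ 1) : ∃ x ∈ T, x ≠ 0 ∧ nm p q ≤ nm p x := by
  rcases sc_cases p T with hc | ⟨hno, h0⟩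
  · obtain ⟨x, hx, hx1⟩ := hc.2.2
    have hx0 : x ≠ 0 := by
      rintro rfl
      rw [mul_zero, nm_zero] at hx1
      exact zero_ne_one hx1
    refine ⟨x, hx, hx0, ?_⟩
    rw [← hx1, nm_mul, nm_mul] at h
    exact le_of_mul_le_mul_left h (nm_pos p hc.ne)
  · by_contra hcon
    push Not at hcon
    -- minimal valuation
    obtain ⟨x1, hx1, hx10⟩ := (AddSubgroup.ne_bot_iff_exists_ne_zero).1 hT |>.elim
      fun a ha => (⟨a.1, a.2, fun h => ha (Subtype.ext h)⟩ : ∃ x, x ∈ T ∧ x ≠ 0)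
    have hp1 : (1 : ℚ) < (p : ℕ) := by exact_mod_cast p.2.one_lt
    have hp0 : ((p : ℕ) : ℚ) ≠ 0 := by positivity
    have hval : ∀ x : ℚ, x ≠ 0 → nm p x = ((p : ℕ) : ℚ) ^ (-padicValRat (p : ℕ) x) := fun x hx =>
      padicNorm.eq_zpow_of_nonzero hx
    have hb : ∀ z : ℤ, (∃ x ∈ T, x ≠ 0 ∧ padicValRat (p : ℕ) x = z) → padicValRat (p : ℕ) q ≤ z := by
      rintro z ⟨x, hx, hx0, rfl⟩
      have h1 := hcon x hx hx0
      rw [hval x hx0, hval q hq] at h1
      have h2 := (zpow_lt_zpow_iff_right₀ hp1).1 h1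
      omega
    obtain ⟨z, ⟨x, hx, hx0, hxz⟩, hmin⟩ := Int.exists_least_of_bdd ⟨_, hb⟩ ⟨_, x1, hx1, hx10, rfl⟩
    apply hno
    refine ⟨((p : ℕ) : ℚ) ^ (-z), ?_, ?_, x, hx, ?_⟩
    · rw [nm_zpow, neg_neg, ← zpow_add₀ hp0]
      simp
    · intro y hy
      by_cases hy0 : y = 0
      · rw [hy0, mul_zero, nm_zero]
        exact zero_le_one
      · have h1 := hmin _ ⟨y, hy, hy0, rfl⟩
        rw [nm_mul, nm_zpow, neg_neg, hval y hy0, ← zpow_add₀ hp0]
        exact zpow_le_one_of_nonpos₀ hp1.le (by omega)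
    · rw [nm_mul, nm_zpow, neg_neg, hval x hx0, ← zpow_add₀ hp0, hxz]
      simp

/-- local-global principle -/
theorem mem_iff {T : AddSubgroup ℚ} (hT : T ≠ ⊥) (q : ℚ) :
    (∀ p, nm p (sc p T * q) ≤ 1) ↔ q ∈ T := by
  constructor
  · intro h
    by_cases hq : q = 0
    · rw [hq]; exact T.zero_mem
    classical
    -- denominators
    have hden : ∀ x ∈ T, x ≠ 0 → ((q / x).den : ℚ) * q ∈ T := by
      intro x hx hx0
      have h1 : ((q / x).den : ℚ) * q = (q / x).num • x := by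
        rw [zsmul_eq_mul]
        have h2 : ((q / x).num : ℚ) = (q / x) * (q / x).den := by
          rw [Rat.mul_den_eq_num]
        rw [h2]
        field_simp
      rw [h1]
      exact T.zsmul_mem hx _
    obtain ⟨x1, hx1, hx10⟩ := (AddSubgroup.ne_bot_iff_exists_ne_zero).1 hT |>.elim
      fun a ha => (⟨a.1, a.2, fun h => ha (Subtype.ext h)⟩ : ∃ x, x ∈ T ∧ x ≠ 0)
    have hex : ∃ m : ℕ, 0 < m ∧ (m : ℚ) * q ∈ T :=
      ⟨(q / x1).den, (q / x1).den_pos, hden x1 hx1 hx10⟩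
    obtain ⟨hm0, hmT⟩ := Nat.find_spec hex
    set m0 := Nat.find hex with hm0def
    by_cases h1 : m0 = 1
    · rw [h1] at hmT
      simpa using hmT
    · exfalso
      obtain ⟨p, hp, hpm⟩ := Nat.exists_prime_and_dvd h1
      obtain ⟨x, hx, hx0, hle⟩ := exists_big hT hq ⟨p, hp⟩ (h ⟨p, hp⟩)
      have hnd : ¬ p ∣ (q / x).den := by
        intro hd
        have h2 : ¬ p ∣ (q / x).num.natAbs := by
          intro hn
          have := Nat.dvd_gcd hn hd
          rw [(q / x).reduced.gcd_eq_one] at this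
          exact hp.one_lt.ne' (Nat.dvd_one.1 this)
        have h3 : nm ⟨p, hp⟩ (q / x) = nm ⟨p, hp⟩ ((q / x).num : ℚ) / nm ⟨p, hp⟩ ((q / x).den : ℚ) := by
          conv_lhs => rw [← Rat.num_div_den (q / x)]
          haveI : Fact p.Prime := ⟨hp⟩
          exact padicNorm.div _ _
        haveI : Fact p.Prime := ⟨hp⟩
        have h4 : nm ⟨p, hp⟩ ((q / x).num : ℚ) = 1 :=
          (padicNorm.int_eq_one_iff (p := p) _).2 (fun hh => h2 (Int.natCast_dvd.1 hh))
        have h5 : nm ⟨p, hp⟩ ((q / x).den : ℚ) < 1 := (padicNorm.nat_lt_one_iff (p := p) _).2 hd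
        have h6 : 0 < nm ⟨p, hp⟩ ((q / x).den : ℚ) := nm_pos _ (by
          have := (q / x).den_nz
          exact_mod_cast this)
        have h7 : nm ⟨p, hp⟩ (q / x) ≤ 1 := by
          have : nm ⟨p, hp⟩ (q / x) = nm ⟨p, hp⟩ q / nm ⟨p, hp⟩ x := padicNorm.div _ _
          rw [this]
          exact div_le_one_of_le₀ hle (nm_nonneg _ _)
        rw [h3, h4, div_le_one h6] at h7
        linarith
      have hmem := hden x hx hx0
      set m := (q / x).den with hm
      have hg : (Nat.gcd m0 m : ℚ) * q ∈ T := by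
        have h2 : ((Nat.gcd m0 m : ℤ) : ℚ) = ((m0 * Nat.gcdA m0 m + m * Nat.gcdB m0 m : ℤ) : ℚ) := by
          rw [← Nat.gcd_eq_gcd_ab]
        have h3 : (Nat.gcd m0 m : ℚ) * q =
            (Nat.gcdA m0 m) • ((m0 : ℚ) * q) + (Nat.gcdB m0 m) • ((m : ℚ) * q) := by
          rw [zsmul_eq_mul, zsmul_eq_mul]
          push_cast at h2
          rw [h2]
          ring
        rw [h3]
        exact T.add_mem (T.zsmul_mem hmT _) (T.zsmul_mem hmem _)
      have hgpos : 0 < Nat.gcd m0 m := Nat.gcd_pos_of_pos_left _ hm0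
      have hglt : Nat.gcd m0 m < m0 := by
        refine lt_of_le_of_ne (Nat.gcd_le_left _ hm0) ?_
        intro heq
        apply hnd
        have : m0 ∣ m := by rw [← heq]; exact Nat.gcd_dvd_right _ _
        exact hpm.trans this
      exact Nat.find_min hex hglt ⟨hgpos, hg⟩
  · intro h p
    exact sc_le p h

theorem c_one {T : AddSubgroup ℚ} (hT : T ≠ ⊥) (q : ℚ) (r : ℚˣ) :
    c T q r = 1 ↔ (r = 1 ∧ q ∈ T) := by
  have key : ((tr T q : Pr →₀ ℚ) : MM) = 0 ↔ q ∈ T := by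
    have h1 : (0 : MM) = ((0 : Pr →₀ ℚ) : MM) := rfl
    rw [h1, mk_eq_iff hT, ← mem_iff hT q]
    simp
  constructor
  · intro h
    have h1 : r = 1 := congrArg Gam.r h
    have h2 : ((tr (r • T) q : Pr →₀ ℚ) : MM) = 0 := congrArg Gam.m h
    rw [h1, one_smul] at h2
    exact ⟨h1, key.1 h2⟩
  · rintro ⟨rfl, h⟩
    unfold c
    rw [one_smul, key.2 h]
    rfl

/-! measurability -/

theorem meas_mem (x : ℚ) : Measurable fun T : AddSubgroup ℚ => x ∈ T :=
  (measurable_pi_apply x).comp (comap_measurable fun A : AddSubgroup ℚ => fun v : ℚ => v ∈ A)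

theorem meas_Cs (p : Pr) (s : ℚ) : Measurable fun T : AddSubgroup ℚ => Cs p T s := by
  unfold Cs
  refine measurable_const.and (Measurable.and ?_ ?_)
  · exact Measurable.forall fun x => (meas_mem x).imp measurable_const
  · exact Measurable.exists fun x => (meas_mem x).and measurable_const

theorem meas_sc (p : Pr) (s : ℚ) : Measurable fun T : AddSubgroup ℚ => sc p T = s := by
  have h : (fun T : AddSubgroup ℚ => sc p T = s) =
      fun T => Cs p T s ∨ ((¬ ∃ s', Cs p T s') ∧ s = 0) := by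
    funext T
    apply propext
    constructor
    · rintro rfl
      rcases sc_cases p T with h | ⟨h, h0⟩
      · exact Or.inl h
      · exact Or.inr ⟨h, h0⟩
    · rintro (h | ⟨h, rfl⟩)
      · exact sc_eq h
      · exact sc_zero h
  rw [h]
  exact (meas_Cs p s).or ((Measurable.exists fun s' => meas_Cs p s').not.and measurable_const)

theorem meas_cond (p : Pr) (a b : ℚ) :
    Measurable fun T : AddSubgroup ℚ => nm p (sc p T * a - b) ≤ 1 := by
  have h : (fun T : AddSubgroup ℚ => nm p (sc p T * a - b) ≤ 1) =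
      fun T => ∃ s : ℚ, sc p T = s ∧ nm p (s * a - b) ≤ 1 := by
    funext T
    apply propext
    constructor
    · intro h; exact ⟨_, rfl, h⟩
    · rintro ⟨s, rfl, h⟩; exact h
  rw [h]
  exact Measurable.exists fun s => (meas_sc p s).and measurable_const

theorem meas_c (q : ℚ) (r : ℚˣ) (γ : Gam) :
    MeasurableSet {T : AddSubgroup ℚ | T ≠ ⊥ ∧ c T q r = γ} := by
  obtain ⟨f, hf⟩ := QuotientAddGroup.mk_surjective γ.m
  have h : {T : AddSubgroup ℚ | T ≠ ⊥ ∧ c T q r = γ} =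
      {T : AddSubgroup ℚ | (∃ x : ℚ, x ∈ T ∧ x ≠ 0) ∧ r = γ.r ∧
        ∀ p, nm p (sc p T * (nm p r * q) - f p) ≤ 1} := by
    ext T
    constructor
    · rintro ⟨hT, h⟩
      refine ⟨?_, congrArg Gam.r h, ?_⟩
      · obtain ⟨a, ha⟩ := (AddSubgroup.ne_bot_iff_exists_ne_zero).1 hT
        exact ⟨a.1, a.2, fun h => ha (Subtype.ext h)⟩
      · have h2 : ((tr (r • T) q : Pr →₀ ℚ) : MM) = (f : MM) := (congrArg Gam.m h).trans hf.symm
        intro p
        have h3 := (mk_eq_iff (smul_ne_bot hT r) q f).1 h2 p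
        rw [sc_smul, mul_assoc] at h3
        exact h3
    · rintro ⟨⟨x, hx, hx0⟩, h1, h2⟩
      have hT : T ≠ ⊥ := by
        rintro rfl
        exact hx0 (AddSubgroup.mem_bot.1 hx)
      refine ⟨hT, Gam.ext ?_ h1⟩
      show ((tr (r • T) q : Pr →₀ ℚ) : MM) = γ.m
      rw [← hf]
      refine (mk_eq_iff (smul_ne_bot hT r) q f).2 fun p => ?_
      rw [sc_smul, mul_assoc]
      exact h2 p
  rw [h]
  refine measurableSet_setOf.2 ?_
  refine Measurable.and ?_ (measurable_const.and ?_)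
  · exact Measurable.exists fun x => (meas_mem x).and measurable_const
  · exact Measurable.forall fun p => meas_cond p _ _

theorem t : TaskD1 :=
  ⟨Gam, inferInstance, inferInstance, c, fun _ hT q q' r r' => coc hT q q' r r',
    fun _ hT q r => c_one hT q r, fun q r γ => meas_c q r γ⟩

end

end Pool.Agent.H573R3.D1
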