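import Pool.Agent.H418R3.EF.Stmts

set_option autoImplicit false

/-! TaskD2. -/

namespace Pool.Agent.H418R3.EF.D2s189

open scoped Pointwise
open Pool.Agent.H418R3.EF

/-- triangular -/
def Tri (g : GQ 2) : Prop := g ![0, 1] 0 = 0

def ga (g : GQ 2) : ℚ := g ![1, 0] 0
def gb (g : GQ 2) : ℚ := g ![1, 0] 1
def gd (g : GQ 2) : ℚ := g ![0, 1] 1

lemma tri_apply {g : GQ 2} (hg : Tri g) (v : V 2) :
    g v = ![ga g * v 0, gb g * v 0 + gd g * v 1] := by
  have h1 : v = v 0 • (![1, 0] : V 2) + v 1 • (![0, 1] : V 2) := by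
    ext i; fin_cases i <;> simp
  have h2 : g v = v 0 • g ![1, 0] + v 1 • g ![0, 1] := by
    conv_lhs => rw [h1]
    rw [map_add, map_smul, map_smul]
  have h3 : g ![0, 1] 0 = 0 := hg
  rw [h2]
  ext i
  fin_cases i
  · simp [ga, h3, mul_comm]
  · simp [gb, gd, mul_comm]

lemma gd_ne {g : GQ 2} (hg : Tri g) : gd g ≠ 0 := by
  intro h
  have h1 : g ![0, 1] = 0 := by
    rw [tri_apply hg, h]
    ext i; fin_cases i <;> simp
  have h2 : (![0, 1] : V 2) = 0 := by
    apply g.injective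
    rw [h1, map_zero]
  have := congrFun h2 1
  simp at this

lemma ga_ne {g : GQ 2} (hg : Tri g) : ga g ≠ 0 := by
  intro h
  have hd := gd_ne hg
  have h1 : g ![1, -(gb g / gd g)] = 0 := by
    rw [tri_apply hg, h]
    ext i
    fin_cases i
    · simp
    · simp
      field_simp
      ring
  have h2 : (![1, -(gb g / gd g)] : V 2) = 0 := by
    apply g.injective
    rw [h1, map_zero]
  have := congrFun h2 0
  simp at this

lemma mul_ap (g' g : GQ 2) (v : V 2) : (g' * g) v = g' (g v) := rfl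

lemma tri_mul {g' g : GQ 2} (h' : Tri g') (h : Tri g) :
    Tri (g' * g) ∧ ga (g' * g) = ga g' * ga g ∧ gb (g' * g) = gb g' * ga g + gd g' * gb g ∧
      gd (g' * g) = gd g' * gd g := by
  have h1 : ∀ v : V 2, (g' * g) v = ![ga g' * (ga g * v 0),
      gb g' * (ga g * v 0) + gd g' * (gb g * v 0 + gd g * v 1)] := by
    intro v
    rw [mul_ap, tri_apply h', tri_apply h]
    simp
  refine ⟨?_, ?_, ?_, ?_⟩
  · show (g' * g) ![0, 1] 0 = 0
    rw [h1]; simp
  · show (g' * g) ![1, 0] 0 = _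
    rw [h1]; simp
  · show (g' * g) ![1, 0] 1 = _
    rw [h1]; simp
  · show (g' * g) ![0, 1] 1 = _
    rw [h1]; simp

/-- ratio -/
noncomputable def rr (g : GQ 2) : ℚˣ :=
  if h : gd g / ga g ≠ 0 then Units.mk0 _ h else 1

lemma rr_val {g : GQ 2} (h : Tri g) : ((rr g : ℚˣ) : ℚ) = gd g / ga g := by
  have h1 : gd g / ga g ≠ 0 := div_ne_zero (gd_ne h) (ga_ne h)
  unfold rr
  rw [dif_pos h1]
  rfl

/-- the group of the nilpotent endomorphisms -/
def TT (A : Sn 2) : AddSubgroup ℚ where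
  carrier := {q | ∀ v ∈ A.1, (![0, q * v 0] : V 2) ∈ A.1}
  zero_mem' := by
    intro v _
    have : (![0, 0 * v 0] : V 2) = 0 := by ext i; fin_cases i <;> simp
    rw [this]; exact A.1.zero_mem
  add_mem' := by
    intro a b ha hb v hv
    have : (![0, (a + b) * v 0] : V 2) = ![0, a * v 0] + ![0, b * v 0] := by
      ext i; fin_cases i <;> simp [add_mul]
    rw [this]; exact A.1.add_mem (ha v hv) (hb v hv)
  neg_mem' := by
    intro a ha v hv
    have : (![0, -a * v 0] : V 2) = -![0, a * v 0] := by ext i; fin_cases i <;> simp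
    rw [this]; exact A.1.neg_mem (ha v hv)

lemma mem_TT {A : Sn 2} {q : ℚ} : q ∈ TT A ↔ ∀ v ∈ A.1, (![0, q * v 0] : V 2) ∈ A.1 := Iff.rfl

lemma mem_smul' (g : GQ 2) (A : Sn 2) (v : V 2) : g v ∈ (g • A).1 ↔ v ∈ A.1 := by
  rw [mem_smul]
  have : g⁻¹ (g v) = v := g.symm_apply_apply v
  rw [this]

lemma aut_mem {h : GQ 2} {A : Sn 2} (hh : h • A = A) {v : V 2} (hv : v ∈ A.1) : h v ∈ A.1 := by
  have := (mem_smul' h A v).2 hv
  rwa [hh] at this

lemma aut_inv {h : GQ 2} {A : Sn 2} (hh : h • A = A) : h⁻¹ • A = A := by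
  rw [inv_smul_eq_iff, hh]

/-- rational multiples of the nilpotent part of an automorphism -/
lemma den_mem {h : GQ 2} {A : Sn 2} (hh : h • A = A) (a b : ℚ)
    (hab : ∀ v, h v = ![a * v 0, b * v 0 + a * v 1]) : (a.den : ℚ) * b ∈ TT A := by
  intro v hv
  have h1 : (![0, (a.den : ℚ) * b * v 0] : V 2) = a.den • h v - a.num • v := by
    have h2 : (a.den : ℚ) * a = a.num := by rw [mul_comm]; exact Rat.mul_den_eq_num a
    rw [hab v]
    ext i
    fin_cases i
    · simp
      rw [← mul_assoc, h2]; ring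
    · simp
      linear_combination (-(v 1)) * h2
  rw [h1]
  exact A.1.sub_mem (A.1.nsmul_mem (aut_mem hh hv) _) (A.1.zsmul_mem hv _)

lemma TT_ne {A : Sn 2} (hA : A ∈ PD) : TT A ≠ ⊥ := by
  obtain ⟨h1, h, hh, hns⟩ := hA
  obtain ⟨a, b, hab⟩ := h1 h hh
  have hb : b ≠ 0 := by
    intro hb
    apply hns
    refine ⟨a, fun v => ?_⟩
    rw [hab v, hb]
    ext i; fin_cases i <;> simp
  intro hbot
  have h2 := den_mem hh a b hab
  rw [hbot, AddSubgroup.mem_bot] at h2
  have h3 : (a.den : ℚ) ≠ 0 := by exact_mod_cast a.den_ne_zero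
  exact (mul_ne_zero h3 hb) h2

lemma tri_of_form {h : GQ 2} {a b : ℚ} (hab : ∀ v, h v = ![a * v 0, b * v 0 + a * v 1]) :
    Tri h ∧ ga h = a ∧ gb h = b ∧ gd h = a := by
  refine ⟨?_, ?_, ?_, ?_⟩
  · show h ![0, 1] 0 = 0
    rw [hab]; simp
  · show h ![1, 0] 0 = _
    rw [hab]; simp
  · show h ![1, 0] 1 = _
    rw [hab]; simp
  · show h ![0, 1] 1 = _
    rw [hab]; simp

lemma tri_of {A : Sn 2} {g : GQ 2} (hA : A ∈ PD) (hgA : g • A ∈ PD) : Tri g := by
  obtain ⟨h1, h, hh, hns⟩ := hA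
  obtain ⟨a, b, hab⟩ := h1 h hh
  have h2 : (g * h * g⁻¹) • (g • A) = g • A := by
    rw [mul_smul, mul_smul, inv_smul_smul, hh]
  obtain ⟨a', b', hab'⟩ := hgA.1 _ h2
  have h3 : ∀ v : V 2, g (h v) = (g * h * g⁻¹) (g v) := by
    intro v
    show g (h v) = g (h (g⁻¹ (g v)))
    have : g⁻¹ (g v) = v := g.symm_apply_apply v
    rw [this]
  by_contra hp
  have h4 := h3 ![0, 1]
  have h5 : h ![0, 1] = a • (![0, 1] : V 2) := by
    rw [hab]; ext i; fin_cases i <;> simp
  rw [h5, map_smul, hab'] at h4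
  have h6 := congrFun h4 0
  have h7 := congrFun h4 1
  simp only [Pi.smul_apply, smul_eq_mul, Matrix.cons_val_zero, Matrix.cons_val_one] at h6 h7
  have haa : a = a' := mul_right_cancel₀ hp h6
  have hb' : b' = 0 := by
    rw [haa] at h7
    have h8 : b' * g ![0, 1] 0 = 0 := by linarith
    rcases mul_eq_zero.1 h8 with h9 | h9
    · exact h9
    · exact absurd h9 hp
  apply hns
  refine ⟨a, fun v => ?_⟩
  apply g.injective
  rw [h3 v, hab' (g v), hb', ← haa, map_smul]
  ext i; fin_cases i <;> simp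

lemma TT_smul {A : Sn 2} {g : GQ 2} (hg : Tri g) : TT (g • A) = rr g • TT A := by
  have ha := ga_ne hg
  have hd := gd_ne hg
  ext q
  have h0 : q ∈ rr g • TT A ↔ ∃ s, s ∈ TT A ∧ ((rr g : ℚˣ) : ℚ) * s = q :=
    AddSubgroup.mem_smul_pointwise_iff_exists q ((rr g : ℚˣ) : ℚ) (TT A)
  have h1 : q ∈ rr g • TT A ↔ (ga g / gd g) * q ∈ TT A := by
    rw [h0, rr_val hg]
    constructor
    · rintro ⟨s, hs, rfl⟩
      have : ga g / gd g * (gd g / ga g * s) = s := by field_simp
      rw [this]; exact hs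
    · intro h
      exact ⟨_, h, by field_simp⟩
  rw [h1, mem_TT, mem_TT]
  have key : ∀ v : V 2, (![0, q * (g v) 0] : V 2) = g ![0, ga g / gd g * q * v 0] := by
    intro v
    rw [tri_apply hg v, tri_apply hg]
    ext i
    fin_cases i
    · simp
    · simp
      field_simp
  constructor
  · intro h v hv
    have h2 := h (g v) ((mem_smul' g A v).2 hv)
    rw [key v, mem_smul'] at h2
    exact h2
  · intro h w hw
    have h2 : w = g (g⁻¹ w) := (g.apply_symm_apply w).symm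
    rw [mem_smul] at hw
    rw [h2, key, mem_smul']
    exact h _ hw

/-- automorphisms: the ratio of the coefficients lies in `TT` -/
lemma ratio_mem {h : GQ 2} {A : Sn 2} (hh : h • A = A) (a b : ℚ) (ha : a ≠ 0)
    (hab : ∀ v, h v = ![a * v 0, b * v 0 + a * v 1]) : b / a ∈ TT A := by
  have h1 := den_mem hh a b hab
  have hnum : (a.den : ℚ) * a = a.num := by rw [mul_comm]; exact Rat.mul_den_eq_num a
  have hinv : ∀ v, h⁻¹ v = ![a⁻¹ * v 0, (-b / a ^ 2) * v 0 + a⁻¹ * v 1] := by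
    intro v
    apply h.injective
    have h2 : h (h⁻¹ v) = v := h.apply_symm_apply v
    rw [h2, hab]
    ext i
    fin_cases i
    · simp
      field_simp
    · simp
      field_simp
      ring
  have h2 : (a.num : ℚ) * (-b / a ^ 2) ∈ TT A := by
    intro v hv
    have h3 : (![0, (a.num : ℚ) * (-b / a ^ 2) * v 0] : V 2) = a.num • h⁻¹ v - a.den • v := by
      have h4 : (a.num : ℚ) * a⁻¹ = a.den := by
        rw [← hnum]; field_simp
      rw [hinv v]
      ext i
      fin_cases i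
      · simp
        linear_combination (-(v 0)) * h4
      · simp
        linear_combination (-(v 1)) * h4
    rw [h3]
    exact A.1.sub_mem (A.1.zsmul_mem (aut_mem (aut_inv hh) hv) _) (A.1.nsmul_mem hv _)
  have hcop : IsCoprime (a.num : ℤ) (a.den : ℤ) := by
    rw [Int.isCoprime_iff_gcd_eq_one]
    exact a.reduced
  obtain ⟨x, y, hxy⟩ := hcop
  have hxy' : (x : ℚ) * a.num + (y : ℚ) * a.den = 1 := by exact_mod_cast hxy
  have h5 : b / a = x • ((a.den : ℚ) * b) - y • ((a.num : ℚ) * (-b / a ^ 2)) := by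
    rw [zsmul_eq_mul, zsmul_eq_mul, ← hnum]
    rw [← hnum] at hxy'
    field_simp
    linear_combination (-b) * hxy'
  rw [h5]
  exact (TT A).sub_mem ((TT A).zsmul_mem h1 _) ((TT A).zsmul_mem h2 _)

/-- difference of labels -/
noncomputable def dl (e : ℕ → Sn 2 → ℤ) (y x : Sn 2) : ℕ →₀ ℤ :=
  open Classical in
  if h : (Function.support (fun p => e p y - e p x)).Finite then
    Finsupp.ofSupportFinite (fun p => e p y - e p x) h else 0

lemma dl_apply {e : ℕ → Sn 2 → ℤ} {y x : Sn 2} (he : {p | e p y ≠ e p x}.Finite) (p : ℕ) :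
    dl e y x p = e p y - e p x := by
  have h : (Function.support (fun p => e p y - e p x)).Finite := by
    apply he.subset
    intro q hq
    simp only [Function.mem_support, ne_eq, sub_eq_zero] at hq
    exact hq
  unfold dl
  rw [dif_pos h]
  rfl

/-- value of the cocycle -/
noncomputable def vl {Γ : Type} (c : AddSubgroup ℚ → ℚ → ℚˣ → Γ) (g : GQ 2) (A : Sn 2) : Γ :=
  c (TT A) (gb g / ga g) (rr g)

section
variable {Γ : Type} [Group Γ] {c : AddSubgroup ℚ → ℚ → ℚˣ → Γ}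

lemma vl_mul (h1 : ∀ T : AddSubgroup ℚ, T ≠ ⊥ → ∀ (q q' : ℚ) (r r' : ℚˣ),
    c (r • T) q' r' * c T q r = c T (q' + r' * q) (r' * r))
    {g' g : GQ 2} (hg' : Tri g') (hg : Tri g) {A : Sn 2} (hA : TT A ≠ ⊥) :
    vl c (g' * g) A = vl c g' (g • A) * vl c g A := by
  obtain ⟨t1, t2, t3, t4⟩ := tri_mul hg' hg
  have ha := ga_ne hg
  have ha' := ga_ne hg'
  unfold vl
  rw [TT_smul hg, h1 _ hA]
  have e1 : gb (g' * g) / ga (g' * g) = gb g' / ga g' + (rr g' : ℚ) * (gb g / ga g) := by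
    rw [rr_val hg', t2, t3]
    field_simp
  have e2 : rr (g' * g) = rr g' * rr g := by
    apply Units.ext
    rw [Units.val_mul, rr_val t1, rr_val hg', rr_val hg, t2, t4]
    field_simp
  rw [e1, e2]

lemma vl_aut (h2 : ∀ T : AddSubgroup ℚ, T ≠ ⊥ → ∀ (q : ℚ) (r : ℚˣ),
      c T q r = 1 ↔ (r = 1 ∧ q ∈ T)) {h : GQ 2} {A : Sn 2} (hA : A ∈ PD) (hh : h • A = A) :
    Tri h ∧ vl c h A = 1 := by
  obtain ⟨a, b, hab⟩ := hA.1 h hh
  obtain ⟨t1, t2, t3, t4⟩ := tri_of_form hab
  have ha : a ≠ 0 := by rw [← t2]; exact ga_ne t1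
  refine ⟨t1, ?_⟩
  unfold vl
  rw [h2 _ (TT_ne hA)]
  refine ⟨?_, ?_⟩
  · apply Units.ext
    rw [rr_val t1, t2, t4, div_self ha, Units.val_one]
  · rw [t2, t3]
    exact ratio_mem hh a b ha hab

/-- the cocycle -/
noncomputable def bt (c : AddSubgroup ℚ → ℚ → ℚˣ → Γ) (e : ℕ → Sn 2 → ℤ) (y x : Sn 2) :
    Γ × Multiplicative (ℕ →₀ ℤ) :=
  open Classical in
  if h : ∃ g : GQ 2, g • x = y then (vl c h.choose x, Multiplicative.ofAdd (dl e y x)) else 1

lemma bt_eq (h1 : ∀ T : AddSubgroup ℚ, T ≠ ⊥ → ∀ (q q' : ℚ) (r r' : ℚˣ),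
    c (r • T) q' r' * c T q r = c T (q' + r' * q) (r' * r))
    (h2 : ∀ T : AddSubgroup ℚ, T ≠ ⊥ → ∀ (q : ℚ) (r : ℚˣ),
      c T q r = 1 ↔ (r = 1 ∧ q ∈ T)) (e : ℕ → Sn 2 → ℤ) {g : GQ 2} {x : Sn 2}
    (hx : x ∈ PD) (hgx : g • x ∈ PD) :
    bt c e (g • x) x = (vl c g x, Multiplicative.ofAdd (dl e (g • x) x)) := by
  have hex : ∃ g' : GQ 2, g' • x = g • x := ⟨g, rfl⟩
  unfold bt
  rw [dif_pos hex]
  have hs := hex.choose_spec
  set g1 := hex.choose with hg1
  have hfix : (g1⁻¹ * g) • x = x := by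
    rw [mul_smul, ← hs, inv_smul_smul]
  have ht1 : Tri g1 := tri_of hx (by rw [hs]; exact hgx)
  obtain ⟨ht2, hv⟩ := vl_aut h2 hx hfix
  have h3 := vl_mul h1 ht1 ht2 (TT_ne hx)
  rw [mul_inv_cancel_left, hfix, hv, mul_one] at h3
  rw [h3]

end

lemma meas_TT (hS : TaskStd) : Measurable (TT : Sn 2 → AddSubgroup ℚ) := by
  obtain ⟨_, _, _, _, hm⟩ := hS 2
  apply measurable_comap_iff.2
  apply measurable_pi_iff.2
  intro q
  apply measurableSet_setOf.1
  have : {A : Sn 2 | q ∈ TT A} =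
      ⋂ v : V 2, ({A : Sn 2 | v ∈ A.1}ᶜ ∪ {A : Sn 2 | (![0, q * v 0] : V 2) ∈ A.1}) := by
    ext A
    simp only [Set.mem_setOf_eq, Set.mem_iInter, Set.mem_union, Set.mem_compl_iff, mem_TT]
    constructor
    · intro h v
      by_cases hv : v ∈ A.1
      · exact Or.inr (h v hv)
      · exact Or.inl hv
    · intro h v hv
      rcases h v with h | h
      · exact absurd hv h
      · exact h
  show MeasurableSet {A : Sn 2 | q ∈ TT A}
  rw [this]
  exact MeasurableSet.iInter (fun v => ((hm v).compl).union (hm _))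

lemma eq_of_trivial {g : GQ 2} {x : Sn 2} (hg : Tri g) (hr : rr g = 1)
    (hq : gb g / ga g ∈ TT x) (s : GQ 2) (hs : ∀ v, s v = ga g • v) : g • x = s • x := by
  have ha := ga_ne hg
  have hd : gd g = ga g := by
    have h1 := rr_val hg
    rw [hr, Units.val_one] at h1
    field_simp at h1
    exact h1.symm
  apply Subtype.ext
  ext v
  rw [mem_smul, mem_smul]
  set w := g⁻¹ v with hw
  have hv : v = g w := (g.apply_symm_apply v).symm
  have hsv : s⁻¹ v = w + ![0, gb g / ga g * w 0] := by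
    apply s.injective
    have h2 : s (s⁻¹ v) = v := s.apply_symm_apply v
    rw [h2, hs, hv, tri_apply hg, hd]
    ext i
    fin_cases i
    · simp [Matrix.vecHead]
    · simp [Matrix.vecHead, Matrix.vecTail]
      field_simp
      ring
  rw [hsv]
  constructor
  · intro h
    exact x.1.add_mem h (hq w h)
  · intro h
    have h3 := hq _ h
    have h4 : (w + ![0, gb g / ga g * w 0]) 0 = w 0 := by simp
    rw [h4] at h3
    have h5 := x.1.sub_mem h h3
    rwa [add_sub_cancel_right] at h5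

theorem t : TaskD2 := by
  intro hD1 hE hS hM
  obtain ⟨Γ, iG, iC, c, h1, h2, h3⟩ := hD1
  obtain ⟨e, e1, e2, e3⟩ := hE 2 (by norm_num)
  obtain ⟨hcount, _, hsm, _, hm⟩ := hS 2
  have hPD : MeasurableSet PD := hM.2.2.1
  have hcM : Countable (Multiplicative (ℕ →₀ ℤ)) :=
    inferInstanceAs (Countable (ℕ →₀ ℤ))
  refine ⟨Γ × Multiplicative (ℕ →₀ ℤ), inferInstance, inferInstance, bt c e, fun _ => 0,
    ?_, ?_, ?_, ?_⟩
  · rintro x hx y hy z hz ⟨g, rfl⟩ ⟨g', rfl⟩
    have hz' : (g' * g) • x ∈ PD := by rw [mul_smul]; exact hz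
    have hb1 := bt_eq h1 h2 e hx hy
    have hb2 := bt_eq h1 h2 e hy hz
    have hb3 := bt_eq h1 h2 e hx hz'
    rw [mul_smul] at hb3
    rw [hb1, hb2, hb3]
    apply Prod.ext
    · show vl c (g' * g) x = vl c g' (g • x) * vl c g x
      exact vl_mul h1 (tri_of hy hz) (tri_of hx hy) (TT_ne hx)
    · show Multiplicative.ofAdd (dl e (g' • g • x) x) =
        Multiplicative.ofAdd (dl e (g' • g • x) (g • x)) * Multiplicative.ofAdd (dl e (g • x) x)
      rw [← ofAdd_add]
      congr 1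
      ext p
      rw [Finsupp.add_apply, dl_apply (e2 g' (g • x)), dl_apply (e2 g x), dl_apply]
      · ring
      · rw [← mul_smul]; exact e2 _ _
  · rintro x hx y hy ⟨g, rfl⟩ hb _
    rw [bt_eq h1 h2 e hx hy] at hb
    have hb1 : vl c g x = 1 := congrArg Prod.fst hb
    have hb2 : Multiplicative.ofAdd (dl e (g • x) x) = 1 := congrArg Prod.snd hb
    have hb3 : dl e (g • x) x = 0 := hb2
    have hg := tri_of hx hy
    obtain ⟨hr, hq⟩ := (h2 _ (TT_ne hx) _ _).1 hb1
    have hs := eq_of_trivial hg hr hq (LinearEquiv.smulOfNeZero ℚ (V 2) (ga g) (ga_ne hg))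
      (fun v => rfl)
    have h5 := e3 (LinearEquiv.smulOfNeZero ℚ (V 2) (ga g) (ga_ne hg)) x
      ⟨ga g, fun v => rfl⟩ (by
        intro p
        rw [← hs]
        have := dl_apply (e2 g x) p
        rw [hb3] at this
        simp at this
        linarith)
    rw [hs, h5]
  · intro g γ
    by_cases hg : Tri g
    · have hset : {x | x ∈ PD ∧ g • x ∈ PD ∧ bt c e (g • x) x = γ} =
          (PD ∩ (fun x : Sn 2 => g • x) ⁻¹' PD) ∩
          (TT ⁻¹' {T : AddSubgroup ℚ | T ≠ ⊥ ∧ c T (gb g / ga g) (rr g) = γ.1} ∩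
          ⋂ p : ℕ, {x : Sn 2 | e p (g • x) - e p x = (Multiplicative.toAdd γ.2) p}) := by
        ext x
        simp only [Set.mem_setOf_eq, Set.mem_inter_iff, Set.mem_preimage, Set.mem_iInter]
        constructor
        · rintro ⟨hx, hy, hb⟩
          rw [bt_eq h1 h2 e hx hy] at hb
          subst hb
          refine ⟨⟨hx, hy⟩, ⟨TT_ne hx, rfl⟩, fun p => ?_⟩
          show _ = dl e (g • x) x p
          rw [dl_apply (e2 g x)]
        · rintro ⟨⟨hx, hy⟩, ⟨_, hc⟩, hp⟩
          refine ⟨hx, hy, ?_⟩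
          rw [bt_eq h1 h2 e hx hy]
          apply Prod.ext
          · exact hc
          · show Multiplicative.ofAdd (dl e (g • x) x) = γ.2
            apply Multiplicative.toAdd.injective
            rw [toAdd_ofAdd]
            ext p
            rw [dl_apply (e2 g x), hp p]
      rw [hset]
      refine (hPD.inter (hsm g hPD)).inter ((meas_TT hS (h3 _ _ _)).inter
        (MeasurableSet.iInter (fun p => ?_)))
      have hme : Measurable (e p) := measurable_to_countable' (fun k => e1 p k)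
      have hme2 : Measurable (fun x : Sn 2 => e p (g • x) - e p x) :=
        (hme.comp (hsm g)).sub hme
      exact hme2 (measurableSet_singleton _)
    · have hset : {x | x ∈ PD ∧ g • x ∈ PD ∧ bt c e (g • x) x = γ} = ∅ := by
        ext x
        simp only [Set.mem_setOf_eq, Set.mem_empty_iff_false, iff_false]
        rintro ⟨hx, hy, _⟩
        exact hg (tri_of hx hy)
      rw [hset]
      exact MeasurableSet.empty
  · intro k
    exact hPD.inter (MeasurableSet.const _)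

end Pool.Agent.H418R3.EF.D2s189
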