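import Mathlib
import Pool.Agent.H418R3.EF.Stmts

set_option autoImplicit false

namespace Pool.Agent.H418R3.EF.D2x717

open scoped Pointwise
open Pool.Agent.H418R3.EF

/-- `T_A` -/
def TT (A : Sn 2) : AddSubgroup ℚ where
  carrier := {q | ∀ v ∈ A.1, ![0, q * v 0] ∈ A.1}
  zero_mem' := by
    intro v _
    have : (![0, 0 * v 0] : V 2) = 0 := by ext i; fin_cases i <;> simp
    rw [this]; exact A.1.zero_mem
  add_mem' := by
    intro a b ha hb v hv
    have : (![0, (a + b) * v 0] : V 2) = ![0, a * v 0] + ![0, b * v 0] := by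
      ext i; fin_cases i <;> simp [add_mul]
    rw [this]; exact A.1.add_mem (ha v hv) (hb v hv)
  neg_mem' := by
    intro a ha v hv
    have : (![0, (-a) * v 0] : V 2) = -![0, a * v 0] := by
      ext i; fin_cases i <;> simp
    rw [this]; exact A.1.neg_mem (ha v hv)

theorem mem_TT (A : Sn 2) (q : ℚ) : q ∈ TT A ↔ ∀ v ∈ A.1, ![0, q * v 0] ∈ A.1 := Iff.rfl

def ga (g : GQ 2) : ℚ := g ![1, 0] 0
def gb (g : GQ 2) : ℚ := g ![1, 0] 1
def gd (g : GQ 2) : ℚ := g ![0, 1] 1

def Low (g : GQ 2) : Prop :=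
  (∀ v, g v = ![ga g * v 0, gb g * v 0 + gd g * v 1]) ∧ ga g ≠ 0 ∧ gd g ≠ 0

theorem smul_mem_iff {n : ℕ} (g : GQ n) (A : Sn n) (v : V n) : g v ∈ (g • A).1 ↔ v ∈ A.1 := by
  rw [mem_smul]
  have : g⁻¹ (g v) = v := g.symm_apply_apply v
  rw [this]

theorem exists_of_mem {n : ℕ} (g : GQ n) (A : Sn n) (w : V n) (h : w ∈ (g • A).1) :
    ∃ v ∈ A.1, g v = w := by
  refine ⟨g.symm w, (mem_smul g A w).1 h, g.apply_symm_apply w⟩

theorem low_of (g : GQ 2) (A : Sn 2) (hA : A ∈ PD) (hg : g • A ∈ PD) : Low g := by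
  obtain ⟨hA1, h, hh, hns⟩ := hA
  obtain ⟨a', b', hab⟩ := hA1 h hh
  have h2 : (g * h * g⁻¹) • (g • A) = g • A := by
    rw [smul_smul, inv_mul_cancel_right, mul_smul, hh]
  obtain ⟨a'', b'', hab'⟩ := hg.1 _ h2
  have key : ∀ v, g (h v) = ![a'' * (g v) 0, b'' * (g v) 0 + a'' * (g v) 1] := by
    intro v
    rw [← hab' (g v)]
    change g (h v) = g (h (g.symm (g v)))
    rw [g.symm_apply_apply]
  have h0 : (g ![0, 1]) 0 = 0 := by
    by_contra hne
    have e1 : h ![0, 1] = a' • (![0, 1] : V 2) := by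
      rw [hab]; ext i; fin_cases i <;> simp
    have k := key ![0, 1]
    rw [e1, map_smul] at k
    have k0 := congrFun k 0
    have k1 := congrFun k 1
    simp at k0 k1
    have e2 : a' = a'' := by
      rcases k0 with k0 | k0
      · exact k0
      · exact absurd k0 hne
    subst e2
    have e3 : b'' = 0 := by
      have : b'' * (g ![0, 1]) 0 = 0 := by linarith
      exact (mul_eq_zero.1 this).resolve_right hne
    apply hns
    refine ⟨a', fun v => g.injective ?_⟩
    rw [key, map_smul, e3]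
    ext i; fin_cases i <;> simp
  have hf : ∀ v, g v = ![ga g * v 0, gb g * v 0 + gd g * v 1] := by
    intro v
    have : v = v 0 • (![1, 0] : V 2) + v 1 • (![0, 1] : V 2) := by
      ext i; fin_cases i <;> simp
    conv_lhs => rw [this, map_add, map_smul, map_smul]
    ext i; fin_cases i
    · simp [ga, h0, mul_comm]
    · simp [gb, gd, mul_comm]
  refine ⟨hf, ?_, ?_⟩
  · intro hz
    obtain ⟨v, hv⟩ := g.surjective ![1, 0]
    rw [hf, hz] at hv
    have := congrFun hv 0
    simp at this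
  · intro hz
    have h1 : g ![0, 1] = 0 := by
      rw [hf, hz]; ext i; fin_cases i <;> simp
    have h2 : (![0, 1] : V 2) = 0 := by
      apply g.injective
      rw [h1, map_zero]
    have := congrFun h2 1
    simp at this

theorem ga_mul {g h : GQ 2} (hg : Low g) (hh : Low h) : ga (g * h) = ga g * ga h := by
  change g (h ![1, 0]) 0 = _
  rw [hg.1, hh.1]
  simp

theorem gb_mul {g h : GQ 2} (hg : Low g) (hh : Low h) :
    gb (g * h) = gb g * ga h + gd g * gb h := by
  change g (h ![1, 0]) 1 = _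
  rw [hg.1, hh.1]
  simp

theorem gd_mul {g h : GQ 2} (hg : Low g) (hh : Low h) : gd (g * h) = gd g * gd h := by
  change g (h ![0, 1]) 1 = _
  rw [hg.1, hh.1]
  simp

/-- the ratio -/
noncomputable def rr (g : GQ 2) : ℚˣ := if h : gd g / ga g ≠ 0 then Units.mk0 _ h else 1

noncomputable def qq (g : GQ 2) : ℚ := gb g / ga g

theorem rr_coe {g : GQ 2} (hg : Low g) : ((rr g : ℚˣ) : ℚ) = gd g / ga g := by
  unfold rr
  rw [dif_pos (div_ne_zero hg.2.2 hg.2.1)]
  rfl

theorem mem_smulQ (r : ℚˣ) (T : AddSubgroup ℚ) (q : ℚ) :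
    q ∈ r • T ↔ ((r⁻¹ : ℚˣ) : ℚ) * q ∈ T := by
  change q ∈ ((r : ℚ) • T : AddSubgroup ℚ) ↔ _
  rw [AddSubgroup.mem_smul_pointwise_iff_exists]
  constructor
  · rintro ⟨s, hs, rfl⟩
    simpa using hs
  · intro h
    exact ⟨_, h, by simp [smul_eq_mul]⟩

theorem TT_smul {g : GQ 2} (hg : Low g) (A : Sn 2) : TT (g • A) = rr g • TT A := by
  ext q
  rw [mem_smulQ, mem_TT, mem_TT]
  have e : ∀ v : V 2, (![0, q * (g v) 0] : V 2) =
      g ![0, ((((rr g)⁻¹ : ℚˣ) : ℚ) * q) * v 0] := by
    intro v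
    rw [hg.1, hg.1]
    rw [Units.val_inv_eq_inv_val, rr_coe hg]
    have h2 := hg.2.1
    have h3 := hg.2.2
    ext i; fin_cases i
    · simp
    · simp
      field_simp
  constructor
  · intro h v hv
    have h1 := h (g v) ((smul_mem_iff g A v).2 hv)
    rw [e] at h1
    exact (smul_mem_iff g A _).1 h1
  · intro h w hw
    obtain ⟨v, hv, rfl⟩ := exists_of_mem g A w hw
    rw [e]
    exact (smul_mem_iff g A _).2 (h v hv)

/-- Bezout step for automorphisms -/
theorem aut_mem {A : Sn 2} (hA : A ∈ PD) {h : GQ 2} (hh : h • A = A) :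
    gd h = ga h ∧ qq h ∈ TT A := by
  have hL : Low h := low_of h A hA (by rw [hh]; exact hA)
  obtain ⟨a, b, hab⟩ := hA.1 h hh
  have ea : ga h = a := by unfold ga; rw [hab]; simp
  have eb : gb h = b := by unfold gb; rw [hab]; simp
  have ed : gd h = a := by unfold gd; rw [hab]; simp
  refine ⟨by rw [ea, ed], ?_⟩
  have ha : a ≠ 0 := by rw [← ea]; exact hL.2.1
  unfold qq
  rw [ea, eb]
  -- a = s / t
  have hden : (a.den : ℚ) ≠ 0 := by exact_mod_cast a.den_ne_zero
  have hnum : (a.num : ℚ) ≠ 0 := by exact_mod_cast (Rat.num_ne_zero.2 ha)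
  have hat : a = a.num / a.den := (Rat.num_div_den a).symm
  have hmemh : ∀ v ∈ A.1, h v ∈ A.1 := by
    intro v hv
    have := (smul_mem_iff h A v).2 hv
    rwa [hh] at this
  have hmemi : ∀ v ∈ A.1, ∃ w ∈ A.1, h w = v := by
    intro v hv
    rw [← hh] at hv
    exact exists_of_mem h A v hv
  have zs : ∀ (z : ℤ) (v : V 2), v ∈ A.1 → (z : ℚ) • v ∈ A.1 := by
    intro z v hv
    have : (z : ℚ) • v = z • v := by
      ext i; simp
    rw [this]
    exact A.1.zsmul_mem hv z
  have m1 : (a.num : ℚ) * (b / a) ∈ TT A := by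
    intro v hv
    have h1 := A.1.sub_mem (zs a.den _ (hmemh v hv)) (zs a.num v hv)
    have : (![0, (a.num : ℚ) * (b / a) * v 0] : V 2) =
        ((a.den : ℤ) : ℚ) • h v - (a.num : ℚ) • v := by
      rw [hab]
      have e1 : (a.num : ℚ) = a * a.den := by
        rw [eq_comm]; exact Rat.mul_den_eq_num a
      ext i; fin_cases i
      · simp
        rw [e1]; ring
      · simp
        rw [e1]; field_simp; ring
    rw [this]
    exact h1
  have m2 : (a.den : ℚ) * (b / a) ∈ TT A := by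
    intro v hv
    obtain ⟨w, hw, hwv⟩ := hmemi v hv
    have h1 := A.1.sub_mem (zs a.den v hv) (zs a.num w hw)
    have : (![0, (a.den : ℚ) * (b / a) * v 0] : V 2) =
        ((a.den : ℤ) : ℚ) • v - (a.num : ℚ) • w := by
      rw [← hwv, hab]
      have e1 : (a.num : ℚ) = a * a.den := by
        rw [eq_comm]; exact Rat.mul_den_eq_num a
      ext i; fin_cases i
      · simp
        rw [e1]; ring
      · simp
        rw [e1]; field_simp; ring
    rw [this]
    exact h1
  have hco : IsCoprime a.num (a.den : ℤ) := by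
    rw [Int.isCoprime_iff_nat_coprime]
    simpa using a.reduced
  obtain ⟨u, w, huw⟩ := hco
  have h3 : b / a = u • ((a.num : ℚ) * (b / a)) + w • ((a.den : ℚ) * (b / a)) := by
    have : ((u * a.num + w * a.den : ℤ) : ℚ) = 1 := by rw [huw]; simp
    push_cast at this
    simp only [zsmul_eq_mul]
    calc b / a = 1 * (b / a) := (one_mul _).symm
      _ = (u * a.num + w * a.den) * (b / a) := by rw [this]
      _ = _ := by ring
  rw [h3]
  exact (TT A).add_mem ((TT A).zsmul_mem m1 u) ((TT A).zsmul_mem m2 w)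

theorem TT_ne {A : Sn 2} (hA : A ∈ PD) : TT A ≠ ⊥ := by
  obtain ⟨hA1, h, hh, hns⟩ := hA
  have h1 := (aut_mem ⟨hA1, h, hh, hns⟩ hh).2
  obtain ⟨a, b, hab⟩ := hA1 h hh
  have hL : Low h := low_of h A ⟨hA1, h, hh, hns⟩ (by rw [hh]; exact ⟨hA1, h, hh, hns⟩)
  intro hbot
  rw [hbot, AddSubgroup.mem_bot] at h1
  have ea : ga h = a := by unfold ga; rw [hab]; simp
  have eb : gb h = b := by unfold gb; rw [hab]; simp
  unfold qq at h1
  rw [div_eq_zero_iff] at h1
  rcases h1 with h1 | h1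
  · apply hns
    refine ⟨a, fun v => ?_⟩
    rw [hab, ← eb, h1]
    ext i; fin_cases i <;> simp
  · exact hL.2.1 h1

theorem Low.mul {g h : GQ 2} (hg : Low g) (hh : Low h) : Low (g * h) := by
  have ea := ga_mul hg hh
  have eb := gb_mul hg hh
  have ed := gd_mul hg hh
  refine ⟨fun v => ?_, ?_, ?_⟩
  · change g (h v) = _
    rw [hg.1, hh.1, ea, eb, ed]
    ext i; fin_cases i
    · simp; ring
    · simp; ring
  · rw [ea]; exact mul_ne_zero hg.2.1 hh.2.1
  · rw [ed]; exact mul_ne_zero hg.2.2 hh.2.2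

theorem qq_mul {g h : GQ 2} (hg : Low g) (hh : Low h) :
    qq (g * h) = qq g + ((rr g : ℚˣ) : ℚ) * qq h := by
  rw [rr_coe hg]
  unfold qq
  rw [ga_mul hg hh, gb_mul hg hh]
  have h1 := hg.2.1
  have h2 := hh.2.1
  field_simp

theorem rr_mul {g h : GQ 2} (hg : Low g) (hh : Low h) : rr (g * h) = rr g * rr h := by
  ext
  rw [Units.val_mul, rr_coe hg, rr_coe hh, rr_coe (Low.mul hg hh), ga_mul hg hh, gd_mul hg hh]
  have h1 := hg.2.1
  have h2 := hh.2.1
  field_simp

theorem rr_aut {A : Sn 2} (hA : A ∈ PD) {h : GQ 2} (hh : h • A = A) : rr h = 1 := by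
  have hL : Low h := low_of h A hA (by rw [hh]; exact hA)
  ext
  rw [rr_coe hL, (aut_mem hA hh).1]
  exact div_self hL.2.1

theorem scal_eq {A : Sn 2} {g : GQ 2} (hg : Low g) (hr : rr g = 1) (hq : qq g ∈ TT A) :
    ∃ s : GQ 2, IsScal s ∧ g • A = s • A := by
  have had : gd g = ga g := by
    have := rr_coe hg
    rw [hr] at this
    rw [eq_comm, Units.val_one, div_eq_one_iff_eq hg.2.1] at this
    exact this
  refine ⟨LinearEquiv.smulOfNeZero ℚ (V 2) (ga g) hg.2.1, ⟨ga g, fun v => rfl⟩, ?_⟩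
  set s : GQ 2 := LinearEquiv.smulOfNeZero ℚ (V 2) (ga g) hg.2.1 with hs
  have hsv : ∀ v, s v = ga g • v := fun v => rfl
  have hb : gb g = ga g * qq g := by
    unfold qq
    have := hg.2.1
    field_simp
  have e1 : ∀ w : V 2, g w = s (w + ![0, qq g * w 0]) := by
    intro w
    rw [hg.1, hsv, had, hb]
    ext i; fin_cases i
    · change ga g * w 0 = ga g * (w 0 + 0)
      ring
    · change ga g * qq g * w 0 + ga g * w 1 = ga g * (w 1 + qq g * w 0)
      ring
  have e2 : ∀ w : V 2, s w = g (w - ![0, qq g * w 0]) := by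
    intro w
    rw [hg.1, hsv, had, hb]
    ext i; fin_cases i
    · simp
    · simp; ring
  apply Subtype.ext
  ext v
  constructor
  · intro hv
    obtain ⟨w, hw, rfl⟩ := exists_of_mem g A v hv
    rw [e1]
    exact (smul_mem_iff s A _).2 (A.1.add_mem hw (hq w hw))
  · intro hv
    obtain ⟨w, hw, rfl⟩ := exists_of_mem s A v hv
    rw [e2]
    exact (smul_mem_iff g A _).2 (A.1.sub_mem hw (hq w hw))

theorem TT_meas (hmem : ∀ v : V 2, MeasurableSet {A : Sn 2 | v ∈ A.1}) :
    Measurable (TT : Sn 2 → AddSubgroup ℚ) := by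
  have h1 : ∀ q : ℚ, MeasurableSet {A : Sn 2 | q ∈ TT A} := by
    intro q
    have : {A : Sn 2 | q ∈ TT A} =
        ⋂ v : V 2, ({A : Sn 2 | v ∈ A.1}ᶜ ∪ {A : Sn 2 | (![0, q * v 0] : V 2) ∈ A.1}) := by
      ext A
      simp only [Set.mem_iInter, Set.mem_union, Set.mem_compl_iff]
      constructor
      · intro h v
        by_cases hv : v ∈ A.1
        · exact Or.inr (h v hv)
        · exact Or.inl hv
      · intro h v hv
        rcases h v with h1 | h1
        · exact absurd hv h1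
        · exact h1
    rw [this]
    exact MeasurableSet.iInter fun v => (hmem v).compl.union (hmem _)
  refine measurable_comap_iff.2 ?_
  refine measurable_pi_iff.2 fun q => ?_
  exact measurableSet_setOf.1 (h1 q)

theorem t : TaskD2 := by
  intro hD1 hE hStd hMeas
  obtain ⟨Γ, iG, iC, c, hc1, hc2, hc3⟩ := hD1
  obtain ⟨e, he1, he2, he3⟩ := hE 2 (by norm_num)
  obtain ⟨hcount, hsb, hsm, hst, hmem⟩ := hStd 2
  obtain ⟨-, -, hPD, -⟩ := hMeas
  classical
  let ef : Sn 2 → Sn 2 → (ℕ →₀ ℤ) := fun B A =>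
    if h : (Function.support fun p => e p B - e p A).Finite then
      Finsupp.ofSupportFinite (fun p => e p B - e p A) h else 0
  have hef : ∀ (g : GQ 2) (A : Sn 2) (p : ℕ), ef (g • A) A p = e p (g • A) - e p A := by
    intro g A p
    have h : (Function.support fun p => e p (g • A) - e p A).Finite := by
      refine (he2 g A).subset ?_
      intro p hp
      exact fun h => hp (sub_eq_zero.2 h)
    simp only [ef]
    rw [dif_pos h]
    rfl
  let β : Sn 2 → Sn 2 → Γ × Multiplicative (ℕ →₀ ℤ) := fun B A =>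
    (if h : ∃ g : GQ 2, g • A = B then c (TT A) (qq h.choose) (rr h.choose) else 1,
      Multiplicative.ofAdd (ef B A))
  have key : ∀ (g : GQ 2) (A : Sn 2), A ∈ PD → g • A ∈ PD →
      β (g • A) A = (c (TT A) (qq g) (rr g), Multiplicative.ofAdd (ef (g • A) A)) := by
    intro g A hA hgA
    have hex : ∃ g' : GQ 2, g' • A = g • A := ⟨g, rfl⟩
    simp only [β]
    rw [dif_pos hex]
    have hh := hex.choose_spec
    set h := hex.choose with hhd
    have hk : (g⁻¹ * h) • A = A := by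
      rw [mul_smul, hh, inv_smul_smul]
    have hgk : h = g * (g⁻¹ * h) := by rw [mul_inv_cancel_left]
    set k := g⁻¹ * h with hkd
    have hLg : Low g := low_of g A hA hgA
    have hLk : Low k := low_of k A hA (by rw [hk]; exact hA)
    rw [hgk, qq_mul hLg hLk, rr_mul hLg hLk, ← hc1 (TT A) (TT_ne hA), rr_aut hA hk,
      (hc2 (TT A) (TT_ne hA) (qq k) 1).2 ⟨rfl, (aut_mem hA hk).2⟩, mul_one, one_smul]
  refine ⟨Γ × Multiplicative (ℕ →₀ ℤ), inferInstance, ?_, β, fun _ => 0, ?_, ?_, ?_, ?_⟩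
  · haveI : Countable (Multiplicative (ℕ →₀ ℤ)) := inferInstanceAs (Countable (ℕ →₀ ℤ))
    infer_instance
  · rintro x hx y hy z hz ⟨g, rfl⟩ ⟨h, rfl⟩
    have hLg := low_of g x hx hy
    have hLh := low_of h (g • x) hy hz
    rw [key g x hx hy, key h (g • x) hy hz, TT_smul hLg]
    have h1 : h • g • x = (h * g) • x := (mul_smul h g x).symm
    have h2 := key (h * g) x hx (by rw [← h1]; exact hz)
    rw [← h1] at h2
    rw [h2, qq_mul hLh hLg, rr_mul hLh hLg, Prod.mk_mul_mk, hc1 (TT x) (TT_ne hx)]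
    congr 1
    rw [← ofAdd_add]
    congr 1
    ext p
    rw [Finsupp.add_apply, hef, hef]
    have h3 := hef (h * g) x p
    rw [← h1] at h3
    rw [h3]
    ring
  · rintro x hx y hy ⟨g, rfl⟩ hβ -
    rw [key g x hx hy, Prod.mk_eq_one] at hβ
    have hLg := low_of g x hx hy
    obtain ⟨h1, h2⟩ := (hc2 (TT x) (TT_ne hx) _ _).1 hβ.1
    obtain ⟨s, hs, hgs⟩ := scal_eq hLg h1 h2
    have h3 : ∀ p, e p (s • x) = e p x := by
      intro p
      rw [← hgs]
      have h4 : ef (g • x) x = 0 := hβ.2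
      have h5 := hef g x p
      rw [h4] at h5
      have h6 : (0 : ℤ) = e p (g • x) - e p x := h5
      linarith
    rw [hgs]
    exact (he3 s x hs h3).symm
  · intro g γ
    have heq : {x : Sn 2 | x ∈ PD ∧ g • x ∈ PD ∧ β (g • x) x = γ} =
        (PD ∩ (fun x : Sn 2 => g • x) ⁻¹' PD) ∩
        (TT ⁻¹' {T : AddSubgroup ℚ | T ≠ ⊥ ∧ c T (qq g) (rr g) = γ.1} ∩
          ⋂ p : ℕ, {x : Sn 2 | e p (g • x) - e p x = (Multiplicative.toAdd γ.2) p}) := by
      ext x
      constructor
      · rintro ⟨h1, h2, h3⟩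
        rw [key g x h1 h2] at h3
        subst h3
        refine ⟨⟨h1, h2⟩, ⟨TT_ne h1, rfl⟩, ?_⟩
        rw [Set.mem_iInter]
        intro p
        exact (hef g x p).symm
      · rintro ⟨⟨h1, h2⟩, ⟨h3, h4⟩, h5⟩
        refine ⟨h1, h2, ?_⟩
        rw [key g x h1 h2]
        refine Prod.ext h4 ?_
        apply Multiplicative.toAdd.injective
        change ef (g • x) x = Multiplicative.toAdd γ.2
        ext p
        rw [hef]
        exact (Set.mem_iInter.1 h5) p
    rw [heq]
    refine (hPD.inter (hsm g hPD)).inter ((TT_meas hmem (hc3 _ _ _)).inter ?_)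
    refine MeasurableSet.iInter fun p => ?_
    have hm : Measurable (e p) := measurable_to_countable' fun k => he1 p k
    have hm2 : Measurable fun x : Sn 2 => e p (g • x) - e p x := (hm.comp (hsm g)).sub hm
    exact hm2 (measurableSet_singleton ((Multiplicative.toAdd γ.2) p))
  · intro k
    by_cases hk : (0 : ℕ) = k
    · have : {x : Sn 2 | x ∈ PD ∧ (0 : ℕ) = k} = PD := by
        ext x; simp [hk]
      rw [this]; exact hPD
    · have : {x : Sn 2 | x ∈ PD ∧ (0 : ℕ) = k} = ∅ := by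
        ext x; simp [hk]
      rw [this]; exact MeasurableSet.empty

end Pool.Agent.H418R3.EF.D2x717

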