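import Pool.Agent.H418R3.EF.Stmts

/-! Task Glue of project H418-EF. -/

namespace Pool.Agent.H418R3.EF.Glue511

open Pool.Agent.H418R3.EF

/-- A measurable choice of an index which only depends on the set of admissible indices. -/
theorem pick {X κ : Type} [MeasurableSpace X] [Countable κ] (R : κ → Set X)
    (hR : ∀ k, MeasurableSet (R k)) (hc : ∀ x, ∃ k, x ∈ R k) :
    ∃ f : X → κ, (∀ x, x ∈ R (f x)) ∧ (∀ k, MeasurableSet {x | f x = k}) ∧
      ∀ x y, (∀ k, x ∈ R k ↔ y ∈ R k) → f x = f y := by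
  classical
  obtain ⟨e, he⟩ := exists_injective_nat κ
  have key : ∀ x, ∃ k, x ∈ R k ∧ ∀ j, x ∈ R j → e k ≤ e j := by
    intro x
    have hne : ∃ n, ∃ k, e k = n ∧ x ∈ R k := by
      obtain ⟨k, hk⟩ := hc x
      exact ⟨e k, k, rfl, hk⟩
    obtain ⟨k, hk1, hk2⟩ := Nat.find_spec hne
    refine ⟨k, hk2, fun j hj => ?_⟩
    rw [hk1]
    exact Nat.find_min' hne ⟨j, rfl, hj⟩
  choose f hf1 hf2 using key
  refine ⟨f, hf1, ?_, ?_⟩
  · intro k
    have e1 : {x | f x = k} = R k ∩ ⋂ j, {x | e j < e k → x ∉ R j} := by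
      ext x
      simp only [Set.mem_ofPred_eq, Set.mem_inter_iff, Set.mem_iInter]
      constructor
      · rintro rfl
        refine ⟨hf1 x, fun j hj hx => ?_⟩
        have := hf2 x j hx
        omega
      · rintro ⟨h1, h2⟩
        apply he
        refine le_antisymm (hf2 x k h1) ?_
        by_contra hlt
        exact h2 (f x) (not_le.1 hlt) (hf1 x)
    rw [e1]
    refine (hR k).inter (MeasurableSet.iInter fun j => ?_)
    by_cases hj : e j < e k
    · have : {x | e j < e k → x ∉ R j} = (R j)ᶜ := by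
        ext x
        simp [hj]
      rw [this]
      exact (hR j).compl
    · have : {x | e j < e k → x ∉ R j} = Set.univ := by
        ext x
        simp [hj]
      rw [this]
      exact MeasurableSet.univ
  · intro x y hxy
    apply he
    exact le_antisymm (hf2 x _ ((hxy _).2 (hf1 y))) (hf2 y _ ((hxy _).1 (hf1 x)))

theorem t : TaskGlue := by
  classical
  intro G _ _ X _ _ hG ι _ P hP hcoc hcov
  choose Γ iG iC β ℓ h1 h2 h3 h4 using hcoc
  obtain ⟨eG, heG⟩ := exists_injective_nat G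
  -- the invariant index
  obtain ⟨i, hi1, hi2, hi3⟩ := pick (fun i : ι => ⋃ g : G, (fun x : X => g • x) ⁻¹' P i)
    (fun i => MeasurableSet.iUnion fun g => hG g (hP i)) (by
      intro x
      obtain ⟨i, g, hg⟩ := hcov x
      exact ⟨i, Set.mem_iUnion.2 ⟨g, hg⟩⟩)
  have hinv : ∀ (g : G) (x : X), i (g • x) = i x := by
    intro g x
    apply hi3
    intro k
    simp only [Set.mem_iUnion, Set.mem_preimage]
    constructor
    · rintro ⟨a, ha⟩
      exact ⟨a * g, by rwa [mul_smul]⟩
    · rintro ⟨a, ha⟩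
      exact ⟨a * g⁻¹, by rwa [mul_smul, inv_smul_smul]⟩
  -- the translation
  obtain ⟨j, hj1, hj2, -⟩ := pick
    (fun g : G => ⋃ k : ι, {x : X | i x = k} ∩ (fun x : X => g • x) ⁻¹' P k)
    (fun g => MeasurableSet.iUnion fun k => (hi2 k).inter (hG g (hP k))) (by
      intro x
      obtain ⟨g, hg⟩ := Set.mem_iUnion.1 (hi1 x)
      exact ⟨g, Set.mem_iUnion.2 ⟨i x, rfl, hg⟩⟩)
  have hr : ∀ x, j x • x ∈ P (i x) := by
    intro x
    obtain ⟨k, hk1, hk2⟩ := Set.mem_iUnion.1 (hj1 x)
    have hk1' : i x = k := hk1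
    subst hk1'
    exact hk2
  obtain ⟨S, hS⟩ : ∃ S : (k : ι) → Γ k → Multiplicative (Π₀ k : ι, Additive (Γ k)),
      ∀ k c, S k c = Multiplicative.ofAdd
        (DFinsupp.single (β := fun k => Additive (Γ k)) k (Additive.ofMul c)) :=
    ⟨fun k c => Multiplicative.ofAdd
        (DFinsupp.single (β := fun k => Additive (Γ k)) k (Additive.ofMul c)), fun k c => rfl⟩
  have hSm : ∀ k c d, S k (c * d) = S k c * S k d := by
    intro k c d
    rw [hS, hS, hS, ofMul_mul, DFinsupp.single_add, ofAdd_add]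
  have hS1 : ∀ k c, S k c = 1 → c = 1 := by
    intro k c h
    rw [hS] at h
    have h5 : (DFinsupp.single (β := fun k => Additive (Γ k)) k (Additive.ofMul c)) = 0 := h
    rw [DFinsupp.single_eq_zero] at h5
    exact h5
  obtain ⟨B, hB⟩ : ∃ B : ι → X → X → Multiplicative (Π₀ k : ι, Additive (Γ k)),
      ∀ k y x, B k y x = S k (β k (j y • y) (j x • x)) :=
    ⟨fun k y x => S k (β k (j y • y) (j x • x)), fun k y x => rfl⟩
  have hcA : ∀ k, Countable (Additive (Γ k)) := fun k => iC k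
  have hcD : Countable (Π₀ k : ι, Additive (Γ k)) := inferInstance
  have hcM : Countable (Multiplicative (Π₀ k : ι, Additive (Γ k))) := hcD
  refine ⟨Multiplicative (Π₀ k : ι, Additive (Γ k)), inferInstance, hcM,
    fun y x => B (i x) y x,
    fun x => Nat.pair (eG (j x)) (ℓ (i x) (j x • x)), ?_, ?_, ?_, ?_⟩
  · rintro x - y - z - ⟨g, rfl⟩ ⟨g', rfl⟩
    have ey : i (g • x) = i x := hinv g x
    have ez : i (g' • g • x) = i x := by rw [hinv, hinv]
    have hy := hr (g • x)
    have hz := hr (g' • g • x)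
    rw [ey] at hy
    rw [ez] at hz
    have h := h1 (i x) (j x • x) (hr x) (j (g • x) • g • x) hy
      (j (g' • g • x) • g' • g • x) hz
      ⟨j (g • x) * g * (j x)⁻¹, by rw [mul_smul, mul_smul, inv_smul_smul]⟩
      ⟨j (g' • g • x) * g' * (j (g • x))⁻¹, by rw [mul_smul, mul_smul, inv_smul_smul]⟩
    show B (i x) (g' • g • x) x = B (i (g • x)) (g' • g • x) (g • x) * B (i x) (g • x) x
    rw [ey, hB, hB, hB, h, hSm]
  · rintro x - y - ⟨g, rfl⟩ hb hl
    have ey : i (g • x) = i x := hinv g x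
    have hy := hr (g • x)
    rw [ey] at hy
    have hb' : β (i x) (j (g • x) • g • x) (j x • x) = 1 := by
      apply hS1
      rw [← hB]
      exact hb
    have hl' := Nat.pair_eq_pair.1 hl
    rw [ey] at hl'
    have hj : j x = j (g • x) := heG hl'.1
    have h := h2 (i x) (j x • x) (hr x) (j (g • x) • g • x) hy
      ⟨j (g • x) * g * (j x)⁻¹, by rw [mul_smul, mul_smul, inv_smul_smul]⟩ hb' hl'.2
    rw [← hj] at h
    exact smul_left_cancel _ h
  · intro g γ
    have e1 : {x : X | x ∈ Set.univ ∧ g • x ∈ Set.univ ∧ B (i x) (g • x) x = γ} =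
        ⋃ (k : ι) (a : G) (b : G) (c : Γ k), ({x : X | i x = k} ∩ {x | j x = a} ∩
          (fun x : X => g • x) ⁻¹' {x | j x = b} ∩
          (fun x : X => a • x) ⁻¹' {x | x ∈ P k ∧ (b * g * a⁻¹) • x ∈ P k ∧
            β k ((b * g * a⁻¹) • x) x = c}) ∩
          {x : X | S k c = γ} := by
      ext x
      simp only [Set.mem_ofPred_eq, Set.mem_univ, true_and, Set.mem_iUnion, Set.mem_inter_iff,
        Set.mem_preimage]
      have e2 : ∀ a b : G, (b * g * a⁻¹) • a • x = b • g • x := by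
        intro a b
        rw [mul_smul, mul_smul, inv_smul_smul]
      constructor
      · intro hx
        rw [hB] at hx
        refine ⟨i x, j x, j (g • x), β (i x) (j (g • x) • g • x) (j x • x),
          ⟨⟨⟨rfl, rfl⟩, rfl⟩, hr x, ?_, ?_⟩, hx⟩
        · rw [e2]
          have := hr (g • x)
          rwa [hinv] at this
        · rw [e2]
      · rintro ⟨k, a, b, c, ⟨⟨⟨rfl, rfl⟩, rfl⟩, -, -, hc⟩, hx⟩
        rw [e2] at hc
        rw [hB, hc]
        exact hx
    rw [e1]
    refine MeasurableSet.iUnion fun k => MeasurableSet.iUnion fun a => MeasurableSet.iUnion fun b =>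
      MeasurableSet.iUnion fun c => ?_
    exact ((((hi2 k).inter (hj2 a)).inter (hG g (hj2 b))).inter
      (hG a (h3 k (b * g * a⁻¹) c))).inter (MeasurableSet.const _)
  · intro n
    have e1 : {x : X | x ∈ Set.univ ∧ Nat.pair (eG (j x)) (ℓ (i x) (j x • x)) = n} =
        ⋃ (k : ι) (a : G), ({x : X | i x = k} ∩ {x | j x = a} ∩
          (fun x : X => a • x) ⁻¹' {x | x ∈ P k ∧ ℓ k x = n.unpair.2}) ∩
          {x : X | eG a = n.unpair.1} := by
      ext x
      simp only [Set.mem_ofPred_eq, Set.mem_univ, true_and, Set.mem_iUnion, Set.mem_inter_iff,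
        Set.mem_preimage]
      constructor
      · rintro rfl
        refine ⟨i x, j x, ⟨⟨rfl, rfl⟩, hr x, ?_⟩, ?_⟩
        · rw [Nat.unpair_pair]
        · rw [Nat.unpair_pair]
      · rintro ⟨k, a, ⟨⟨rfl, rfl⟩, -, hl⟩, hx⟩
        rw [hl, hx, Nat.pair_unpair]
    rw [e1]
    refine MeasurableSet.iUnion fun k => MeasurableSet.iUnion fun a => ?_
    exact (((hi2 k).inter (hj2 a)).inter (hG a (h4 k n.unpair.2))).inter (MeasurableSet.const _)

end Pool.Agent.H418R3.EF.Glue511
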