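import Pool.Agent.H418R3.EF.Stmts

set_option autoImplicit false

/-! TaskIdx of H418-EF (helper109): index two extension of cocycle data by the wreath product. -/

namespace Pool.Agent.H418R3.EF.Idx109
open Pool.Agent.H418R3.EF

section
variable {G : Type} [Group G] {X : Type} [MulAction G X]

/-- representatives of the two cosets -/
def rep (σ : G) (q : ℤˣ) : G := if q = 1 then 1 else σ

lemma rep_one (σ : G) : rep σ 1 = 1 := if_pos rfl
lemma rep_neg (σ : G) : rep σ (-1) = σ := if_neg (by decide)

open Classical in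
/-- which coset -/
noncomputable def jj (H : Subgroup G) (y x : X) : ℤˣ := if ∃ h : H, h • x = y then 1 else -1

/-- the cocycle -/
noncomputable def bet {Γ : Type} (β : X → X → Γ) (H : Subgroup G) (σ : G) (y x : X) :
    RegularWreathProduct Γ ℤˣ :=
  ⟨fun q => β (rep σ q • y) (rep σ (q * jj H y x) • x), jj H y x⟩

lemma jj_pos {H : Subgroup G} {y x : X} (h : ∃ h : H, h • x = y) : jj H y x = 1 := if_pos h
lemma jj_neg {H : Subgroup G} {y x : X} (h : ¬ ∃ h : H, h • x = y) : jj H y x = -1 := if_neg h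
lemma jj_one {H : Subgroup G} {y x : X} (h : jj H y x = 1) : ∃ h : H, h • x = y := by
  by_contra h1
  rw [jj_neg h1] at h
  exact absurd h (by decide)

variable {H : Subgroup G} {σ : G} {P : Set X}

lemma key (h1 : ∀ h ∈ H, σ * h * σ⁻¹ ∈ H) (h3 : σ * σ ∈ H)
    (h7 : ∀ x ∈ P, ∀ g : G, g • x ∈ P → g ∈ H ∨ σ⁻¹ * g ∈ H)
    {x y : X} (hx : x ∈ P) (hy : y ∈ P) (hg : ∃ g : G, g • x = y) (q : ℤˣ) :
    ∃ h : H, h • (rep σ (q * jj H y x) • x) = rep σ q • y := by
  by_cases hj : ∃ h : H, h • x = y
  · rw [jj_pos hj, mul_one]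
    obtain ⟨h, rfl⟩ := hj
    rcases Int.units_eq_one_or q with rfl | rfl
    · exact ⟨h, by rw [rep_one, one_smul, one_smul]⟩
    · refine ⟨⟨σ * h * σ⁻¹, h1 h h.2⟩, ?_⟩
      rw [rep_neg, Subgroup.smul_def, Subgroup.smul_def, ← mul_smul, ← mul_smul]
      congr 1
      show σ * (h : G) * σ⁻¹ * σ = σ * h
      group
  · rw [jj_neg hj]
    obtain ⟨g, rfl⟩ := hg
    have h0 : σ⁻¹ * g ∈ H := by
      rcases h7 x hx g hy with h | h
      · exact absurd ⟨⟨g, h⟩, rfl⟩ hj
      · exact h
    rcases Int.units_eq_one_or q with rfl | rfl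
    · refine ⟨⟨σ * (σ⁻¹ * g) * σ⁻¹, h1 _ h0⟩, ?_⟩
      rw [one_mul, rep_neg, rep_one, one_smul, Subgroup.smul_def, ← mul_smul]
      congr 1
      show σ * (σ⁻¹ * g) * σ⁻¹ * σ = g
      group
    · refine ⟨⟨σ * σ * (σ⁻¹ * g), H.mul_mem h3 h0⟩, ?_⟩
      have : (-1 : ℤˣ) * -1 = 1 := by decide
      rw [this, rep_neg, rep_one, one_smul, Subgroup.smul_def, ← mul_smul]
      congr 1
      show σ * σ * (σ⁻¹ * g) = σ * g
      group

lemma jmul (h1 : ∀ h ∈ H, σ * h * σ⁻¹ ∈ H) (h3 : σ * σ ∈ H)
    (h7 : ∀ x ∈ P, ∀ g : G, g • x ∈ P → g ∈ H ∨ σ⁻¹ * g ∈ H)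
    {x y z : X} (hx : x ∈ P) (hy : y ∈ P) (hz : z ∈ P) (hg : ∃ g : G, g • x = y)
    (hg' : ∃ g : G, g • y = z) : jj H z x = jj H z y * jj H y x := by
  by_cases a1 : ∃ h : H, h • x = y
  · by_cases a2 : ∃ h : H, h • y = z
    · obtain ⟨k1, rfl⟩ := a1
      obtain ⟨k2, rfl⟩ := a2
      rw [jj_pos (⟨k2 * k1, mul_smul _ _ _⟩ : ∃ h : H, h • x = k2 • k1 • x), jj_pos ⟨k2, rfl⟩,
        jj_pos ⟨k1, rfl⟩, mul_one]
    · have a3 : ¬ ∃ h : H, h • x = z := by
        rintro ⟨k, rfl⟩
        obtain ⟨k1, rfl⟩ := a1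
        exact a2 ⟨k * k1⁻¹, by rw [mul_smul, inv_smul_smul]⟩
      rw [jj_pos a1, jj_neg a2, jj_neg a3, mul_one]
  · by_cases a2 : ∃ h : H, h • y = z
    · have a3 : ¬ ∃ h : H, h • x = z := by
        rintro ⟨k, rfl⟩
        obtain ⟨k2, hk2⟩ := a2
        exact a1 ⟨k2⁻¹ * k, by rw [mul_smul, ← hk2, inv_smul_smul]⟩
      rw [jj_neg a1, jj_pos a2, jj_neg a3, one_mul]
    · obtain ⟨g, rfl⟩ := hg
      obtain ⟨g', rfl⟩ := hg'
      have b1 : σ⁻¹ * g ∈ H := by
        rcases h7 x hx g hy with h | h
        · exact absurd ⟨⟨g, h⟩, rfl⟩ a1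
        · exact h
      have b2 : σ⁻¹ * g' ∈ H := by
        rcases h7 _ hy g' hz with h | h
        · exact absurd ⟨⟨g', h⟩, rfl⟩ a2
        · exact h
      have a3 : ∃ h : H, h • x = g' • g • x := by
        refine ⟨⟨(σ * (σ⁻¹ * g') * σ⁻¹) * (σ * σ * (σ⁻¹ * g)),
          H.mul_mem (h1 _ b2) (H.mul_mem h3 b1)⟩, ?_⟩
        rw [Subgroup.smul_def, ← mul_smul]
        congr 1
        show (σ * (σ⁻¹ * g') * σ⁻¹) * (σ * σ * (σ⁻¹ * g)) = g' * g
        group
      rw [jj_neg a1, jj_neg a2, jj_pos a3]
      decide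

end

theorem t : TaskIdx := by
  intro G _ _ X _ _ hm hfix H σ P hP h1 h2 h3 h4 h5 h6 h7 hco
  obtain ⟨Γ, gΓ, cΓ, β, ℓ, ha, hb, hc, hd⟩ := hco
  have hrep : ∀ (q : ℤˣ) (x : X), x ∈ P → rep σ q • x ∈ P := by
    intro q x hx
    rcases Int.units_eq_one_or q with rfl | rfl
    · rw [rep_one, one_smul]; exact hx
    · rw [rep_neg]; exact h5 x hx
  have hcount : Countable (RegularWreathProduct Γ ℤˣ) :=
    (RegularWreathProduct.equivProd Γ ℤˣ).injective.countable
  refine ⟨RegularWreathProduct Γ ℤˣ, inferInstance, hcount, bet β H σ, ℓ, ?_, ?_, ?_, hd⟩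
  · intro x hx y hy z hz hg hg'
    have hj := jmul h1 h3 h7 hx hy hz hg hg'
    ext1
    · funext q
      have e1 := key h1 h3 h7 hx hy hg (q * jj H z y)
      have e2 := key h1 h3 h7 hy hz hg' q
      have e3 := ha _ (hrep (q * jj H z y * jj H y x) x hx) _ (hrep (q * jj H z y) y hy) _
        (hrep q z hz) e1 e2
      have e4 : (jj H z y)⁻¹ * q = q * jj H z y := by rw [Int.units_inv_eq_self, mul_comm]
      simp only [RegularWreathProduct.mul_left, bet, Pi.mul_apply, e4]
      rw [hj, ← mul_assoc]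
      exact e3
    · exact hj
  · intro x hx y hy hg hβ hℓ
    have e1 : jj H y x = 1 := congrArg RegularWreathProduct.right hβ
    have e2 := congrFun (congrArg RegularWreathProduct.left hβ) 1
    simp only [bet, RegularWreathProduct.one_left, Pi.one_apply, e1, mul_one, rep_one,
      one_smul] at e2
    exact hb x hx y hy (jj_one e1) e2 hℓ
  · intro g w
    have hiff : ∀ x, bet β H σ (g • x) x = w ↔ jj H (g • x) x = w.right ∧
        ∀ q, β (rep σ q • g • x) (rep σ (q * w.right) • x) = w.left q := by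
      intro x
      constructor
      · rintro rfl
        exact ⟨rfl, fun q => rfl⟩
      · rintro ⟨e1, e2⟩
        ext1
        · funext q
          simp only [bet, e1]
          exact e2 q
        · exact e1
    rcases Int.units_eq_one_or w.right with hw | hw
    · have hset : {x | x ∈ P ∧ g • x ∈ P ∧ bet β H σ (g • x) x = w} =
          P ∩ ⋃ h : H, ({x | ((h : G)⁻¹ * g) • x = x} ∩ ⋂ q : ℤˣ, (fun x => rep σ q • x) ⁻¹'
            {x | x ∈ P ∧ (⟨rep σ q * h * (rep σ q)⁻¹, by
              rcases Int.units_eq_one_or q with rfl | rfl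
              · rw [rep_one]; simp
              · rw [rep_neg]; exact h1 h h.2⟩ : H) • x ∈ P ∧
              β ((⟨rep σ q * h * (rep σ q)⁻¹, by
              rcases Int.units_eq_one_or q with rfl | rfl
              · rw [rep_one]; simp
              · rw [rep_neg]; exact h1 h h.2⟩ : H) • x) x = w.left q}) := by
        ext x
        simp only [Set.mem_setOf_eq, Set.mem_inter_iff, Set.mem_iUnion, Set.mem_iInter,
          Set.mem_preimage, hiff, hw, mul_one]
        constructor
        · rintro ⟨hx, hgx, hj, hβ⟩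
          refine ⟨hx, ?_⟩
          obtain ⟨h, hh⟩ := jj_one hj
          rw [Subgroup.smul_def] at hh
          refine ⟨h, by rw [mul_smul, ← hh, inv_smul_smul], fun q => ?_⟩
          have e : (rep σ q * h * (rep σ q)⁻¹) • rep σ q • x = rep σ q • g • x := by
            rw [← hh, ← mul_smul, ← mul_smul]; congr 1; group
          refine ⟨hrep q x hx, ?_, ?_⟩
          · show (rep σ q * h * (rep σ q)⁻¹) • rep σ q • x ∈ P
            rw [e]; exact hrep q _ hgx
          · show β ((rep σ q * h * (rep σ q)⁻¹) • rep σ q • x) (rep σ q • x) = w.left q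
            rw [e]; exact hβ q
        · rintro ⟨hx, h, hh, hq⟩
          have hgx : g • x = (h : G) • x := by
            rw [mul_smul] at hh
            rw [inv_smul_eq_iff] at hh
            exact hh
          refine ⟨hx, ?_, ?_, fun q => ?_⟩
          · rw [hgx]; exact h4 h h.2 x hx
          · exact jj_pos ⟨h, by rw [Subgroup.smul_def, hgx]⟩
          · have e : (rep σ q * h * (rep σ q)⁻¹) • rep σ q • x = rep σ q • g • x := by
              rw [hgx, ← mul_smul, ← mul_smul]; congr 1; group
            have e2 : β ((rep σ q * h * (rep σ q)⁻¹) • rep σ q • x) (rep σ q • x) = w.left q :=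
              (hq q).2.2
            rw [e] at e2
            exact e2
      rw [hset]
      refine hP.inter (MeasurableSet.iUnion fun h => (hfix _).inter
        (MeasurableSet.iInter fun q => hm _ (hc _ _)))
    · by_cases hg : σ⁻¹ * g ∈ H
      · have hk : ∀ q : ℤˣ, rep σ q * g * (rep σ (q * -1))⁻¹ ∈ H := by
          intro q
          rcases Int.units_eq_one_or q with rfl | rfl
          · rw [one_mul, rep_one, rep_neg]
            have := h1 _ hg
            have e : σ * (σ⁻¹ * g) * σ⁻¹ = 1 * g * σ⁻¹ := by group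
            rwa [e] at this
          · have e0 : (-1 : ℤˣ) * -1 = 1 := by decide
            rw [e0, rep_one, rep_neg]
            have := H.mul_mem h3 hg
            have e : σ * σ * (σ⁻¹ * g) = σ * g * 1⁻¹ := by group
            rwa [e] at this
        have hset : {x | x ∈ P ∧ g • x ∈ P ∧ bet β H σ (g • x) x = w} =
            P ∩ ((fun x => g • x) ⁻¹' P ∩ ((⋂ h : H, {x | ((h : G)⁻¹ * g) • x = x}ᶜ) ∩
              ⋂ q : ℤˣ, (fun x => rep σ (q * -1) • x) ⁻¹'
              {x | x ∈ P ∧ (⟨_, hk q⟩ : H) • x ∈ P ∧ β ((⟨_, hk q⟩ : H) • x) x = w.left q})) := by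
          ext x
          simp only [Set.mem_setOf_eq, Set.mem_inter_iff, Set.mem_iInter, Set.mem_compl_iff,
            Set.mem_preimage, hiff, hw]
          have e : ∀ q : ℤˣ, (rep σ q * g * (rep σ (q * -1))⁻¹) • rep σ (q * -1) • x =
              rep σ q • g • x := by
            intro q
            rw [← mul_smul, ← mul_smul]; congr 1; group
          constructor
          · rintro ⟨hx, hgx, hj, hβ⟩
            refine ⟨hx, hgx, fun h hh => ?_, fun q => ⟨hrep _ x hx, ?_, ?_⟩⟩
            · have hgx' : g • x = (h : G) • x := by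
                rw [mul_smul] at hh
                rw [inv_smul_eq_iff] at hh
                exact hh
              have : jj H (g • x) x = 1 := jj_pos ⟨h, by rw [Subgroup.smul_def, hgx']⟩
              rw [this] at hj
              exact absurd hj (by decide)
            · show (rep σ q * g * (rep σ (q * -1))⁻¹) • rep σ (q * -1) • x ∈ P
              rw [e]; exact hrep q _ hgx
            · show β ((rep σ q * g * (rep σ (q * -1))⁻¹) • rep σ (q * -1) • x) _ = w.left q
              rw [e]; exact hβ q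
          · rintro ⟨hx, hgx, hh, hq⟩
            refine ⟨hx, hgx, ?_, fun q => ?_⟩
            · refine jj_neg ?_
              rintro ⟨h, h'⟩
              refine hh h ?_
              rw [Subgroup.smul_def] at h'
              rw [mul_smul, ← h', inv_smul_smul]
            · have e2 : β ((rep σ q * g * (rep σ (q * -1))⁻¹) • rep σ (q * -1) • x)
                  (rep σ (q * -1) • x) = w.left q := (hq q).2.2
              rw [e] at e2
              exact e2
        rw [hset]
        refine hP.inter ((hm g hP).inter ((MeasurableSet.iInter fun h => (hfix _).compl).inter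
          (MeasurableSet.iInter fun q => hm _ (hc _ _))))
      · have hset : {x | x ∈ P ∧ g • x ∈ P ∧ bet β H σ (g • x) x = w} = ∅ := by
          ext x
          simp only [Set.mem_setOf_eq, Set.mem_empty_iff_false, iff_false, not_and]
          intro hx hgx hb'
          have hj := ((hiff x).1 hb').1
          rw [hw] at hj
          rcases h7 x hx g hgx with h | h
          · have : jj H (g • x) x = 1 := jj_pos ⟨⟨g, h⟩, rfl⟩
            rw [this] at hj
            exact absurd hj (by decide)
          · exact hg h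
        rw [hset]
        exact MeasurableSet.empty

end Pool.Agent.H418R3.EF.Idx109

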