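import Pool.Agent.H418R3.EF.Stmts

/-! Project H418-EF, TaskIdx (helper545). -/

set_option autoImplicit false

namespace Pool.Agent.H418R3.EF.Idx545

open Pool.Agent.H418R3.EF

/-- the wreath product of `Γ` with the group of order two -/
def W (Γ : Type) : Type := Γ × Γ × Bool

section
variable {Γ : Type} [Group Γ]

instance : Mul (W Γ) := ⟨fun a b =>
  (a.1 * (if a.2.2 = true then b.2.1 else b.1), a.2.1 * (if a.2.2 = true then b.1 else b.2.1),
    xor a.2.2 b.2.2)⟩

instance : One (W Γ) := ⟨(1, 1, false)⟩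

instance : Inv (W Γ) := ⟨fun a =>
  (if a.2.2 = true then a.2.1⁻¹ else a.1⁻¹, if a.2.2 = true then a.1⁻¹ else a.2.1⁻¹, a.2.2)⟩

theorem mul_def (a b : W Γ) : a * b =
  (a.1 * (if a.2.2 = true then b.2.1 else b.1), a.2.1 * (if a.2.2 = true then b.1 else b.2.1),
    xor a.2.2 b.2.2) := rfl

theorem one_def : (1 : W Γ) = (1, 1, false) := rfl

theorem inv_def (a : W Γ) : a⁻¹ =
  (if a.2.2 = true then a.2.1⁻¹ else a.1⁻¹, if a.2.2 = true then a.1⁻¹ else a.2.1⁻¹, a.2.2) := rfl

instance : Group (W Γ) := Group.ofLeftAxioms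
  (by
    rintro ⟨a1, a2, a3⟩ ⟨b1, b2, b3⟩ ⟨c1, c2, c3⟩
    cases a3 <;> cases b3 <;> cases c3 <;> simp [mul_def, mul_assoc])
  (by
    rintro ⟨a1, a2, a3⟩
    cases a3 <;> simp [mul_def, one_def])
  (by
    rintro ⟨a1, a2, a3⟩
    cases a3 <;> simp [mul_def, one_def, inv_def])

instance [Countable Γ] : Countable (W Γ) := inferInstanceAs (Countable (Γ × Γ × Bool))

end

theorem t : TaskIdx := by
  intro G _ _ X _ _ hmeas hstab H σ P hP hc1 hc2 hσσ hPH hPσ hPσ' hcov hcoc
  obtain ⟨Γ, _, _, β, ℓ, b1, b2, b3, b4⟩ := hcoc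
  classical
  set R : X → X → Prop := fun x y => ∃ h ∈ H, h • x = y with hR
  have Rrefl : ∀ x, R x x := fun x => ⟨1, H.one_mem, one_smul _ _⟩
  have Rsymm : ∀ x y, R x y → R y x := by
    rintro x y ⟨h, hh, rfl⟩
    exact ⟨h⁻¹, H.inv_mem hh, inv_smul_smul _ _⟩
  have Rtrans : ∀ x y z, R x y → R y z → R x z := by
    rintro x y z ⟨h, hh, rfl⟩ ⟨h', hh', rfl⟩
    exact ⟨h' * h, H.mul_mem hh' hh, mul_smul _ _ _⟩
  have Rσ : ∀ x y, R x y → R (σ • x) (σ • y) := by
    rintro x y ⟨h, hh, rfl⟩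
    exact ⟨σ * h * σ⁻¹, hc1 h hh, by simp [mul_smul]⟩
  have Rσσ : ∀ x, R x (σ • σ • x) := fun x => ⟨σ * σ, hσσ, mul_smul _ _ _⟩
  have RP : ∀ x y, x ∈ P → R x y → y ∈ P := by
    rintro x y hx ⟨h, hh, rfl⟩
    exact hPH h hh x hx
  have hG : ∀ x ∈ P, ∀ g : G, g • x ∈ P → R x (g • x) ∨ R (σ • x) (g • x) := by
    intro x hx g hgx
    rcases hcov x hx g hgx with h | h
    · exact Or.inl ⟨g, h, rfl⟩
    · right
      have h1 := Rσ x ((σ⁻¹ * g) • x) ⟨_, h, rfl⟩
      rw [← mul_smul, mul_inv_cancel_left] at h1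
      exact h1
  have c1 : ∀ x y z, x ∈ P → R x y → R y z → β z x = β z y * β y x := by
    intro x y z hx h1 h2
    obtain ⟨h, hh, e⟩ := h1
    obtain ⟨h', hh', e'⟩ := h2
    have hy : y ∈ P := RP x y hx ⟨h, hh, e⟩
    exact b1 x hx y hy z (RP y z hy ⟨h', hh', e'⟩) ⟨⟨h, hh⟩, e⟩ ⟨⟨h', hh'⟩, e'⟩
  have c2 : ∀ x y, x ∈ P → R x y → β y x = 1 → ℓ x = ℓ y → x = y := by
    intro x y hx h1 h2 h3
    obtain ⟨h, hh, e⟩ := h1
    exact b2 x hx y (RP x y hx ⟨h, hh, e⟩) ⟨⟨h, hh⟩, e⟩ h2 h3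
  -- twisted relations
  have Rtw : ∀ x y, R (σ • x) y → R x (σ • y) := fun x y h =>
    Rtrans _ _ _ (Rσσ x) (Rσ _ _ h)
  have Qinv : ∀ x y, R x y → R (σ • x) x → R (σ • y) y := fun x y h1 h2 =>
    Rtrans _ _ _ (Rtrans _ _ _ (Rsymm _ _ (Rσ _ _ h1)) h2) h1
  have Qσ : ∀ x, R (σ • x) x → R (σ • σ • x) (σ • x) := fun x h => Rσ _ _ h
  -- the new cocycle
  set β' : X → X → W Γ := fun y x =>
    if R (σ • x) x then (β y x, 1, false)
    else if R x y then (β y x, β (σ • y) (σ • x), false)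
    else (β y (σ • x), β (σ • y) x, true) with hβ'
  -- equivalent points
  have hcase : ∀ x ∈ P, ∀ y ∈ P, (∃ g : G, g • x = y) → R x y ∨ R (σ • x) y := by
    rintro x hx y hy ⟨g, rfl⟩
    exact hG x hx g hy
  have hQ2 : ∀ x y, R x y ∨ R (σ • x) y → R (σ • x) x → R x y := by
    intro x y h hq
    rcases h with h | h
    · exact h
    · exact Rtrans _ _ _ (Rsymm _ _ hq) h
  have hQ3 : ∀ x y, R x y ∨ R (σ • x) y → R (σ • y) y → R (σ • x) x := by
    intro x y h hq
    rcases h with h | h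
    · exact Qinv y x (Rsymm _ _ h) hq
    · have h1 := Qinv y (σ • x) (Rsymm _ _ h) hq
      exact Rtrans _ _ _ (Rsymm _ _ h1) (Rsymm _ _ (Rσσ x))
  have hex : ∀ x y, ¬ R (σ • x) x → R (σ • x) y → ¬ R x y := by
    intro x y h1 h2 h3
    exact h1 (Rtrans _ _ _ h2 (Rsymm _ _ h3))
  refine ⟨W Γ, inferInstance, inferInstance, β', ℓ, ?_, ?_, ?_, b4⟩
  · intro x hx y hy z hz hxy hyz
    have exy := hcase x hx y hy hxy
    have eyz := hcase y hy z hz hyz
    by_cases q : R (σ • x) x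
    · have r1 := hQ2 x y exy q
      have qy := Qinv x y r1 q
      have r2 := hQ2 y z eyz qy
      simp only [hβ', if_pos q, if_pos qy, mul_def]
      rw [c1 x y z hx r1 r2]
      simp
    · have qy : ¬ R (σ • y) y := fun h => q (hQ3 x y exy h)
      have hσx : σ • x ∈ P := hPσ x hx
      rcases exy with r1 | r1
      · rcases eyz with r2 | r2
        · have r3 := Rtrans _ _ _ r1 r2
          simp only [hβ', if_neg q, if_neg qy, if_pos r1, if_pos r2, if_pos r3, mul_def]
          rw [c1 x y z hx r1 r2, c1 (σ • x) (σ • y) (σ • z) hσx (Rσ _ _ r1) (Rσ _ _ r2)]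
          simp
        · have r2' := hex y z qy r2
          have r3 : R (σ • x) z := Rtrans _ _ _ (Rσ _ _ r1) r2
          have r3' := hex x z q r3
          simp only [hβ', if_neg q, if_neg qy, if_pos r1, if_neg r2', if_neg r3', mul_def]
          rw [c1 (σ • x) (σ • y) z hσx (Rσ _ _ r1) r2, c1 x y (σ • z) hx r1 (Rtw _ _ r2)]
          simp
      · have r1' := hex x y q r1
        rcases eyz with r2 | r2
        · have r3 : R (σ • x) z := Rtrans _ _ _ r1 r2
          have r3' := hex x z q r3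
          simp only [hβ', if_neg q, if_neg qy, if_neg r1', if_pos r2, if_neg r3', mul_def]
          rw [c1 (σ • x) y z hσx r1 r2, c1 x (σ • y) (σ • z) hx (Rtw _ _ r1) (Rσ _ _ r2)]
          simp
        · have r2' := hex y z qy r2
          have r3 : R x z := Rtrans _ _ _ (Rtw _ _ r1) r2
          simp only [hβ', if_neg q, if_neg qy, if_neg r1', if_neg r2', if_pos r3, mul_def]
          rw [c1 x (σ • y) z hx (Rtw _ _ r1) r2, c1 (σ • x) y (σ • z) hσx r1 (Rtw _ _ r2)]
          simp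
  · intro x hx y hy hxy h1 h2
    have exy := hcase x hx y hy hxy
    by_cases q : R (σ • x) x
    · have r1 := hQ2 x y exy q
      simp only [hβ', if_pos q, one_def] at h1
      exact c2 x y hx r1 (congrArg Prod.fst h1) h2
    · by_cases r1 : R x y
      · simp only [hβ', if_neg q, if_pos r1, one_def] at h1
        exact c2 x y hx r1 (congrArg Prod.fst h1) h2
      · simp only [hβ', if_neg q, if_neg r1, one_def] at h1
        have := congrArg (fun p : W Γ => p.2.2) h1
        simp at this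
  · -- measurability
    have mst : ∀ (a b : G), MeasurableSet {x : X | a • x = b • x} := by
      intro a b
      have : {x : X | a • x = b • x} = {x : X | (b⁻¹ * a) • x = x} := by
        ext x
        simp only [Set.mem_ofPred_eq, mul_smul, inv_smul_eq_iff]
      rw [this]
      exact hstab _
    have mR : ∀ a b : G, MeasurableSet {x : X | R (a • x) (b • x)} := by
      intro a b
      have : {x : X | R (a • x) (b • x)} = ⋃ h : H, {x : X | ((h : G) * a) • x = b • x} := by
        ext x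
        simp only [Set.mem_iUnion, Set.mem_ofPred_eq, mul_smul, hR]
        constructor
        · rintro ⟨h, hh, e⟩
          exact ⟨⟨h, hh⟩, e⟩
        · rintro ⟨h, e⟩
          exact ⟨h, h.2, e⟩
      rw [this]
      exact MeasurableSet.iUnion fun h => mst _ _
    have mB : ∀ (a b : G) (γ : Γ), MeasurableSet
        {x : X | a • x ∈ P ∧ R (a • x) (b • x) ∧ β (b • x) (a • x) = γ} := by
      intro a b γ
      have : {x : X | a • x ∈ P ∧ R (a • x) (b • x) ∧ β (b • x) (a • x) = γ} =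
          ⋃ h : H, ({x : X | ((h : G) * a) • x = b • x} ∩
            (fun x : X => a • x) ⁻¹' {y | y ∈ P ∧ h • y ∈ P ∧ β (h • y) y = γ}) := by
        ext x
        simp only [Set.mem_iUnion, Set.mem_inter_iff, Set.mem_ofPred_eq, Set.mem_preimage, hR]
        constructor
        · rintro ⟨h1, ⟨h, hh, e⟩, h2⟩
          refine ⟨⟨h, hh⟩, by rw [mul_smul]; exact e, h1, hPH h hh _ h1, ?_⟩
          rw [← h2, ← e]
          rfl
        · rintro ⟨h, e, h1, h2, h3⟩
          rw [mul_smul] at e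
          refine ⟨h1, ⟨h, h.2, e⟩, ?_⟩
          rw [← e]
          exact h3
      rw [this]
      exact MeasurableSet.iUnion fun h => (mst _ _).inter ((hmeas a) (b3 h γ))
    rintro g ⟨γ1, γ2, e⟩
    have mgP : MeasurableSet {x : X | g • x ∈ P} := hmeas g hP
    have key : {x | x ∈ P ∧ g • x ∈ P ∧ β' (g • x) x = (γ1, γ2, e)} =
        (P ∩ {x : X | g • x ∈ P}) ∩
        (({x : X | R (σ • x) ((1 : G) • x)} ∩
          {x : X | (1 : G) • x ∈ P ∧ R ((1 : G) • x) (g • x) ∧ β (g • x) ((1 : G) • x) = γ1} ∩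
          {_x : X | γ2 = 1 ∧ e = false}) ∪
        ({x : X | R (σ • x) ((1 : G) • x)}ᶜ ∩
          {x : X | (1 : G) • x ∈ P ∧ R ((1 : G) • x) (g • x) ∧ β (g • x) ((1 : G) • x) = γ1} ∩
          {x : X | σ • x ∈ P ∧ R (σ • x) ((σ * g) • x) ∧ β ((σ * g) • x) (σ • x) = γ2} ∩
          {_x : X | e = false}) ∪
        ({x : X | R (σ • x) ((1 : G) • x)}ᶜ ∩ {x : X | R ((1 : G) • x) (g • x)}ᶜ ∩
          {x : X | σ • x ∈ P ∧ R (σ • x) (g • x) ∧ β (g • x) (σ • x) = γ1} ∩
          {x : X | (1 : G) • x ∈ P ∧ R ((1 : G) • x) ((σ * g) • x) ∧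
            β ((σ * g) • x) ((1 : G) • x) = γ2} ∩
          {_x : X | e = true})) := by
      ext x
      simp only [Set.mem_inter_iff, Set.mem_union, Set.mem_compl_iff, Set.mem_ofPred_eq, one_smul,
        mul_smul]
      constructor
      · rintro ⟨hx, hgx, h⟩
        refine ⟨⟨hx, hgx⟩, ?_⟩
        have ex := hG x hx g hgx
        by_cases q : R (σ • x) x
        · simp only [hβ', if_pos q] at h
          have e1 := congrArg (fun p : Γ × Γ × Bool => p.1) h
          have e2 := congrArg (fun p : Γ × Γ × Bool => p.2.1) h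
          have e3 := congrArg (fun p : Γ × Γ × Bool => p.2.2) h
          left; left
          exact ⟨⟨q, hx, hQ2 x _ ex q, e1⟩, e2.symm, e3.symm⟩
        · by_cases r : R x (g • x)
          · simp only [hβ', if_neg q, if_pos r] at h
            have e1 := congrArg (fun p : Γ × Γ × Bool => p.1) h
            have e2 := congrArg (fun p : Γ × Γ × Bool => p.2.1) h
            have e3 := congrArg (fun p : Γ × Γ × Bool => p.2.2) h
            left; right
            exact ⟨⟨⟨q, hx, r, e1⟩, hPσ x hx, Rσ _ _ r, e2⟩, e3.symm⟩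
          · simp only [hβ', if_neg q, if_neg r] at h
            have e1 := congrArg (fun p : Γ × Γ × Bool => p.1) h
            have e2 := congrArg (fun p : Γ × Γ × Bool => p.2.1) h
            have e3 := congrArg (fun p : Γ × Γ × Bool => p.2.2) h
            have r' : R (σ • x) (g • x) := ex.resolve_left r
            right
            exact ⟨⟨⟨⟨q, r⟩, hPσ x hx, r', e1⟩, hx, Rtw _ _ r', e2⟩, e3.symm⟩
      · rintro ⟨⟨hx, hgx⟩, h⟩
        refine ⟨hx, hgx, ?_⟩
        rcases h with (⟨⟨q, -, -, e1⟩, e2, e3⟩ | ⟨⟨⟨q, -, r, e1⟩, -, -, e2⟩, e3⟩) |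
          ⟨⟨⟨⟨q, r⟩, -, -, e1⟩, -, -, e2⟩, e3⟩
        · simp only [hβ', if_pos q]
          rw [e1, e2, e3]
        · simp only [hβ', if_neg q, if_pos r]
          rw [e1, e2, e3]
        · simp only [hβ', if_neg q, if_neg r]
          rw [e1, e2, e3]
    show MeasurableSet {x | x ∈ P ∧ g • x ∈ P ∧ β' (g • x) x = (γ1, γ2, e)}
    rw [key]
    refine (hP.inter mgP).inter ((MeasurableSet.union ?_ ?_).union ?_)
    · exact ((mR σ 1).inter (mB 1 g γ1)).inter (MeasurableSet.const _)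
    · exact ((((mR σ 1).compl.inter (mB 1 g γ1))).inter (mB σ (σ * g) γ2)).inter
        (MeasurableSet.const _)
    · exact (((((mR σ 1).compl.inter (mR 1 g).compl)).inter (mB σ g γ1)).inter
        (mB 1 (σ * g) γ2)).inter (MeasurableSet.const _)

end Pool.Agent.H418R3.EF.Idx545
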