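import Mathlib
import Pool.Agent.H418R3.EF.Stmts

set_option autoImplicit false

namespace Pool.Agent.H418R3.EF.TaskIsoH878

open scoped Pointwise
open Pool.Agent.H418R3.EF

theorem exists_mul {n : ℕ} (A : AddSubgroup (V n)) (hA : Submodule.span ℚ (A : Set (V n)) = ⊤)
    (v : V n) : ∃ m : ℤ, m ≠ 0 ∧ m • v ∈ A := by
  have hv : v ∈ Submodule.span ℚ (A : Set (V n)) := by rw [hA]; trivial
  induction hv using Submodule.span_induction with
  | mem x hx => exact ⟨1, one_ne_zero, by simpa using hx⟩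
  | zero => exact ⟨1, one_ne_zero, by simp [A.zero_mem]⟩
  | add x y _ _ ihx ihy =>
    obtain ⟨m, hm, hmx⟩ := ihx
    obtain ⟨k, hk, hky⟩ := ihy
    refine ⟨m * k, mul_ne_zero hm hk, ?_⟩
    rw [smul_add]
    have e1 : (m * k) • x = k • (m • x) := by rw [smul_smul, mul_comm]
    have e2 : (m * k) • y = m • (k • y) := by rw [smul_smul]
    rw [e1, e2]
    exact A.add_mem (A.zsmul_mem hmx k) (A.zsmul_mem hky m)
  | smul q x _ ih =>
    obtain ⟨m, hm, hmx⟩ := ih
    refine ⟨m * q.den, mul_ne_zero hm (by exact_mod_cast q.den_ne_zero), ?_⟩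
    have e1 : (m * (q.den : ℤ)) • (q • x) = q.num • (m • x) := by
      rw [← Int.cast_smul_eq_zsmul ℚ, ← Int.cast_smul_eq_zsmul ℚ q.num,
        ← Int.cast_smul_eq_zsmul ℚ m, smul_smul, smul_smul]
      congr 1
      push_cast
      have := Rat.mul_den_eq_num q
      calc (m : ℚ) * q.den * q = m * (q * q.den) := by ring
        _ = m * q.num := by rw [this]
        _ = q.num * m := by ring
    rw [e1]
    exact A.zsmul_mem hmx _

theorem isUnit_end {n : ℕ} (x : nonZeroDivisors ℤ) :
    IsUnit (algebraMap ℤ (Module.End ℤ (V n)) x) := by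
  rw [Module.End.isUnit_iff]
  have hx : (x : ℤ) ≠ 0 := nonZeroDivisors.ne_zero x.2
  constructor
  · intro u v huv
    have h1 : (x : ℤ) • u = (x : ℤ) • v := huv
    exact smul_right_injective _ hx h1
  · intro v
    refine ⟨((x : ℤ) : ℚ)⁻¹ • v, ?_⟩
    show (x : ℤ) • (((x : ℤ) : ℚ)⁻¹ • v) = v
    rw [← Int.cast_smul_eq_zsmul ℚ, smul_smul, mul_inv_cancel₀ (by exact_mod_cast hx), one_smul]

theorem exists_ext {n : ℕ} (A : AddSubgroup (V n)) (hA : Submodule.span ℚ (A : Set (V n)) = ⊤)
    (f : A →+ V n) : ∃ L : V n →ₗ[ℚ] V n, ∀ a : A, L a = f a := by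
  have hloc : IsLocalizedModule (nonZeroDivisors ℤ) (A.subtype.toIntLinearMap) :=
    { map_units := fun x => isUnit_end x
      surj := by
        intro y
        obtain ⟨m, hm, hmy⟩ := exists_mul A hA y
        exact ⟨(⟨m • y, hmy⟩, ⟨m, mem_nonZeroDivisors_of_ne_zero hm⟩), rfl⟩
      exists_of_eq := by
        intro x y hxy
        exact ⟨1, by rw [Subtype.ext hxy]⟩ }
  let L0 : V n →ₗ[ℤ] V n := IsLocalizedModule.lift (nonZeroDivisors ℤ)
    (A.subtype.toIntLinearMap) f.toIntLinearMap (fun x => isUnit_end x)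
  refine ⟨L0.toAddMonoidHom.toRatLinearMap, fun a => ?_⟩
  exact IsLocalizedModule.lift_apply (nonZeroDivisors ℤ) (A.subtype.toIntLinearMap)
    f.toIntLinearMap (fun x => isUnit_end x) a

theorem t : TaskIso := by
  intro n A B
  constructor
  · rintro ⟨φ⟩
    obtain ⟨L, hL⟩ := exists_ext A.1 A.2 ((B.1.subtype).comp φ.toAddMonoidHom)
    obtain ⟨L', hL'⟩ := exists_ext B.1 B.2 ((A.1.subtype).comp φ.symm.toAddMonoidHom)
    have hL1 : ∀ a : A.1, L a = (φ a : V n) := fun a => hL a
    have hL1' : ∀ b : B.1, L' b = (φ.symm b : V n) := fun b => hL' b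
    have h1 : L.comp L' = LinearMap.id := by
      apply LinearMap.ext_on B.2
      intro b hb
      have e1 := hL1' ⟨b, hb⟩
      simp only at e1
      rw [LinearMap.comp_apply, e1, hL1, AddEquiv.apply_symm_apply]
      rfl
    have h2 : L'.comp L = LinearMap.id := by
      apply LinearMap.ext_on A.2
      intro a ha
      have e1 := hL1 ⟨a, ha⟩
      simp only at e1
      rw [LinearMap.comp_apply, e1, hL1', AddEquiv.symm_apply_apply]
      rfl
    let g : GQ n := LinearEquiv.ofLinear L L' h1 h2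
    refine ⟨g, ?_⟩
    apply Subtype.ext
    ext v
    rw [mem_smul]
    have hg : g⁻¹ v = L' v := rfl
    rw [hg]
    constructor
    · intro h
      have e1 : L (L' v) = v := by
        have := LinearMap.congr_fun h1 v
        simpa using this
      rw [← e1]
      have e2 := hL1 ⟨L' v, h⟩
      simp only at e2
      rw [e2]
      exact (φ ⟨L' v, h⟩).2
    · intro h
      have e2 := hL1' ⟨v, h⟩
      simp only at e2
      rw [e2]
      exact (φ.symm ⟨v, h⟩).2
  · rintro ⟨g, rfl⟩
    have hgi : ∀ v : V n, g⁻¹ (g v) = v := fun v => g.symm_apply_apply v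
    have hig : ∀ v : V n, g (g⁻¹ v) = v := fun v => g.apply_symm_apply v
    exact ⟨{ toFun := fun a => ⟨g a.1, by rw [mem_smul, hgi]; exact a.2⟩
             invFun := fun b => ⟨g⁻¹ b.1, (mem_smul g A b.1).1 b.2⟩
             left_inv := fun a => Subtype.ext (hgi a.1)
             right_inv := fun b => Subtype.ext (hig b.1)
             map_add' := fun a b => Subtype.ext (map_add g a.1 b.1) }⟩

end Pool.Agent.H418R3.EF.TaskIsoH878
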