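import Pool.Agent.H418R3.EF.Stmts

set_option autoImplicit false

namespace Pool.Agent.H418R3.EF.Meas598

open scoped Pointwise
open Pool.Agent.H418R3.EF

theorem imp_c {α : Type} [MeasurableSpace α] {s : Set α} (hs : MeasurableSet s) (q : Prop) :
    MeasurableSet {a | a ∈ s → q} := by
  by_cases hq : q
  · have : {a | a ∈ s → q} = Set.univ := by ext a; simp [hq]
    rw [this]; exact MeasurableSet.univ
  · have : {a | a ∈ s → q} = sᶜ := by ext a; simp [hq]
    rw [this]; exact hs.compl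

theorem and_c {α : Type} [MeasurableSpace α] {s : Set α} (hs : MeasurableSet s) (q : Prop) :
    MeasurableSet {a | a ∈ s ∧ q} := by
  by_cases hq : q
  · have : {a | a ∈ s ∧ q} = s := by ext a; simp [hq]
    rw [this]; exact hs
  · have : {a | a ∈ s ∧ q} = ∅ := by ext a; simp [hq]
    rw [this]; exact MeasurableSet.empty

theorem gen (hS : TaskStd) (n : ℕ) (Q : GQ n → Prop) :
    MeasurableSet {A : Sn n | ∀ h : GQ n, h • A = A → Q h} := by
  obtain ⟨hc, _, _, hfix, _⟩ := hS n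
  have : {A : Sn n | ∀ h : GQ n, h • A = A → Q h} =
      ⋂ h : GQ n, {A : Sn n | A ∈ {A : Sn n | h • A = A} → Q h} := by
    ext A
    simp
  rw [this]
  exact MeasurableSet.iInter fun h => imp_c (hfix h) _

theorem gen' (hS : TaskStd) (n : ℕ) (Q : GQ n → Prop) :
    MeasurableSet {A : Sn n | ∃ h : GQ n, h • A = A ∧ Q h} := by
  obtain ⟨hc, _, _, hfix, _⟩ := hS n
  have : {A : Sn n | ∃ h : GQ n, h • A = A ∧ Q h} =
      ⋃ h : GQ n, {A : Sn n | A ∈ {A : Sn n | h • A = A} ∧ Q h} := by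
    ext A
    simp
  rw [this]
  exact MeasurableSet.iUnion fun h => and_c (hfix h) _

theorem t : TaskStd → TaskMeas := by
  intro hS
  refine ⟨fun n => gen hS n _, fun g => ?_, ?_, ?_⟩
  · exact (gen hS 2 (fun h => h * g = g * h)).inter (gen' hS 2 (fun h => ¬ IsScal h))
  · exact (gen hS 2 (fun h => ∃ a b : ℚ, ∀ v : V 2, h v = ![a * v 0, b * v 0 + a * v 1])).inter
      (gen' hS 2 (fun h => ¬ IsScal h))
  · obtain ⟨_, _, _, _, hmem⟩ := hS 2
    have : PT = ⋃ m : ℤ, ⋃ (_ : m ≠ 0), ⋂ v : V 2, ({A : Sn 2 | v ∈ A.1}ᶜ ∪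
        ({A : Sn 2 | ![(m : ℚ) * v 0, 0] ∈ A.1} ∩ ({A : Sn 2 | ![0, (m : ℚ) * v 1] ∈ A.1} ∩
          {A : Sn 2 | ![0, (m : ℚ) * v 0] ∈ A.1}))) := by
      ext A
      simp only [PT, Set.mem_ofPred_eq, Set.mem_iUnion, Set.mem_iInter, Set.mem_union,
        Set.mem_inter_iff, Set.mem_compl_iff, exists_prop]
      constructor
      · rintro ⟨m, hm, h⟩
        refine ⟨m, hm, fun v => ?_⟩
        by_cases hv : v ∈ A.1
        · exact Or.inr (h v hv)
        · exact Or.inl hv
      · rintro ⟨m, hm, h⟩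
        refine ⟨m, hm, fun v hv => ?_⟩
        exact (h v).resolve_left (fun h' => h' hv)
    rw [this]
    refine MeasurableSet.iUnion fun m => MeasurableSet.iUnion fun _ =>
      MeasurableSet.iInter fun v => (hmem v).compl.union ((hmem _).inter ((hmem _).inter (hmem _)))

end Pool.Agent.H418R3.EF.Meas598
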