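import Pool.Agent.H418R3.EF.Stmts

namespace Pool.Agent.H418R3.EF.TaskSHelper370

open Pool.Agent.H418R3.EF

/-- The subgroup of scalar bijections. -/
def Scal (n : ℕ) : Subgroup (GQ n) where
  carrier := {g | IsScal g}
  one_mem' := ⟨1, fun v => by simp⟩
  mul_mem' := by
    rintro g h ⟨c, hc⟩ ⟨d, hd⟩
    refine ⟨c * d, fun v => ?_⟩
    have : (g * h) v = g (h v) := rfl
    rw [this, hd, hc, smul_smul]
  inv_mem' := by
    rintro g ⟨c, hc⟩
    refine ⟨c⁻¹, fun v => ?_⟩
    have h1 : g (g⁻¹ v) = v := g.apply_symm_apply v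
    have h2 : c • (g⁻¹ v) = v := by rw [← hc, h1]
    by_cases h0 : c = 0
    · subst h0
      rw [zero_smul] at h2
      rw [← h2, smul_zero]
      exact map_zero (g⁻¹ : GQ n)
    · calc g⁻¹ v = c⁻¹ • (c • (g⁻¹ v)) := by rw [smul_smul, inv_mul_cancel₀ h0, one_smul]
        _ = c⁻¹ • v := by rw [h2]

theorem scal_comm {n : ℕ} {g : GQ n} (hg : IsScal g) (h : GQ n) : g * h = h * g := by
  obtain ⟨c, hc⟩ := hg
  apply LinearEquiv.ext
  intro v
  have h1 : (g * h) v = g (h v) := rfl
  have h2 : (h * g) v = h (g v) := rfl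
  rw [h1, h2, hc, hc, map_smul]

instance (n : ℕ) : (Scal n).Normal where
  conj_mem := by
    intro g hg h
    have : h * g * h⁻¹ = g := by
      rw [← scal_comm hg h, mul_assoc, mul_inv_cancel, mul_one]
    rw [this]
    exact hg

theorem mk_eq_of {n : ℕ} {x : Sn n} (hx : x ∈ PS n) {g g' : GQ n} (h : g • x = g' • x) :
    (QuotientGroup.mk g : GQ n ⧸ Scal n) = QuotientGroup.mk g' := by
  rw [QuotientGroup.eq]
  apply hx
  rw [mul_smul, ← h, inv_smul_smul]

theorem t : TaskS := by
  classical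
  intro hE hStd hMeas n hn
  obtain ⟨e, he1, he2, he3⟩ := hE n hn
  obtain ⟨hc, -, hm, -, -⟩ := hStd n
  have hP : MeasurableSet (PS n) := hMeas.1 n
  have hfin : ∀ (y x : Sn n), (∃ g : GQ n, g • x = y) →
      (Function.support (fun p : ℕ => e p y - e p x)).Finite := by
    rintro y x ⟨g, rfl⟩
    apply (he2 g x).subset
    intro p hp
    rw [Function.mem_support] at hp
    intro h
    exact hp (sub_eq_zero.2 h)
  let β : Sn n → Sn n → (GQ n ⧸ Scal n) × Multiplicative (ℕ →₀ ℤ) := fun y x =>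
    if h : ∃ g : GQ n, g • x = y then
      (QuotientGroup.mk h.choose, Multiplicative.ofAdd
        (Finsupp.ofSupportFinite (fun p : ℕ => e p y - e p x) (hfin y x h)))
    else 1
  have hβ1 : ∀ x ∈ PS n, ∀ g : GQ n, (β (g • x) x).1 = QuotientGroup.mk g := by
    intro x hx g
    have h : ∃ g' : GQ n, g' • x = g • x := ⟨g, rfl⟩
    simp only [β, dif_pos h]
    exact mk_eq_of hx h.choose_spec
  have hβ2 : ∀ x, ∀ g : GQ n, ∀ p : ℕ,
      (Multiplicative.toAdd (β (g • x) x).2) p = e p (g • x) - e p x := by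
    intro x g p
    have h : ∃ g' : GQ n, g' • x = g • x := ⟨g, rfl⟩
    simp only [β, dif_pos h]
    rfl
  refine ⟨(GQ n ⧸ Scal n) × Multiplicative (ℕ →₀ ℤ), inferInstance, ?_, β, fun _ => 0, ?_, ?_, ?_,
    ?_⟩
  · have h1 : Countable (GQ n ⧸ Scal n) :=
      (QuotientGroup.mk_surjective (s := Scal n)).countable
    have h2 : Countable (Multiplicative (ℕ →₀ ℤ)) :=
      (inferInstance : Countable (ℕ →₀ ℤ))
    infer_instance
  · rintro x hx y hy z hz ⟨g, rfl⟩ ⟨h, rfl⟩
    apply Prod.ext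
    · rw [Prod.fst_mul, hβ1 _ hy h, hβ1 _ hx g, ← mul_smul, hβ1 _ hx (h * g)]
      rfl
    · rw [Prod.snd_mul]
      apply Multiplicative.toAdd.injective
      rw [toAdd_mul]
      ext p
      rw [Finsupp.add_apply, hβ2, hβ2, ← mul_smul, hβ2, mul_smul]
      ring
  · rintro x hx y hy ⟨g, rfl⟩ h1 -
    have h2 : (QuotientGroup.mk g : GQ n ⧸ Scal n) = 1 := by
      rw [← hβ1 x hx g, h1]
      rfl
    have h3 : IsScal g := (QuotientGroup.eq_one_iff g).1 h2
    have h4 : ∀ p, e p (g • x) = e p x := by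
      intro p
      have := hβ2 x g p
      rw [h1] at this
      have h5 : (Multiplicative.toAdd (1 : (GQ n ⧸ Scal n) × Multiplicative (ℕ →₀ ℤ)).2) p = 0 := rfl
      rw [h5] at this
      linarith
    exact (he3 g x h3 h4).symm
  · intro g γ
    have key : {x | x ∈ PS n ∧ g • x ∈ PS n ∧ β (g • x) x = γ} =
        if (QuotientGroup.mk g : GQ n ⧸ Scal n) = γ.1 then
          PS n ∩ ((fun x : Sn n => g • x) ⁻¹' (PS n) ∩
            ⋂ p : ℕ, ⋃ a : ℤ, ({x | e p x = a} ∩
              ((fun x : Sn n => g • x) ⁻¹' {x | e p x = a + (Multiplicative.toAdd γ.2) p})))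
        else ∅ := by
      split_ifs with hg
      · ext x
        simp only [Set.mem_ofPred_eq, Set.mem_inter_iff, Set.mem_preimage, Set.mem_iInter,
          Set.mem_iUnion]
        constructor
        · rintro ⟨h1, h2, h3⟩
          refine ⟨h1, h2, fun p => ⟨e p x, rfl, ?_⟩⟩
          rw [← h3, hβ2]
          ring
        · rintro ⟨h1, h2, h3⟩
          refine ⟨h1, h2, ?_⟩
          apply Prod.ext
          · rw [hβ1 x h1 g, hg]
          · apply Multiplicative.toAdd.injective
            ext p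
            obtain ⟨a, ha, hb⟩ := h3 p
            rw [hβ2, hb, ha]
            ring
      · ext x
        simp only [Set.mem_ofPred_eq, Set.mem_empty_iff_false, iff_false]
        rintro ⟨h1, h2, h3⟩
        apply hg
        rw [← hβ1 x h1 g, h3]
    rw [key]
    split_ifs
    · refine hP.inter ((hm g hP).inter (MeasurableSet.iInter fun p => MeasurableSet.iUnion fun a =>
        (he1 p a).inter (hm g (he1 p _))))
    · exact MeasurableSet.empty
  · intro k
    by_cases hk : (0 : ℕ) = k
    · have : {x | x ∈ PS n ∧ (fun _ : Sn n => (0 : ℕ)) x = k} = PS n := by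
        ext x
        simp [← hk]
      rw [this]
      exact hP
    · have : {x | x ∈ PS n ∧ (fun _ : Sn n => (0 : ℕ)) x = k} = ∅ := by
        ext x
        simp [hk]
      rw [this]
      exact MeasurableSet.empty

end Pool.Agent.H418R3.EF.TaskSHelper370
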