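import Pool.Agent.H418R3.EF.Stmts

set_option autoImplicit false

namespace Pool.Agent.H418R3.EF.Std686

open scoped Pointwise

theorem std_of_equiv {α β : Type} [MeasurableSpace α] [MeasurableSpace β] [StandardBorelSpace β]
    (e : α ≃ᵐ β) : StandardBorelSpace α := by
  obtain ⟨τ, hb, hp⟩ := StandardBorelSpace.polish (α := β)
  have h := e.measurableEmbedding.comap_eq
  have h2 := hb.measurable_eq
  have h3 : ‹MeasurableSpace α› = @borel α (τ.induced e) := by
    rw [borel_comap, ← h2]
    exact h.symm
  exact ⟨τ.induced e, @BorelSpace.mk α (τ.induced e) _ h3, e.toEquiv.polishSpace_induced⟩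

theorem meas_mem (n : ℕ) (v : V n) : MeasurableSet {A : Sn n | v ∈ A.1} := by
  have h : Measurable (fun A : Sn n => fun v : V n => v ∈ A.1) := comap_measurable _
  have h2 : Measurable (fun A : Sn n => v ∈ A.1) := (measurable_pi_apply v).comp h
  exact measurableSet_setOfPred.2 h2

theorem meas_smul (n : ℕ) (g : GQ n) : Measurable (fun A : Sn n => g • A) := by
  have h : Measurable ((fun A : Sn n => fun v : V n => v ∈ A.1) ∘ (fun A : Sn n => g • A)) := by
    rw [measurable_pi_iff]
    intro v
    have e : (fun A : Sn n => ((fun A : Sn n => fun v : V n => v ∈ A.1) ∘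
        (fun A : Sn n => g • A)) A v) = fun A : Sn n => (g⁻¹ v ∈ A.1) := by
      funext A
      exact propext (mem_smul g A v)
    rw [e]
    exact measurableSet_setOfPred.1 (meas_mem n (g⁻¹ v))
  exact measurable_comap_iff.2 h

theorem countable_V (n : ℕ) : Countable (V n) := inferInstance

theorem meas_fix (n : ℕ) (g : GQ n) : MeasurableSet {A : Sn n | g • A = A} := by
  have e : {A : Sn n | g • A = A} =
      ⋂ v : V n, ({A : Sn n | g⁻¹ v ∈ A.1} ∩ {A : Sn n | v ∈ A.1}) ∪
        ({A : Sn n | g⁻¹ v ∈ A.1}ᶜ ∩ {A : Sn n | v ∈ A.1}ᶜ) := by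
    ext A
    simp only [Set.mem_ofPred_eq, Set.mem_iInter, Set.mem_union, Set.mem_inter_iff,
      Set.mem_compl_iff]
    constructor
    · intro h v
      have h1 : v ∈ (g • A).1 ↔ v ∈ A.1 := by rw [h]
      rw [mem_smul] at h1
      tauto
    · intro h
      apply Subtype.ext
      ext v
      rw [mem_smul]
      have := h v
      tauto
  rw [e]
  refine MeasurableSet.iInter fun v => ?_
  exact ((meas_mem n _).inter (meas_mem n v)).union
    ((meas_mem n _).compl.inter (meas_mem n v).compl)

theorem countable_GQ (n : ℕ) : Countable (GQ n) := by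
  have : Countable (Fin n → V n) := inferInstance
  apply Function.Injective.countable (f := fun g : GQ n => fun i : Fin n => g (Pi.single i 1))
  intro g h hgh
  apply LinearEquiv.toLinearMap_injective
  apply LinearMap.pi_ext'
  intro i
  apply LinearMap.ext_ring
  exact congrFun hgh i

/-- the set of characteristic functions of the members of `Sn n` -/
def RR (n : ℕ) : Set (V n → Prop) :=
  {S | S 0 ∧ (∀ v w, S v → S w → S (v + w)) ∧ (∀ v, S v → S (-v)) ∧
    ∀ v : V n, ∃ t : Finset (V n), (∀ w ∈ t, S w) ∧ v ∈ Submodule.span ℚ (t : Set (V n))}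

theorem meas_ev (n : ℕ) (v : V n) : MeasurableSet {S : V n → Prop | S v} :=
  measurableSet_setOfPred.2 (measurable_pi_apply v)

theorem meas_RR (n : ℕ) : MeasurableSet (RR n) := by
  have e : RR n = {S | S 0} ∩ ((⋂ v, ⋂ w, ({S : V n → Prop | S v}ᶜ ∪ {S | S w}ᶜ) ∪ {S | S (v + w)}) ∩
      ((⋂ v, {S : V n → Prop | S v}ᶜ ∪ {S | S (-v)}) ∩
        ⋂ v : V n, ⋃ t : {t : Finset (V n) // v ∈ Submodule.span ℚ (t : Set (V n))},
          ⋂ w : {w : V n // w ∈ t.1}, {S | S w.1})) := by
    ext S
    simp only [RR, Set.mem_ofPred_eq, Set.mem_inter_iff, Set.mem_iInter, Set.mem_iUnion,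
      Set.mem_union, Set.mem_compl_iff, Subtype.exists, Subtype.forall]
    constructor
    · rintro ⟨h1, h2, h3, h4⟩
      refine ⟨h1, ?_, ?_, ?_⟩
      · intro v w
        have := h2 v w
        tauto
      · intro v
        have := h3 v
        tauto
      · intro v
        obtain ⟨t, h5, h6⟩ := h4 v
        exact ⟨t, h6, h5⟩
    · rintro ⟨h1, h2, h3, h4⟩
      refine ⟨h1, ?_, ?_, ?_⟩
      · intro v w
        have := h2 v w
        tauto
      · intro v
        have := h3 v
        tauto
      · intro v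
        obtain ⟨t, h5, h6⟩ := h4 v
        exact ⟨t, h6, h5⟩
  rw [e]
  refine (meas_ev n 0).inter (MeasurableSet.inter ?_ (MeasurableSet.inter ?_ ?_))
  · exact MeasurableSet.iInter fun v => MeasurableSet.iInter fun w =>
      ((meas_ev n v).compl.union (meas_ev n w).compl).union (meas_ev n _)
  · exact MeasurableSet.iInter fun v => (meas_ev n v).compl.union (meas_ev n _)
  · exact MeasurableSet.iInter fun v => MeasurableSet.iUnion fun t =>
      MeasurableSet.iInter fun w => meas_ev n w.1

theorem mem_RR {n : ℕ} (A : Sn n) : (fun v : V n => v ∈ A.1) ∈ RR n := by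
  refine ⟨A.1.zero_mem, fun v w hv hw => A.1.add_mem hv hw, fun v hv => A.1.neg_mem hv, ?_⟩
  intro v
  have hv : v ∈ Submodule.span ℚ (A.1 : Set (V n)) := by rw [A.2]; exact Submodule.mem_top
  obtain ⟨t, h1, h2⟩ := Submodule.mem_span_finite_of_mem_span hv
  exact ⟨t, fun w hw => h1 hw, h2⟩

/-- the group with the given characteristic function -/
def ofRR {n : ℕ} (S : RR n) : Sn n :=
  ⟨{ carrier := {v | S.1 v}
     zero_mem' := S.2.1
     add_mem' := fun {a b} ha hb => S.2.2.1 a b ha hb
     neg_mem' := fun {a} ha => S.2.2.2.1 a ha }, by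
    rw [eq_top_iff]
    intro v _
    obtain ⟨t, h1, h2⟩ := S.2.2.2.2 v
    exact Submodule.span_mono (fun w hw => h1 w hw) h2⟩

/-- the isomorphism of `Sn n` with a Borel set of characteristic functions -/
def eqv (n : ℕ) : Sn n ≃ᵐ RR n where
  toFun A := ⟨fun v => v ∈ A.1, mem_RR A⟩
  invFun S := ofRR S
  left_inv A := by
    apply Subtype.ext
    ext v
    exact Iff.rfl
  right_inv S := by
    apply Subtype.ext
    funext v
    rfl
  measurable_toFun := (comap_measurable (fun A : Sn n => fun v : V n => v ∈ A.1)).subtype_mk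
  measurable_invFun := measurable_comap_iff.2 measurable_subtype_coe

theorem t : TaskStd := by
  intro n
  refine ⟨countable_GQ n, ?_, meas_smul n, meas_fix n, meas_mem n⟩
  have : StandardBorelSpace (RR n) := (meas_RR n).standardBorel
  exact std_of_equiv (eqv n)

end Pool.Agent.H418R3.EF.Std686
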