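import Pool.Agent.H418R3.EF.Stmts

set_option autoImplicit false

/-! Task T1 of project H418-EF (helper581). -/

namespace Pool.Agent.H581R3.EFT1

open scoped Pointwise

/-- subgroups of the rational numbers are locally cyclic -/
lemma loc_cyc (C : AddSubgroup ℚ) {c x : ℚ} (hc : c ∈ C) (hx : x ∈ C) :
    ∃ z ∈ C, ∃ a b : ℤ, c = a * z ∧ x = b * z := by
  set P : ℤ := c.num * x.den with hP
  set R : ℤ := x.num * c.den with hR
  set N : ℚ := (c.den : ℚ) * x.den with hN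
  have hc0 : (c.den : ℚ) ≠ 0 := by exact_mod_cast c.den_ne_zero
  have hx0 : (x.den : ℚ) ≠ 0 := by exact_mod_cast x.den_ne_zero
  have hN0 : N ≠ 0 := mul_ne_zero hc0 hx0
  have ec : c = P / N := by
    rw [eq_div_iff hN0, hN, hP]
    push_cast
    have h : c * c.den = c.num := Rat.mul_den_eq_num c
    calc c * ((c.den : ℚ) * x.den) = (c * c.den) * x.den := by ring
      _ = _ := by rw [h]
  have ex : x = R / N := by
    rw [eq_div_iff hN0, hN, hR]
    push_cast
    have h : x * x.den = x.num := Rat.mul_den_eq_num x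
    calc x * ((c.den : ℚ) * x.den) = (x * x.den) * c.den := by ring
      _ = _ := by rw [h]
  set g : ℤ := (Int.gcd P R : ℤ) with hg
  obtain ⟨a, ha⟩ : g ∣ P := Int.gcd_dvd_left _ _
  obtain ⟨b, hb⟩ : g ∣ R := Int.gcd_dvd_right _ _
  refine ⟨g / N, ?_, a, b, ?_, ?_⟩
  · have h1 : (g : ℤ) = P * Int.gcdA P R + R * Int.gcdB P R := Int.gcd_eq_gcd_ab P R
    have h2 : (g : ℚ) / N = (Int.gcdA P R) • c + (Int.gcdB P R) • x := by
      rw [zsmul_eq_mul, zsmul_eq_mul, h1]
      conv_rhs => rw [ec, ex]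
      push_cast
      ring
    rw [h2]
    exact C.add_mem (C.zsmul_mem hc _) (C.zsmul_mem hx _)
  · rw [ec, ha]
    push_cast
    ring
  · rw [ex, hb]
    push_cast
    ring

lemma gen_mod (C : AddSubgroup ℚ) (m : ℤ) (hm : m ≠ 0) :
    ∃ c ∈ C, ∀ x ∈ C, ∃ (n : ℤ) (y : ℚ), y ∈ C ∧ x = n * c + m * y := by
  let M : AddSubgroup C := (zsmulAddGroupHom m : C →+ C).range
  let Q := C ⧸ M
  have hmq : ∀ q : Q, m • q = 0 := by
    intro q
    obtain ⟨y, rfl⟩ := QuotientAddGroup.mk_surjective q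
    rw [← QuotientAddGroup.mk_zsmul, QuotientAddGroup.eq_zero_iff]
    exact ⟨y, rfl⟩
  have hord : ∀ q : Q, addOrderOf q ≤ m.natAbs ∧ 0 < addOrderOf q := by
    intro q
    have h1 : m.natAbs • q = 0 := by
      rcases Int.natAbs_eq m with h | h
      · have := hmq q
        rw [h, natCast_zsmul] at this
        exact this
      · have := hmq q
        rw [h, neg_zsmul, natCast_zsmul, neg_eq_zero] at this
        exact this
    have h2 : addOrderOf q ∣ m.natAbs := addOrderOf_dvd_of_nsmul_eq_zero h1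
    have h3 : 0 < m.natAbs := Int.natAbs_pos.2 hm
    exact ⟨Nat.le_of_dvd h3 h2, Nat.pos_of_dvd_of_pos h2 h3⟩
  have hmax : ∃ q : Q, ∀ q' : Q, addOrderOf q' ≤ addOrderOf q := by
    have hb : BddAbove (Set.range fun q : Q => addOrderOf q) := by
      refine ⟨m.natAbs, ?_⟩
      rintro _ ⟨q, rfl⟩
      exact (hord q).1
    have hne : (Set.range fun q : Q => addOrderOf q).Nonempty := Set.range_nonempty _
    obtain ⟨q, hq⟩ := Nat.sSup_mem hne hb
    refine ⟨q, fun q' => ?_⟩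
    have h : addOrderOf q' ≤ sSup (Set.range fun q : Q => addOrderOf q) :=
      le_csSup hb ⟨q', rfl⟩
    rw [← hq] at h
    exact h
  obtain ⟨q, hq⟩ := hmax
  obtain ⟨c, rfl⟩ := QuotientAddGroup.mk_surjective q
  refine ⟨c, c.2, fun x hx => ?_⟩
  obtain ⟨z, hz, a, b, h1, h2⟩ := loc_cyc C c.2 hx
  have e1 : ((c : C) : Q) = a • ((⟨z, hz⟩ : C) : Q) := by
    rw [← QuotientAddGroup.mk_zsmul]
    congr 1
    apply Subtype.ext
    rw [AddSubgroup.coe_zsmul, zsmul_eq_mul]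
    exact h1
  have e2 : (((⟨x, hx⟩ : C)) : Q) = b • ((⟨z, hz⟩ : C) : Q) := by
    rw [← QuotientAddGroup.mk_zsmul]
    congr 1
    apply Subtype.ext
    rw [AddSubgroup.coe_zsmul, zsmul_eq_mul]
    exact h2
  have hle : AddSubgroup.zmultiples ((c : C) : Q) ≤
      AddSubgroup.zmultiples ((⟨z, hz⟩ : C) : Q) := by
    rw [AddSubgroup.zmultiples_le]
    exact ⟨a, e1.symm⟩
  have hfin : Finite (AddSubgroup.zmultiples ((⟨z, hz⟩ : C) : Q)) := by
    have h := (hord ((⟨z, hz⟩ : C) : Q)).2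
    rw [← Nat.card_zmultiples] at h
    exact Nat.finite_of_card_ne_zero h.ne'
  have heq := AddSubgroup.eq_of_le_of_card_ge hle (by
    rw [Nat.card_zmultiples, Nat.card_zmultiples]
    exact hq _)
  have hxm : (((⟨x, hx⟩ : C)) : Q) ∈ AddSubgroup.zmultiples ((c : C) : Q) := by
    rw [heq]
    exact ⟨b, e2.symm⟩
  obtain ⟨n, hn⟩ := hxm
  have hn' : ((n • c : C) : Q) = (((⟨x, hx⟩ : C)) : Q) := hn
  rw [QuotientAddGroup.eq] at hn'
  obtain ⟨y, hy⟩ := hn'
  have hy' : (m : ℚ) * (y : ℚ) = -((n : ℚ) * (c : ℚ)) + x := by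
    have h := congrArg (Subtype.val) hy
    have h3 : ((zsmulAddGroupHom m : C →+ C) y : C) = m • y := rfl
    rw [h3] at h
    simpa [zsmul_eq_mul] using h
  exact ⟨n, y, y.2, by linarith⟩

theorem t : Pool.Agent.H418R3.EF.TaskT1 := by
  intro B C m hm hBC hmC
  obtain ⟨c, hc, hgen⟩ := gen_mod C m hm
  let I : AddSubgroup ℤ :=
    { carrier := {n | (n : ℚ) * c ∈ B}
      zero_mem' := by simp
      add_mem' := by
        intro a b ha hb
        show ((a + b : ℤ) : ℚ) * c ∈ B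
        push_cast
        rw [add_mul]
        exact B.add_mem ha hb
      neg_mem' := by
        intro a ha
        show ((-a : ℤ) : ℚ) * c ∈ B
        push_cast
        rw [neg_mul]
        exact B.neg_mem ha }
  obtain ⟨k, hk⟩ := Int.subgroup_cyclic I
  have hmemI : ∀ n : ℤ, (n : ℚ) * c ∈ B ↔ ∃ j : ℤ, j • k = n := by
    intro n
    have h : n ∈ I ↔ n ∈ AddSubgroup.closure {k} := by rw [hk]
    rw [AddSubgroup.mem_closure_singleton] at h
    exact h
  obtain ⟨m', hm'⟩ := (hmemI m).1 (hmC c hc)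
  have hk0 : k ≠ 0 := by
    rintro rfl
    rw [smul_zero] at hm'
    exact hm hm'.symm
  have hkc : (k : ℚ) * c ∈ B := (hmemI k).2 ⟨1, by simp⟩
  have hkQ : (k : ℚ) ≠ 0 := by exact_mod_cast hk0
  have hm'' : (m : ℚ) = m' * k := by
    rw [← hm', smul_eq_mul]; push_cast; ring
  refine ⟨Units.mk0 (k : ℚ) hkQ, ?_⟩
  ext b
  constructor
  · intro hb0
    obtain ⟨x, hx, hxb⟩ := hb0
    obtain ⟨n, y, hy, hxy⟩ := hgen x hx
    have hxb' : (k : ℚ) * x = b := hxb
    rw [← hxb']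
    have e : (k : ℚ) * x = n • ((k : ℚ) * c) + (m : ℚ) * (k • y) := by
      rw [hxy, zsmul_eq_mul, zsmul_eq_mul]; ring
    rw [e]
    exact B.add_mem (B.zsmul_mem hkc n) (hmC _ (C.zsmul_mem hy k))
  · intro hb
    obtain ⟨n, y, hy, hxy⟩ := hgen b (hBC hb)
    have hn : (n : ℚ) * c ∈ B := by
      have e : (n : ℚ) * c = b - (m : ℚ) * y := by rw [hxy]; ring
      rw [e]
      exact B.sub_mem hb (hmC y hy)
    obtain ⟨n', hn'⟩ := (hmemI n).1 hn
    have hn'' : (n : ℚ) = n' * k := by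
      rw [← hn', smul_eq_mul]; push_cast; ring
    refine ⟨n' • c + m' • y, C.add_mem (C.zsmul_mem hc _) (C.zsmul_mem hy _), ?_⟩
    show (k : ℚ) * (n' • c + m' • y) = b
    rw [hxy, hn'', hm'', zsmul_eq_mul, zsmul_eq_mul]
    ring

end Pool.Agent.H581R3.EFT1
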