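import Pool.Agent.H418R3.EF.Stmts

set_option autoImplicit false
set_option maxHeartbeats 4000000

namespace Pool.Agent.H418R3.EF.T2_helper134

open scoped Pointwise
open Pool.Agent.H418R3.EF

/-- the rank one group of `A` in the direction `v` -/
def Av (A : Sn 2) (v : V 2) : AddSubgroup ℚ where
  carrier := {q | q • v ∈ A.1}
  zero_mem' := by
    show (0 : ℚ) • v ∈ A.1
    rw [zero_smul]; exact A.1.zero_mem
  add_mem' := by
    intro a b ha hb
    show (a + b) • v ∈ A.1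
    rw [add_smul]; exact A.1.add_mem ha hb
  neg_mem' := by
    intro a ha
    show (-a) • v ∈ A.1
    rw [neg_smul]; exact A.1.neg_mem ha

theorem mem_Av {A : Sn 2} {v : V 2} {q : ℚ} : q ∈ Av A v ↔ q • v ∈ A.1 := Iff.rfl

theorem B1_eq (A : Sn 2) : B1 A = Av A ![1, 0] := by
  ext q
  rw [mem_Av]
  have : q • (![1, 0] : V 2) = ![q, 0] := by ext i; fin_cases i <;> simp
  rw [this]; rfl

theorem B2_eq (A : Sn 2) : B2 A = Av A ![0, 1] := by
  ext q
  rw [mem_Av]
  have : q • (![0, 1] : V 2) = ![0, q] := by ext i; fin_cases i <;> simp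
  rw [this]; rfl

/-- equal up to a rational factor -/
def Rl (B C : AddSubgroup ℚ) : Prop := ∃ q : ℚˣ, q • B = C

theorem Rl.symm {B C : AddSubgroup ℚ} (h : Rl B C) : Rl C B := by
  obtain ⟨q, rfl⟩ := h
  exact ⟨q⁻¹, inv_smul_smul q B⟩

theorem Rl.trans {B C D : AddSubgroup ℚ} (h : Rl B C) (h' : Rl C D) : Rl B D := by
  obtain ⟨q, rfl⟩ := h
  obtain ⟨r, rfl⟩ := h'
  exact ⟨r * q, mul_smul r q B⟩

theorem mem_us (q : ℚˣ) (B : AddSubgroup ℚ) (x : ℚ) : x ∈ q • B ↔ ((q⁻¹ : ℚˣ) : ℚ) * x ∈ B :=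
  AddSubgroup.mem_pointwise_smul_iff_inv_smul_mem

theorem Av_smul (A : Sn 2) (h : GQ 2) (v : V 2) : Av (h • A) (h v) = Av A v := by
  ext q
  rw [mem_Av, mem_Av, mem_smul]
  have : h⁻¹ (q • h v) = q • v := by
    rw [map_smul]
    congr 1
    exact h.symm_apply_apply v
  rw [this]

theorem claim1 (h1 : TaskT1) (A : Sn 2) (hA : A ∈ PT) (v : V 2) (hv : v 0 ≠ 0) :
    Rl (Av A v) (B1 A) := by
  obtain ⟨m, hm, hP⟩ := hA
  have hmq : (m : ℚ) ≠ 0 := by exact_mod_cast hm
  set s : ℤ := (v 0).num * (v 1).den with hs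
  set t : ℤ := (v 1).num * (v 0).den with ht
  set d : ℤ := (v 0).den * (v 1).den with hd
  have hden0 : ((v 0).den : ℚ) ≠ 0 := by exact_mod_cast (v 0).den_nz
  have hden1 : ((v 1).den : ℚ) ≠ 0 := by exact_mod_cast (v 1).den_nz
  have e0 : v 0 * (v 0).den = (v 0).num := Rat.mul_den_eq_num (v 0)
  have e1 : v 1 * (v 1).den = (v 1).num := Rat.mul_den_eq_num (v 1)
  have hs' : (s : ℚ) = v 0 * d := by
    rw [hs, hd]; push_cast; rw [← e0]; ring
  have ht' : (t : ℚ) = v 1 * d := by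
    rw [ht, hd]; push_cast; rw [← e1]; ring
  have hs0 : s ≠ 0 := by
    rw [hs]
    refine mul_ne_zero (Rat.num_ne_zero.2 hv) ?_
    exact_mod_cast (v 1).den_nz
  let u : ℚˣ := Units.mk0 ((m : ℚ) * v 0) (mul_ne_zero hmq hv)
  have hu : ((u⁻¹ : ℚˣ) : ℚ) = ((m : ℚ) * v 0)⁻¹ := by simp [u]
  have H1 : u • Av A v ≤ B1 A := by
    intro x hx
    rw [mem_us, hu, mem_Av] at hx
    have h2 := (hP _ hx).1
    have h3 : (m : ℚ) * (((((m : ℚ) * v 0)⁻¹ * x) • v) 0) = x := by
      show (m : ℚ) * ((((m : ℚ) * v 0)⁻¹ * x) * v 0) = x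
      field_simp
    rw [h3] at h2
    exact h2
  have H2 : ∀ x ∈ B1 A, ((m * m * s : ℤ) : ℚ) * x ∈ u • Av A v := by
    intro x hx
    rw [mem_us, hu, mem_Av]
    have hx' : (![x, 0] : V 2) ∈ A.1 := hx
    have h2 := (hP _ hx').1
    have h3 := (hP _ hx').2.2
    have h4 : (((m : ℚ) * v 0)⁻¹ * (((m * m * s : ℤ) : ℚ) * x)) • v =
        s • (![(m : ℚ) * (![x, 0] : V 2) 0, 0] : V 2) + t • (![0, (m : ℚ) * (![x, 0] : V 2) 0] : V 2) := by
      ext i
      fin_cases i
      · simp only [Pi.smul_apply, Pi.add_apply, smul_eq_mul, zsmul_eq_mul]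
        simp
        rw [hs']
        field_simp
      · simp only [Pi.smul_apply, Pi.add_apply, smul_eq_mul, zsmul_eq_mul]
        simp
        rw [hs', ht']
        field_simp
    rw [h4]
    exact A.1.add_mem (A.1.zsmul_mem h2 s) (A.1.zsmul_mem h3 t)
  obtain ⟨q, hq⟩ := h1 (u • Av A v) (B1 A) (m * m * s) (mul_ne_zero (mul_ne_zero hm hm) hs0) H1 H2
  exact Rl.trans ⟨u, rfl⟩ (Rl.symm ⟨q, hq⟩)

theorem claim2 (A : Sn 2) (v : V 2) (hv : v 0 = 0) (hv1 : v 1 ≠ 0) : Rl (Av A v) (B2 A) := by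
  refine ⟨Units.mk0 (v 1) hv1, ?_⟩
  ext x
  rw [mem_us, mem_Av]
  have : (((Units.mk0 (v 1) hv1)⁻¹ : ℚˣ) : ℚ) = (v 1)⁻¹ := by simp
  rw [this]
  have h : ((v 1)⁻¹ * x) • v = ![0, x] := by
    ext i
    fin_cases i
    · simp [hv]
    · show (v 1)⁻¹ * x * v 1 = x
      field_simp
  rw [h]; rfl

theorem t : TaskT2 := by
  intro h1 A h hA hhA
  have hinj : Function.Injective h := h.injective
  -- directions
  have r1 : ∀ v : V 2, Av A v = Av (h • A) (h v) := fun v => (Av_smul A h v).symm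
  have key1 : ∀ v : V 2, v 0 ≠ 0 → (h v) 0 ≠ 0 → Rl (B1 A) (B1 (h • A)) := by
    intro v hv hhv
    have a1 := claim1 h1 A hA v hv
    have a2 := claim1 h1 (h • A) hhA (h v) hhv
    rw [← r1] at a2
    exact a1.symm.trans a2
  have hdec : ∀ v : V 2, v = v 0 • (![1, 0] : V 2) + v 1 • (![0, 1] : V 2) := by
    intro v
    ext i
    fin_cases i <;> simp
  by_cases hc : (h ![0, 1]) 0 = 0
  · -- `h e2` is a multiple of `e2`
    have hc1 : (h ![0, 1]) 1 ≠ 0 := by
      intro h2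
      have h3 : h ![0, 1] = 0 := by
        ext i
        fin_cases i
        · exact hc
        · exact h2
      have h4 : (![0, 1] : V 2) = 0 := hinj (by rw [h3, map_zero])
      have h5 := congrFun h4 1
      simp at h5
    have hd : (h ![1, 0]) 0 ≠ 0 := by
      intro h2
      obtain ⟨w, hw⟩ := h.surjective (![1, 0] : V 2)
      have h3 := congrFun hw 0
      rw [hdec w, map_add, map_smul, map_smul] at h3
      simp [h2, hc] at h3
    have a1 : Rl (B1 A) (B1 (h • A)) := key1 ![1, 0] (by simp) hd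
    have a2 : Rl (B2 A) (B2 (h • A)) := by
      have b1 := claim2 (h • A) (h ![0, 1]) hc hc1
      rw [← r1, ← B2_eq] at b1
      exact b1
    obtain ⟨q1, hq1⟩ := a1
    obtain ⟨q2, hq2⟩ := a2
    exact ⟨q1, q2, hq1, hq2⟩
  · have a3 : Rl (B2 A) (B1 (h • A)) := by
      have b1 := claim1 h1 (h • A) hhA (h ![0, 1]) hc
      rw [← r1, ← B2_eq] at b1
      exact b1
    have a4 : Rl (B1 A) (B2 (h • A)) := by
      -- the preimage of `e2`
      obtain ⟨w, hw⟩ := h.surjective (![0, 1] : V 2)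
      have hw0 : w 0 ≠ 0 := by
        intro h2
        have h3 := congrFun hw 0
        rw [hdec w, h2, zero_smul, zero_add, map_smul] at h3
        have h4 : w 1 * (h ![0, 1]) 0 = 0 := by simpa using h3
        rcases mul_eq_zero.1 h4 with h5 | h5
        · have h6 : w = 0 := by
            ext i
            fin_cases i
            · exact h2
            · exact h5
          rw [h6, map_zero] at hw
          have h7 := congrFun hw 1
          simp at h7
        · exact hc h5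
      have b1 := claim1 h1 A hA w hw0
      rw [r1, hw, ← B2_eq] at b1
      exact b1.symm
    have a5 : Rl (B1 A) (B1 (h • A)) := by
      by_cases hd : (h ![1, 0]) 0 = 0
      · refine key1 ![1, 1] (by simp) ?_
        have e : (![1, 1] : V 2) = ![1, 0] + ![0, 1] := by ext i; fin_cases i <;> simp
        rw [e, map_add]
        show (h ![1, 0]) 0 + (h ![0, 1]) 0 ≠ 0
        rw [hd, zero_add]
        exact hc
      · exact key1 ![1, 0] (by simp) hd
    have a6 : Rl (B2 A) (B2 (h • A)) := a3.trans (a5.symm.trans a4)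
    obtain ⟨q1, hq1⟩ := a5
    obtain ⟨q2, hq2⟩ := a6
    exact ⟨q1, q2, hq1, hq2⟩

end Pool.Agent.H418R3.EF.T2_helper134
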