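import Pool.Agent.H418R3.EF.Stmts

set_option autoImplicit false

namespace Pool.Agent.H418R3.EF.T3H144

open Pool.Agent.H418R3.EF

lemma exists_gen (C : AddSubgroup ℚ) (S : Finset ℚ) (hS : ∀ s ∈ S, s ∈ C) :
    ∃ c ∈ C, ∀ s ∈ S, ∃ k : ℤ, s = k * c := by
  classical
  set d : ℕ := ∏ s ∈ S, s.den with hd
  have hd0 : (d : ℚ) ≠ 0 := by
    rw [hd]
    push_cast
    exact Finset.prod_ne_zero_iff.2 fun s _ => by exact_mod_cast s.den_ne_zero
  let φ : ℤ →+ ℚ := (AddMonoidHom.mulRight ((d : ℚ)⁻¹)).comp (Int.castAddHom ℚ)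
  have hφ : ∀ n : ℤ, φ n = (n : ℚ) * (d : ℚ)⁻¹ := fun n => rfl
  obtain ⟨a, ha⟩ := Int.subgroup_cyclic (C.comap φ)
  have haC : φ a ∈ C := by
    have : a ∈ C.comap φ := by
      rw [ha]
      exact AddSubgroup.subset_closure (Set.mem_singleton a)
    exact this
  refine ⟨φ a, haC, fun s hs => ?_⟩
  have h1 : ∃ n : ℤ, (n : ℚ) = s * d := by
    obtain ⟨e, he⟩ : s.den ∣ d := Finset.dvd_prod_of_mem _ hs
    refine ⟨s.num * e, ?_⟩
    rw [he]
    push_cast
    have := Rat.mul_den_eq_num s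
    rw [← this]
    ring
  obtain ⟨n, hn⟩ := h1
  have h2 : φ n = s := by
    rw [hφ, hn, mul_assoc, mul_inv_cancel₀ hd0, mul_one]
  have h3 : n ∈ C.comap φ := by
    show φ n ∈ C
    rw [h2]
    exact hS s hs
  rw [ha, AddSubgroup.mem_closure_singleton] at h3
  obtain ⟨k, hk⟩ := h3
  refine ⟨k, ?_⟩
  rw [← h2, ← hk, map_zsmul, zsmul_eq_mul]

/-- projections -/
def pr (A : Sn 2) (i : Fin 2) : A.1 →+ ℚ := (Pi.evalAddMonoidHom (fun _ => ℚ) i).comp A.1.subtype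

/-- the subgroup `B1 ⊕ B2` -/
def K (A : Sn 2) : AddSubgroup A.1 := (B1 A).comap (pr A 0) ⊓ (B2 A).comap (pr A 1)

lemma mem_K (A : Sn 2) (v : A.1) : v ∈ K A ↔ v.1 0 ∈ B1 A ∧ v.1 1 ∈ B2 A := Iff.rfl

lemma finite_quot (A : Sn 2) (hA : A ∈ PT) : Finite (A.1 ⧸ K A) := by
  classical
  obtain ⟨m, hm, h⟩ := hA
  by_contra hinf
  rw [not_finite_iff_infinite] at hinf
  set N := m.natAbs with hN
  haveI : NeZero N := ⟨Int.natAbs_ne_zero.2 hm⟩
  obtain ⟨T, hT⟩ := Infinite.exists_subset_card_eq (A.1 ⧸ K A) (N * N + 1)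
  have hgen : ∀ i : Fin 2, ∃ c : ℚ, (∃ v ∈ A.1, v i = c) ∧
      ∀ q : A.1 ⧸ K A, ∃ k : ℤ, q ∈ T → (Quotient.out q).1 i = k * c := by
    intro i
    obtain ⟨c, hc, hk⟩ := exists_gen (A.1.map (Pi.evalAddMonoidHom (fun _ => ℚ) i))
      (T.image fun q => (Quotient.out q).1 i) (by
        intro s hs
        obtain ⟨q, _, rfl⟩ := Finset.mem_image.1 hs
        exact ⟨_, (Quotient.out q).2, rfl⟩)
    obtain ⟨v, hv, hvc⟩ := hc
    refine ⟨c, ⟨v, hv, hvc⟩, fun q => ?_⟩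
    by_cases hq : q ∈ T
    · obtain ⟨k, hk⟩ := hk _ (Finset.mem_image_of_mem _ hq)
      exact ⟨k, fun _ => hk⟩
    · exact ⟨0, fun h => absurd h hq⟩
  obtain ⟨c1, ⟨v1, hv1, hc1⟩, hk1⟩ := hgen 0
  obtain ⟨c2, ⟨v2, hv2, hc2⟩, hk2⟩ := hgen 1
  choose k1 hk1 using hk1
  choose k2 hk2 using hk2
  have hB1 : (m : ℚ) * c1 ∈ B1 A := by
    rw [← hc1]
    exact (h v1 hv1).1
  have hB2 : (m : ℚ) * c2 ∈ B2 A := by
    rw [← hc2]
    exact (h v2 hv2).2.1
  obtain ⟨q, hq, q', hq', hne, heq⟩ := Finset.exists_ne_map_eq_of_card_lt_of_maps_to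
    (s := T) (t := (Finset.univ : Finset (ZMod N × ZMod N)))
    (f := fun q => ((k1 q : ZMod N), (k2 q : ZMod N))) (by
      rw [hT, Finset.card_univ, Fintype.card_prod, ZMod.card]
      omega) (fun _ _ => Finset.mem_coe.2 (Finset.mem_univ _))
  apply hne
  have heq1 : (k1 q : ZMod N) = (k1 q' : ZMod N) := congrArg Prod.fst heq
  have heq2 : (k2 q : ZMod N) = (k2 q' : ZMod N) := congrArg Prod.snd heq
  rw [ZMod.intCast_eq_intCast_iff_dvd_sub, hN, Int.natAbs_dvd] at heq1 heq2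
  obtain ⟨j1, hj1⟩ := heq1
  obtain ⟨j2, hj2⟩ := heq2
  rw [← QuotientAddGroup.out_eq' q, ← QuotientAddGroup.out_eq' q', QuotientAddGroup.eq, mem_K]
  constructor
  · have h1 : (-(Quotient.out q) + Quotient.out q' : A.1).1 0 = (j1 : ℚ) * ((m : ℚ) * c1) := by
      show -(Quotient.out q).1 0 + (Quotient.out q').1 0 = _
      rw [hk1 q hq, hk1 q' hq']
      have : ((k1 q' : ℚ)) - k1 q = m * j1 := by exact_mod_cast hj1
      linear_combination c1 * this
    rw [h1, ← zsmul_eq_mul]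
    exact AddSubgroup.zsmul_mem _ hB1 j1
  · have h1 : (-(Quotient.out q) + Quotient.out q' : A.1).1 1 = (j2 : ℚ) * ((m : ℚ) * c2) := by
      show -(Quotient.out q).1 1 + (Quotient.out q').1 1 = _
      rw [hk2 q hq, hk2 q' hq']
      have : ((k2 q' : ℚ)) - k2 q = m * j2 := by exact_mod_cast hj2
      linear_combination c2 * this
    rw [h1, ← zsmul_eq_mul]
    exact AddSubgroup.zsmul_mem _ hB2 j2

theorem t : TaskT3 := by
  classical
  intro A hA
  haveI := finite_quot A hA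
  haveI := Fintype.ofFinite (A.1 ⧸ K A)
  refine ⟨Finset.univ.image (fun q : A.1 ⧸ K A => (Quotient.out q).1), fun v => ?_⟩
  constructor
  · intro hv
    let q : A.1 ⧸ K A := QuotientAddGroup.mk ⟨v, hv⟩
    have h1 : -(Quotient.out q) + ⟨v, hv⟩ ∈ K A := by
      rw [← QuotientAddGroup.eq, QuotientAddGroup.out_eq']
    rw [mem_K] at h1
    refine ⟨_, _, (Quotient.out q).1, h1.1, h1.2, AddSubgroup.subset_closure ?_, ?_⟩
    · simp only [Finset.coe_image, Finset.coe_univ, Set.image_univ, Set.mem_range]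
      exact ⟨q, rfl⟩
    · funext i
      fin_cases i
      · show v 0 = (-(Quotient.out q).1 0 + v 0) + (Quotient.out q).1 0
        ring
      · show v 1 = (-(Quotient.out q).1 1 + v 1) + (Quotient.out q).1 1
        ring
  · rintro ⟨x, y, w, hx, hy, hw, rfl⟩
    have h1 : w ∈ A.1 := by
      refine (AddSubgroup.closure_le A.1).2 ?_ hw
      intro z hz
      simp only [Finset.coe_image, Finset.coe_univ, Set.image_univ, Set.mem_range] at hz
      obtain ⟨q, rfl⟩ := hz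
      exact (Quotient.out q).2
    have h2 : (![x, y] : V 2) = ![x, 0] + ![0, y] := by
      funext i
      fin_cases i <;> simp
    rw [h2]
    exact A.1.add_mem (A.1.add_mem hx hy) h1

end Pool.Agent.H418R3.EF.T3H144
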