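import Pool.Agent.H418R3.EF.Stmts

set_option autoImplicit false

/-! Task T3 of the project H418-EF (helper861). -/

namespace Pool.Agent.H861R3.EFT3

open Pool.Agent.H418R3.EF
open scoped Pointwise

theorem tors_finite (B : AddSubgroup ℚ) (m : ℤ) (hm : m ≠ 0) :
    {x : ℚ ⧸ B | ∃ q : ℚ, (QuotientAddGroup.mk q : ℚ ⧸ B) = x ∧ (m : ℚ) * q ∈ B}.Finite := by
  classical
  by_contra hinf
  obtain ⟨t, ht, hcard⟩ := Set.Infinite.exists_subset_card_eq hinf (m.natAbs + 1)
  have hq : ∀ x : ℚ ⧸ B, ∃ q : ℚ, x ∈ t →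
      (QuotientAddGroup.mk q : ℚ ⧸ B) = x ∧ (m : ℚ) * q ∈ B := by
    intro x
    by_cases hx : x ∈ t
    · obtain ⟨q, hq⟩ := ht hx
      exact ⟨q, fun _ => hq⟩
    · exact ⟨0, fun h => absurd h hx⟩
  choose q hq using hq
  let N : ℕ := ∏ x ∈ t, (q x).den
  have hN : (N : ℚ) ≠ 0 := by
    have : N ≠ 0 := Finset.prod_ne_zero_iff.2 fun x _ => (q x).den_nz
    exact_mod_cast this
  have ha : ∀ x : ℚ ⧸ B, ∃ a : ℤ, x ∈ t → q x = (a : ℚ) / N := by
    intro x
    by_cases hx : x ∈ t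
    · obtain ⟨d, hd⟩ : (q x).den ∣ N := Finset.dvd_prod_of_mem (fun x => (q x).den) hx
      refine ⟨(q x).num * d, fun _ => ?_⟩
      have h1 : (q x) * (q x).den = (q x).num := Rat.mul_den_eq_num (q x)
      rw [eq_div_iff hN, hd]
      push_cast
      rw [← mul_assoc, h1]
    · exact ⟨0, fun h => absurd h hx⟩
  choose a ha using ha
  let H : AddSubgroup ℤ :=
    { carrier := {z | (z : ℚ) / N ∈ B}
      zero_mem' := by
        show ((0 : ℤ) : ℚ) / N ∈ B
        rw [Int.cast_zero, zero_div]; exact B.zero_mem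
      add_mem' := by
        intro z w hz hw
        show ((z + w : ℤ) : ℚ) / N ∈ B
        rw [Int.cast_add, add_div]; exact B.add_mem hz hw
      neg_mem' := by
        intro z hz
        show ((-z : ℤ) : ℚ) / N ∈ B
        rw [Int.cast_neg, neg_div]; exact B.neg_mem hz }
  obtain ⟨h, hh⟩ := Int.subgroup_cyclic H
  have hhB : (h : ℚ) / N ∈ B := by
    have : h ∈ H := by rw [hh]; exact AddSubgroup.subset_closure rfl
    exact this
  have hk : ∀ x : ℚ ⧸ B, ∃ k : ℤ, x ∈ t → m * a x = k * h := by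
    intro x
    by_cases hx : x ∈ t
    · have h1 : m * a x ∈ H := by
        show ((m * a x : ℤ) : ℚ) / N ∈ B
        have h2 := (hq x hx).2
        rw [ha x hx] at h2
        rw [Int.cast_mul, mul_div_assoc]
        exact h2
      rw [hh, AddSubgroup.mem_closure_singleton] at h1
      obtain ⟨k, hk⟩ := h1
      exact ⟨k, fun _ => by rw [← hk, smul_eq_mul]⟩
    · exact ⟨0, fun h => absurd h hx⟩
  choose k hk using hk
  have hm' : m.natAbs ≠ 0 := Int.natAbs_ne_zero.2 hm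
  have : NeZero m.natAbs := ⟨hm'⟩
  obtain ⟨x, hx, y, hy, hxy, hkk⟩ := Finset.exists_ne_map_eq_of_card_lt_of_maps_to
    (s := t) (t := (Finset.univ : Finset (ZMod m.natAbs)))
    (by rw [Finset.card_univ, ZMod.card, hcard]; exact Nat.lt_succ_self _)
    (f := fun x => ((k x : ℤ) : ZMod m.natAbs)) (fun _ _ => Finset.mem_univ _)
  apply hxy
  have h1 : (m.natAbs : ℤ) ∣ k x - k y := by
    have := (ZMod.intCast_eq_intCast_iff_dvd_sub (k y) (k x) m.natAbs).1 hkk.symm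
    exact this
  rw [Int.natAbs_dvd] at h1
  obtain ⟨l, hl⟩ := h1
  have h2 : a x - a y = l * h := by
    have h3 : m * (a x - a y) = m * (l * h) := by
      have e1 := hk x hx
      have e2 := hk y hy
      calc m * (a x - a y) = m * a x - m * a y := by ring
        _ = (k x - k y) * h := by rw [e1, e2]; ring
        _ = m * (l * h) := by rw [hl]; ring
    exact mul_left_cancel₀ hm h3
  rw [← (hq x hx).1, ← (hq y hy).1, QuotientAddGroup.eq]
  have h4 : -q x + q y = (-l) • ((h : ℚ) / N) := by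
    rw [ha x hx, ha y hy]
    have h5 : ((a x : ℚ) - a y) = l * h := by exact_mod_cast h2
    rw [zsmul_eq_mul]
    push_cast
    have h6 : -((a x : ℚ) / N) + (a y : ℚ) / N = -(((a x : ℚ) - a y) / N) := by ring
    rw [h6, h5]
    ring
  rw [h4]
  exact B.zsmul_mem hhB _

theorem vec_add (a b c d : ℚ) : (![a, b] : V 2) + ![c, d] = ![a + c, b + d] := by
  ext i; fin_cases i <;> simp

theorem t : TaskT3 := by
  classical
  rintro A ⟨m, hm, hA⟩
  have f1 := tors_finite (B1 A) m hm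
  have f2 := tors_finite (B2 A) m hm
  let ψ : V 2 → (ℚ ⧸ B1 A) × (ℚ ⧸ B2 A) := fun v =>
    (QuotientAddGroup.mk (v 0), QuotientAddGroup.mk (v 1))
  have hfin : (ψ '' (A.1 : Set (V 2))).Finite := by
    refine (f1.prod f2).subset ?_
    rintro _ ⟨v, hv, rfl⟩
    have h := hA v hv
    exact ⟨⟨v 0, rfl, h.1⟩, ⟨v 1, rfl, h.2.1⟩⟩
  have hch : ∀ z : (ℚ ⧸ B1 A) × (ℚ ⧸ B2 A), ∃ w : V 2,
      z ∈ ψ '' (A.1 : Set (V 2)) → w ∈ A.1 ∧ ψ w = z := by
    intro z
    by_cases hz : z ∈ ψ '' (A.1 : Set (V 2))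
    · obtain ⟨w, hw, hwz⟩ := hz
      exact ⟨w, fun _ => ⟨hw, hwz⟩⟩
    · exact ⟨0, fun h => absurd h hz⟩
  choose r hr using hch
  refine ⟨hfin.toFinset.image r, fun v => ?_⟩
  have hFA : AddSubgroup.closure ((hfin.toFinset.image r : Finset (V 2)) : Set (V 2)) ≤ A.1 := by
    rw [AddSubgroup.closure_le]
    intro w hw
    rw [Finset.coe_image] at hw
    obtain ⟨z, hz, rfl⟩ := hw
    exact (hr z (hfin.mem_toFinset.1 hz)).1
  constructor
  · intro hv
    have hz : ψ v ∈ ψ '' (A.1 : Set (V 2)) := ⟨v, hv, rfl⟩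
    obtain ⟨hw, hψ⟩ := hr (ψ v) hz
    have e1 : (QuotientAddGroup.mk (r (ψ v) 0) : ℚ ⧸ B1 A) = QuotientAddGroup.mk (v 0) :=
      congrArg Prod.fst hψ
    have e2 : (QuotientAddGroup.mk (r (ψ v) 1) : ℚ ⧸ B2 A) = QuotientAddGroup.mk (v 1) :=
      congrArg Prod.snd hψ
    rw [QuotientAddGroup.eq] at e1 e2
    refine ⟨-(r (ψ v) 0) + v 0, -(r (ψ v) 1) + v 1, r (ψ v), e1, e2, ?_, ?_⟩
    · apply AddSubgroup.subset_closure
      rw [Finset.coe_image]
      exact ⟨ψ v, hfin.mem_toFinset.2 hz, rfl⟩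
    · ext i
      fin_cases i <;> simp
  · rintro ⟨x, y, w, hx, hy, hw, rfl⟩
    have hx' : (![x, 0] : V 2) ∈ A.1 := hx
    have hy' : (![0, y] : V 2) ∈ A.1 := hy
    have hxy : (![x, y] : V 2) ∈ A.1 := by
      have := A.1.add_mem hx' hy'
      rw [vec_add] at this
      simpa using this
    exact A.1.add_mem hxy (hFA hw)

end Pool.Agent.H861R3.EFT3
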