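import Pool.Agent.H418R3.EF.Stmts

set_option autoImplicit false

namespace Pool.Agent.H418R3.EF.T4Helper54

open scoped Pointwise
open Pool.Agent.H418R3.EF

/-- pairs of subgroups of ℚ with the componentwise action -/
@[reducible] def act2 : MulAction (ℚˣ × ℚˣ) (AddSubgroup ℚ × AddSubgroup ℚ) where
  smul q x := (q.1 • x.1, q.2 • x.2)
  one_smul x := Prod.ext (one_smul ℚˣ x.1) (one_smul ℚˣ x.2)
  mul_smul q r x := Prod.ext (mul_smul q.1 r.1 x.1) (mul_smul q.2 r.2 x.2)

theorem cntU : Countable ℚˣ :=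
  Function.Injective.countable (f := fun u : ℚˣ => (u : ℚ)) fun _ _ h => Units.ext h

theorem meas_mem (v : ℚ) : Measurable (fun T : AddSubgroup ℚ => v ∈ T) :=
  (measurable_pi_apply v).comp (comap_measurable (fun (A : AddSubgroup ℚ) (v : ℚ) => v ∈ A))

theorem meas_to {X : Type} [MeasurableSpace X] (f : X → AddSubgroup ℚ)
    (h : ∀ v, Measurable (fun x => v ∈ f x)) : Measurable f := by
  apply measurable_comap_iff.2
  exact measurable_pi_iff.2 h

theorem meas_smul (q : ℚˣ) (v : ℚ) : Measurable (fun T : AddSubgroup ℚ => v ∈ q • T) := by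
  have : (fun T : AddSubgroup ℚ => v ∈ q • T) = fun T : AddSubgroup ℚ => q⁻¹ • v ∈ T := by
    funext T
    exact propext AddSubgroup.mem_pointwise_smul_iff_inv_smul_mem
  rw [this]
  exact meas_mem _

theorem cocPair (hAb : TaskAb) :
    @HasCoc (ℚˣ × ℚˣ) _ (AddSubgroup ℚ × AddSubgroup ℚ) _ act2 Set.univ := by
  let := act2
  have := cntU
  apply hAb (ℚˣ × ℚˣ) (fun a b => mul_comm a b) (AddSubgroup ℚ × AddSubgroup ℚ)
  · intro g
    apply Measurable.prod
    · show Measurable fun x : AddSubgroup ℚ × AddSubgroup ℚ => g.1 • x.1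
      exact meas_to _ fun v => (meas_smul g.1 v).comp measurable_fst
    · show Measurable fun x : AddSubgroup ℚ × AddSubgroup ℚ => g.2 • x.2
      exact meas_to _ fun v => (meas_smul g.2 v).comp measurable_snd
  · intro g
    apply measurableSet_setOfPred.2
    have : (fun x : AddSubgroup ℚ × AddSubgroup ℚ => g • x = x) = fun x =>
        (∀ v : ℚ, v ∈ g.1 • x.1 ↔ v ∈ x.1) ∧ ∀ v : ℚ, v ∈ g.2 • x.2 ↔ v ∈ x.2 := by
      funext x
      apply propext
      rw [Prod.ext_iff, SetLike.ext_iff, SetLike.ext_iff]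
      rfl
    rw [this]
    apply Measurable.and
    · apply Measurable.forall
      intro v
      exact ((meas_smul g.1 v).comp measurable_fst).iff ((meas_mem v).comp measurable_fst)
    · apply Measurable.forall
      intro v
      exact ((meas_smul g.2 v).comp measurable_snd).iff ((meas_mem v).comp measurable_snd)

/-- the finite set `F` describes `A` -/
def Desc (A : Sn 2) (F : Finset (V 2)) : Prop := ∀ v : V 2, v ∈ A.1 ↔
  ∃ (x y : ℚ) (w : V 2), x ∈ B1 A ∧ y ∈ B2 A ∧ w ∈ AddSubgroup.closure (F : Set (V 2)) ∧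
    v = ![x, y] + w

theorem t : TaskT4 := by
  classical
  let := act2
  have := cntU
  intro hAb hT1 hT2 hT3 hStd hMeas
  obtain ⟨hcG, -, hmact, -, hmem⟩ := hStd 2
  obtain ⟨Γ, i1, i2, β, ℓ, c1, c2, c3, c4⟩ := cocPair hAb
  have hPT : MeasurableSet PT := hMeas.2.2.2
  have hmem' : ∀ v : V 2, Measurable (fun A : Sn 2 => v ∈ A.1) := fun v =>
    measurableSet_setOfPred.1 (hmem v)
  have hB1 : ∀ q : ℚ, Measurable (fun A : Sn 2 => q ∈ B1 A) := fun q => hmem' ![q, 0]
  have hB2 : ∀ q : ℚ, Measurable (fun A : Sn 2 => q ∈ B2 A) := fun q => hmem' ![0, q]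
  let f : Sn 2 → AddSubgroup ℚ × AddSubgroup ℚ := fun A => (B1 A, B2 A)
  have hf : Measurable f := (meas_to _ hB1).prodMk (meas_to _ hB2)
  obtain ⟨en, hen⟩ := exists_surjective_nat (Finset (V 2))
  have hdesc : ∀ F : Finset (V 2), Measurable (fun A : Sn 2 => Desc A F) := by
    intro F
    apply Measurable.forall
    intro v
    apply (hmem' v).iff
    apply Measurable.exists
    intro x
    apply Measurable.exists
    intro y
    apply Measurable.exists
    intro w
    exact (hB1 x).and ((hB2 y).and (measurable_const.and measurable_const))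
  let cd : Sn 2 → ℕ := fun A => sInf {k | Desc A (en k)}
  have hne : ∀ A ∈ PT, {k | Desc A (en k)}.Nonempty := by
    intro A hA
    obtain ⟨F, hF⟩ := hT3 A hA
    obtain ⟨k, hk⟩ := hen F
    exact ⟨k, by show Desc A (en k); rw [hk]; exact hF⟩
  have hcd : ∀ A ∈ PT, Desc A (en (cd A)) := fun A hA => Nat.sInf_mem (hne A hA)
  have horb : ∀ A ∈ PT, ∀ A' ∈ PT, (∃ g : GQ 2, g • A = A') →
      ∃ g : ℚˣ × ℚˣ, g • f A = f A' := by
    rintro A hA A' hA' ⟨g, rfl⟩
    obtain ⟨q1, q2, h1, h2⟩ := hT2 hT1 A g hA hA'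
    exact ⟨(q1, q2), Prod.ext h1 h2⟩
  refine ⟨Γ, i1, i2, fun A' A => β (f A') (f A), fun A => Nat.pair (ℓ (f A)) (cd A), ?_, ?_, ?_, ?_⟩
  · intro A hA A' hA' A'' hA'' h1 h2
    exact c1 _ (Set.mem_univ _) _ (Set.mem_univ _) _ (Set.mem_univ _) (horb A hA A' hA' h1)
      (horb A' hA' A'' hA'' h2)
  · intro A hA A' hA' h1 h2 h3
    obtain ⟨h4, h5⟩ := Nat.pair_eq_pair.1 h3
    have h6 := c2 _ (Set.mem_univ _) _ (Set.mem_univ _) (horb A hA A' hA' h1) h2 h4
    have h7 : B1 A = B1 A' := congrArg Prod.fst h6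
    have h8 : B2 A = B2 A' := congrArg Prod.snd h6
    apply Subtype.ext
    ext v
    have h9 := hcd A hA v
    have h10 := hcd A' hA' v
    rw [h9, h10, h7, h8, h5]
  · intro g γ
    have : {A : Sn 2 | A ∈ PT ∧ g • A ∈ PT ∧ β (f (g • A)) (f A) = γ} =
        {A | (A ∈ PT ∧ g • A ∈ PT) ∧ ∃ q : ℚˣ × ℚˣ, f (g • A) = q • f A ∧
          β (q • f A) (f A) = γ} := by
      ext A
      constructor
      · rintro ⟨h1, h2, h3⟩
        obtain ⟨q, hq⟩ := horb A h1 (g • A) h2 ⟨g, rfl⟩
        exact ⟨⟨h1, h2⟩, q, hq.symm, by rw [hq]; exact h3⟩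
      · rintro ⟨⟨h1, h2⟩, q, hq, h3⟩
        exact ⟨h1, h2, by rw [hq]; exact h3⟩
    rw [this]
    apply measurableSet_setOfPred.2
    apply Measurable.and
    · exact (measurableSet_setOfPred.1 hPT).and ((measurableSet_setOfPred.1 hPT).comp (hmact g))
    · apply Measurable.exists
      intro q
      apply Measurable.and
      · have e : (fun A : Sn 2 => f (g • A) = q • f A) = fun A =>
            (∀ v : ℚ, v ∈ B1 (g • A) ↔ v ∈ q.1 • B1 A) ∧ ∀ v : ℚ, v ∈ B2 (g • A) ↔ v ∈ q.2 • B2 A := by
          funext A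
          apply propext
          rw [Prod.ext_iff, SetLike.ext_iff, SetLike.ext_iff]
          rfl
        rw [e]
        apply Measurable.and
        · apply Measurable.forall
          intro v
          exact ((hB1 v).comp (hmact g)).iff ((meas_smul q.1 v).comp (meas_to _ hB1))
        · apply Measurable.forall
          intro v
          exact ((hB2 v).comp (hmact g)).iff ((meas_smul q.2 v).comp (meas_to _ hB2))
      · have h1 := c3 q γ
        have h2 := hf h1
        apply measurableSet_setOfPred.1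
        convert h2 using 1
        ext A
        simp
  · intro k
    have : {A : Sn 2 | A ∈ PT ∧ Nat.pair (ℓ (f A)) (cd A) = k} =
        {A | A ∈ PT ∧ ℓ (f A) = k.unpair.1 ∧ Desc A (en k.unpair.2) ∧
          ∀ j < k.unpair.2, ¬ Desc A (en j)} := by
      ext A
      constructor
      · rintro ⟨h1, h2⟩
        have h3 : k.unpair = (ℓ (f A), cd A) := by rw [← h2, Nat.unpair_pair]
        rw [h3]
        refine ⟨h1, rfl, hcd A h1, fun j hj hd => ?_⟩
        exact absurd (Nat.sInf_le (show j ∈ {k | Desc A (en k)} from hd)) (not_le.2 hj)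
      · rintro ⟨h1, h2, h3, h4⟩
        refine ⟨h1, ?_⟩
        have h5 : cd A = k.unpair.2 := by
          apply le_antisymm
          · exact Nat.sInf_le h3
          · by_contra h6
            exact h4 _ (not_le.1 h6) (hcd A h1)
        show Nat.pair (ℓ (f A)) (cd A) = k
        rw [h2, h5, Nat.pair_unpair]
    rw [this]
    apply measurableSet_setOfPred.2
    apply (measurableSet_setOfPred.1 hPT).and
    apply Measurable.and
    · have h1 := hf (c4 k.unpair.1)
      apply measurableSet_setOfPred.1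
      convert h1 using 1
      ext A
      simp
    · apply (hdesc _).and
      apply Measurable.forall
      intro j
      apply Measurable.forall
      intro _
      exact (hdesc _).not

end Pool.Agent.H418R3.EF.T4Helper54
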